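import Mathlib
import Pool.Agent.H64.IRL.L9

/-! MP_a758cf_pr, project UD (helper86): no factor of degree in a prescribed sparse set.

GOAL: for every c < 1 - log 2 and every set K of at most n^c degrees (1 <= k < n) the probability that the
characteristic polynomial of the adjacency matrix of G(n,1/2) has a rational factor whose degree lies in K tends to 0.

Library: Pool/Agent/H64/IRL (helper64). Notation: phi = charpoly of `adj ℤ b`; its reduction mod 2 is the charpoly of
`adj (ZMod 2) b`. Everything below is over `ZMod 2`; `q = 2 ^ g.natDegree`; `beta g = 1 / (q - 1)`. -/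

set_option autoImplicit false

namespace Pool.H86.UD

open Finset Polynomial Pool.H64.IR

/-- total degree of a finite set of polynomials -/
noncomputable def dg (s : Finset (ZMod 2)[X]) : ℕ := ∑ g ∈ s, g.natDegree

/-- weight of a finite set of polynomials -/
noncomputable def bt (s : Finset (ZMod 2)[X]) : ℝ := ∏ g ∈ s, beta g

/-- bound for the degree of the part of the characteristic polynomial composed of primes of degree at most `D`, each
to a power less than `m` -/
noncomputable def smB (D m : ℕ) : ℕ := ∑ g ∈ RR 2 0 D, m * g.natDegree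

open Classical in
/-- the irreducible factors (mod 2) of degree greater than `D` of the characteristic polynomial -/
noncomputable def RF (D n : ℕ) (b : Edge n → Bool) : Finset (ZMod 2)[X] :=
  (RR 2 D n).filter fun g => g ∣ (adj (ZMod 2) b).charpoly

open Classical in
/-- weighted number of sets of irreducible polynomials (degrees in `(D, n]`) of total degree `j` -/
noncomputable def aS (D n : ℕ) (z : ℝ) (j : ℕ) : ℝ :=
  ∑ s ∈ (RR 2 D n).powerset.filter (fun s => dg s = j), z ^ s.card * bt s

theorem mem_rf {D n : ℕ} {b : Edge n → Bool} {g : (ZMod 2)[X]} :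
    g ∈ RF D n b ↔ (g.Monic ∧ Irreducible g ∧ D < g.natDegree ∧ g.natDegree ≤ n) ∧
      g ∣ (adj (ZMod 2) b).charpoly := by
  classical
  unfold RF
  rw [Finset.mem_filter, mem_rr]

theorem two_cast : ((2 : ℕ) : ℝ) = 2 := by norm_num

theorem beta_eq (g : (ZMod 2)[X]) : beta g = 1 / ((2 : ℝ) ^ g.natDegree - 1) := by
  unfold beta
  rw [two_cast]

theorem beta_nonneg (g : (ZMod 2)[X]) : 0 ≤ beta g := by
  rw [beta_eq]
  have : (1 : ℝ) ≤ (2 : ℝ) ^ g.natDegree := one_le_pow₀ (by norm_num)
  apply div_nonneg (by norm_num)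
  linarith

theorem bt_nonneg (s : Finset (ZMod 2)[X]) : 0 ≤ bt s := Finset.prod_nonneg fun g _ => beta_nonneg g

/-- the number of irreducible polynomials of degree `m` -/
theorem irr_le (m : ℕ) (hm : 1 ≤ m) : ((Irr 2 m).card : ℝ) ≤ 2 ^ m / m := tbb_irr_upper m hm

/-- a sum over irreducible polynomials of a function of the degree -/
theorem rr_sum (D n : ℕ) (φ : ℕ → ℝ) :
    ∑ g ∈ RR 2 D n, φ g.natDegree = ∑ m ∈ Finset.Ioc D n, ((Irr 2 m).card : ℝ) * φ m := tbb_sum D n φ

/-- the sum of the weights of the irreducible polynomials of degree `m > D` -/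
theorem beta_sum (D m : ℕ) (hm : D < m) :
    ∑ g ∈ Irr 2 m, beta g ≤ (1 + 1 / 2 ^ D) / m := by
  have h1 : ∀ g ∈ Irr 2 m, beta g = 1 / ((2 : ℝ) ^ m - 1) := by
    intro g hg
    rw [beta_eq, ((mem_irr g).1 hg).2.2]
  rw [Finset.sum_congr rfl h1, Finset.sum_const, nsmul_eq_mul]
  have hm1 : 1 ≤ m := by omega
  have hm0 : (0 : ℝ) < m := by exact_mod_cast hm1
  have hD : (1 : ℝ) ≤ (2 : ℝ) ^ D := one_le_pow₀ (by norm_num)
  have h2 : (2 : ℝ) * 2 ^ D ≤ 2 ^ m := by
    calc (2 : ℝ) * 2 ^ D = 2 ^ (D + 1) := by rw [pow_succ]; ring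
      _ ≤ 2 ^ m := pow_le_pow_right₀ (by norm_num) (by omega)
  have h3 : (2 : ℝ) ^ D ≤ 2 ^ m - 1 := by linarith
  have h4 : (0 : ℝ) < 2 ^ m - 1 := by linarith
  calc ((Irr 2 m).card : ℝ) * (1 / ((2 : ℝ) ^ m - 1)) ≤ (2 ^ m / m) * (1 / ((2 : ℝ) ^ m - 1)) :=
        mul_le_mul_of_nonneg_right (irr_le m hm1) (by positivity)
    _ = (1 + 1 / ((2 : ℝ) ^ m - 1)) / m := by field_simp; ring
    _ ≤ (1 + 1 / 2 ^ D) / m := by
        apply div_le_div_of_nonneg_right _ hm0.le
        have := one_div_le_one_div_of_le (by positivity : (0 : ℝ) < 2 ^ D) h3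
        linarith

end Pool.H86.UD
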