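import Mathlib
import Pool.Agent.H86.UD.Defs

/-! MODULE AnaS (project UD of helper86, MP_a758cf_pr): weighted sums over sets of irreducible polynomials.
a_j = aS D n z j, z >= 0, w = z (1 + 1/2^D): j a_j <= w sum_(i<j) a_i and a_j <= w exp w j^(w-1). -/

set_option autoImplicit false

namespace Pool.H86.UD

open Finset Polynomial Pool.H64.IR

theorem as_nonneg (D n : ℕ) (z : ℝ) (hz : 0 ≤ z) (j : ℕ) : 0 ≤ aS D n z j := by
  unfold aS
  exact Finset.sum_nonneg fun s _ => mul_nonneg (pow_nonneg hz _) (bt_nonneg s)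

private theorem AnaS_erase (D n : ℕ) (z : ℝ) (hz : 0 ≤ z) (j : ℕ) (g : (ZMod 2)[X]) :
    ∑ s ∈ ((RR 2 D n).powerset.filter (fun s => dg s = j)).filter (fun s => g ∈ s),
      z ^ s.card * bt s ≤
    if g.natDegree ≤ j then z * beta g * aS D n z (j - g.natDegree) else 0 := by
  classical
  by_cases hj : g.natDegree ≤ j
  · rw [if_pos hj]
    unfold aS
    rw [Finset.mul_sum]
    have hw : ∀ s ∈ ((RR 2 D n).powerset.filter (fun s => dg s = j)).filter (fun s => g ∈ s),
        z ^ s.card * bt s = z * beta g * (z ^ (s.erase g).card * bt (s.erase g)) := by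
      intro s hs
      have hg : g ∈ s := (Finset.mem_filter.1 hs).2
      have h1 : s.card = (s.erase g).card + 1 := (Finset.card_erase_add_one hg).symm
      have h2 : bt s = beta g * bt (s.erase g) := by
        unfold bt
        exact (Finset.mul_prod_erase s (fun g => beta g) hg).symm
      rw [h1, h2, pow_succ]
      ring
    rw [Finset.sum_congr rfl hw]
    have hinj : Set.InjOn (fun s : Finset (ZMod 2)[X] => s.erase g)
        (((RR 2 D n).powerset.filter (fun s => dg s = j)).filter (fun s => g ∈ s) :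
          Finset (Finset (ZMod 2)[X])) := by
      intro s hs t ht hst
      have hs' : g ∈ s := (Finset.mem_filter.1 (Finset.mem_coe.1 hs)).2
      have ht' : g ∈ t := (Finset.mem_filter.1 (Finset.mem_coe.1 ht)).2
      have hst' : s.erase g = t.erase g := hst
      rw [← Finset.insert_erase hs', ← Finset.insert_erase ht', hst']
    rw [← Finset.sum_image (f := fun u => z * beta g * (z ^ u.card * bt u)) hinj]
    apply Finset.sum_le_sum_of_subset_of_nonneg
    · intro u hu
      obtain ⟨s, hs, hsu⟩ := Finset.mem_image.1 hu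
      have hg : g ∈ s := (Finset.mem_filter.1 hs).2
      have hs1 := Finset.mem_filter.1 (Finset.mem_filter.1 hs).1
      rw [Finset.mem_filter, Finset.mem_powerset]
      refine ⟨?_, ?_⟩
      · rw [← hsu]
        exact (Finset.erase_subset g s).trans (Finset.mem_powerset.1 hs1.1)
      · have h3 : g.natDegree + dg (s.erase g) = dg s := by
          unfold dg
          exact Finset.add_sum_erase s (fun g => g.natDegree) hg
        rw [← hsu]
        have := hs1.2
        omega
    · intro u _ _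
      exact mul_nonneg (mul_nonneg hz (beta_nonneg g)) (mul_nonneg (pow_nonneg hz _) (bt_nonneg u))
  · rw [if_neg hj]
    apply le_of_eq
    apply Finset.sum_eq_zero
    intro s hs
    exfalso
    have hg : g ∈ s := (Finset.mem_filter.1 hs).2
    have hs1 := (Finset.mem_filter.1 (Finset.mem_filter.1 hs).1).2
    apply hj
    rw [← hs1]
    unfold dg
    exact Finset.single_le_sum (f := fun g : (ZMod 2)[X] => g.natDegree) (fun _ _ => Nat.zero_le _) hg

private theorem AnaS_double (D n : ℕ) (z : ℝ) (j : ℕ) :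
    (j : ℝ) * aS D n z j = ∑ g ∈ RR 2 D n, (g.natDegree : ℝ) *
      ∑ s ∈ ((RR 2 D n).powerset.filter (fun s => dg s = j)).filter (fun s => g ∈ s),
        z ^ s.card * bt s := by
  classical
  unfold aS
  rw [Finset.mul_sum]
  have h1 : ∀ s ∈ (RR 2 D n).powerset.filter (fun s => dg s = j),
      (j : ℝ) * (z ^ s.card * bt s) =
        ∑ g ∈ RR 2 D n, if g ∈ s then (g.natDegree : ℝ) * (z ^ s.card * bt s) else 0 := by
    intro s hs
    obtain ⟨hs1, hs2⟩ := Finset.mem_filter.1 hs
    rw [← Finset.sum_filter, ← Finset.sum_mul]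
    congr 1
    rw [← hs2]
    unfold dg
    push_cast
    apply Finset.sum_congr _ (fun _ _ => rfl)
    ext g
    rw [Finset.mem_filter]
    exact ⟨fun h => ⟨Finset.mem_powerset.1 hs1 h, h⟩, fun h => h.2⟩
  rw [Finset.sum_congr rfl h1, Finset.sum_comm]
  refine Finset.sum_congr rfl fun g _ => ?_
  rw [Finset.mul_sum]
  exact (Finset.sum_filter _ _).symm

theorem as_rec (D n : ℕ) (z : ℝ) (hz : 0 ≤ z) (j : ℕ) :
    (j : ℝ) * aS D n z j ≤ z * (1 + 1 / 2 ^ D) * ∑ i ∈ Finset.range j, aS D n z i := by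
  classical
  rw [AnaS_double]
  have h1 : ∀ g ∈ RR 2 D n, (g.natDegree : ℝ) *
      (∑ s ∈ ((RR 2 D n).powerset.filter (fun s => dg s = j)).filter (fun s => g ∈ s),
        z ^ s.card * bt s) ≤
      (g.natDegree : ℝ) * (if g.natDegree ≤ j then z * beta g * aS D n z (j - g.natDegree) else 0) :=
    fun g _ => mul_le_mul_of_nonneg_left (AnaS_erase D n z hz j g) (Nat.cast_nonneg _)
  refine (Finset.sum_le_sum h1).trans ?_
  rw [sum_rr (fun g : (ZMod 2)[X] => (g.natDegree : ℝ) *
    (if g.natDegree ≤ j then z * beta g * aS D n z (j - g.natDegree) else 0))]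
  have h2 : ∀ m ∈ Finset.Ioc D n, (∑ g ∈ Irr 2 m, (g.natDegree : ℝ) *
      (if g.natDegree ≤ j then z * beta g * aS D n z (j - g.natDegree) else 0)) ≤
      if m ≤ j then z * (1 + 1 / 2 ^ D) * aS D n z (j - m) else 0 := by
    intro m hm
    have hDm : D < m := (Finset.mem_Ioc.1 hm).1
    have hm0 : (0 : ℝ) < m := by
      have : 0 < m := by omega
      exact_mod_cast this
    have h3 : ∀ g ∈ Irr 2 m, (g.natDegree : ℝ) *
        (if g.natDegree ≤ j then z * beta g * aS D n z (j - g.natDegree) else 0) =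
        (if m ≤ j then (m : ℝ) * z * aS D n z (j - m) else 0) * beta g := by
      intro g hg
      rw [((mem_irr g).1 hg).2.2]
      by_cases h : m ≤ j
      · rw [if_pos h, if_pos h]; ring
      · rw [if_neg h, if_neg h]; ring
    rw [Finset.sum_congr rfl h3, ← Finset.mul_sum]
    by_cases h : m ≤ j
    · rw [if_pos h, if_pos h]
      have h4 := beta_sum D m hDm
      have h5 : 0 ≤ (m : ℝ) * z * aS D n z (j - m) :=
        mul_nonneg (mul_nonneg hm0.le hz) (as_nonneg D n z hz _)
      calc (m : ℝ) * z * aS D n z (j - m) * ∑ g ∈ Irr 2 m, beta g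
          ≤ (m : ℝ) * z * aS D n z (j - m) * ((1 + 1 / 2 ^ D) / m) :=
            mul_le_mul_of_nonneg_left h4 h5
        _ = z * (1 + 1 / 2 ^ D) * aS D n z (j - m) := by
            field_simp
    · rw [if_neg h, if_neg h, zero_mul]
  refine (Finset.sum_le_sum h2).trans ?_
  rw [← Finset.sum_filter, ← Finset.mul_sum]
  have hw : 0 ≤ z * (1 + 1 / 2 ^ D) := by positivity
  apply mul_le_mul_of_nonneg_left _ hw
  have hinj : Set.InjOn (fun m : ℕ => j - m)
      (((Finset.Ioc D n).filter (fun m => m ≤ j) : Finset ℕ) : Set ℕ) := by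
    intro a ha b hb hab
    have h1 := (Finset.mem_filter.1 (Finset.mem_coe.1 ha)).2
    have h2 := (Finset.mem_filter.1 (Finset.mem_coe.1 hb)).2
    have h3 : j - a = j - b := hab
    omega
  rw [← Finset.sum_image (f := fun i => aS D n z i) hinj]
  apply Finset.sum_le_sum_of_subset_of_nonneg
  · intro i hi
    obtain ⟨m, hm, hmi⟩ := Finset.mem_image.1 hi
    have h1 := Finset.mem_filter.1 hm
    have h2 := Finset.mem_Ioc.1 h1.1
    rw [Finset.mem_range]
    have h3 : j - m = i := hmi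
    have := h1.2
    omega
  · intro i _ _
    exact as_nonneg D n z hz i

private theorem AnaS_zero (D n : ℕ) (z : ℝ) : aS D n z 0 ≤ 1 := by
  classical
  unfold aS
  have h : (RR 2 D n).powerset.filter (fun s => dg s = 0) ⊆ {∅} := by
    intro s hs
    obtain ⟨hs1, hs2⟩ := Finset.mem_filter.1 hs
    rw [Finset.mem_singleton]
    by_contra hne
    obtain ⟨g, hg⟩ := Finset.nonempty_iff_ne_empty.2 hne
    have h1 := (mem_rr g).1 (Finset.mem_powerset.1 hs1 hg)
    have h2 : g.natDegree ≤ dg s := by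
      unfold dg
      exact Finset.single_le_sum (f := fun g : (ZMod 2)[X] => g.natDegree)
        (fun _ _ => Nat.zero_le _) hg
    have := h1.2.2.1
    omega
  have h2 : (RR 2 D n).powerset.filter (fun s => dg s = 0) = {∅} := by
    apply Finset.Subset.antisymm h
    intro s hs
    rw [Finset.mem_singleton] at hs
    subst hs
    rw [Finset.mem_filter]
    exact ⟨Finset.empty_mem_powerset _, by simp [dg]⟩
  rw [h2, Finset.sum_singleton]
  simp [bt]

private theorem AnaS_sum (D n : ℕ) (z : ℝ) (hz : 0 ≤ z) (j : ℕ) :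
    ∑ i ∈ Finset.range (j + 1), aS D n z i ≤
      Real.exp (z * (1 + 1 / 2 ^ D) * (harmonic j : ℝ)) := by
  have hw : 0 ≤ z * (1 + 1 / 2 ^ D) := by positivity
  obtain ⟨w, hwd⟩ : ∃ w : ℝ, w = z * (1 + 1 / 2 ^ D) := ⟨_, rfl⟩
  rw [← hwd] at hw ⊢
  induction j with
  | zero =>
    simp only [zero_add, Finset.sum_range_one, harmonic_zero, Rat.cast_zero, mul_zero, Real.exp_zero]
    exact AnaS_zero D n z
  | succ j ih =>
    rw [Finset.sum_range_succ, harmonic_succ]
    push_cast
    have hj : (0 : ℝ) < (j : ℝ) + 1 := by positivity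
    have h1 := as_rec D n z hz (j + 1)
    rw [← hwd] at h1
    push_cast at h1
    have hS : 0 ≤ ∑ i ∈ Finset.range (j + 1), aS D n z i :=
      Finset.sum_nonneg fun i _ => as_nonneg D n z hz i
    have h2 : aS D n z (j + 1) ≤ w * ((j : ℝ) + 1)⁻¹ * ∑ i ∈ Finset.range (j + 1), aS D n z i := by
      rw [← div_eq_mul_inv, div_mul_eq_mul_div, le_div_iff₀ hj]
      linarith
    have h3 : 1 + w * ((j : ℝ) + 1)⁻¹ ≤ Real.exp (w * ((j : ℝ) + 1)⁻¹) := by
      have := Real.add_one_le_exp (w * ((j : ℝ) + 1)⁻¹)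
      linarith
    rw [mul_add, Real.exp_add]
    calc (∑ i ∈ Finset.range (j + 1), aS D n z i) + aS D n z (j + 1)
        ≤ (∑ i ∈ Finset.range (j + 1), aS D n z i) * (1 + w * ((j : ℝ) + 1)⁻¹) := by
          rw [mul_add, mul_one]
          linarith
      _ ≤ Real.exp (w * (harmonic j : ℝ)) * Real.exp (w * ((j : ℝ) + 1)⁻¹) :=
          mul_le_mul ih h3 (by positivity) (Real.exp_pos _).le

theorem as_le (D n : ℕ) (z : ℝ) (hz : 0 ≤ z) (j : ℕ) (hj : 1 ≤ j) :
    aS D n z j ≤ (z * (1 + 1 / 2 ^ D)) * Real.exp (z * (1 + 1 / 2 ^ D)) * (j : ℝ) ^ (z * (1 + 1 / 2 ^ D) - 1) := by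
  have hw : 0 ≤ z * (1 + 1 / 2 ^ D) := by positivity
  have hrec := as_rec D n z hz j
  obtain ⟨i, rfl⟩ : ∃ i, j = i + 1 := ⟨j - 1, by omega⟩
  have hsum := AnaS_sum D n z hz i
  obtain ⟨w, hwd⟩ : ∃ w : ℝ, w = z * (1 + 1 / 2 ^ D) := ⟨_, rfl⟩
  rw [← hwd] at hw hrec hsum ⊢
  obtain ⟨J, hJ⟩ : ∃ J : ℝ, J = ((i + 1 : ℕ) : ℝ) := ⟨_, rfl⟩
  rw [← hJ] at hrec ⊢
  have hJ0 : 0 < J := by rw [hJ]; positivity
  have hharm : (harmonic i : ℝ) ≤ 1 + Real.log J := by
    have h1 := harmonic_le_one_add_log (i + 1)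
    rw [harmonic_succ] at h1
    push_cast at h1
    rw [hJ]
    push_cast
    have h2 : (0 : ℝ) ≤ ((i : ℝ) + 1)⁻¹ := by positivity
    linarith
  have hS : ∑ i ∈ Finset.range (i + 1), aS D n z i ≤ Real.exp w * J ^ w := by
    refine hsum.trans ?_
    rw [Real.rpow_def_of_pos hJ0, ← Real.exp_add]
    apply Real.exp_le_exp.2
    have := mul_le_mul_of_nonneg_left hharm hw
    linarith
  rw [Real.rpow_sub_one hJ0.ne']
  have h3 : J * aS D n z (i + 1) ≤ w * (Real.exp w * J ^ w) :=
    hrec.trans (mul_le_mul_of_nonneg_left hS hw)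
  rw [← mul_div_assoc, le_div_iff₀ hJ0]
  linarith

end Pool.H86.UD
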