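import Mathlib
import Pool.Agent.H86.UD.AnaS

/-! MODULE AnaT (project UD of helper86, MP_a758cf_pr): version of `as_le` for a large roughness threshold D.
a_j = aS D n z j, w = z (1 + 1/2^D), s_j = sum_{i<j} a_i.
For 1 <= j <= D a_j = 0 (dg s = j: s is nonempty and all its elements have degree > D), so s_(D+1) = a_0 = 1 (a_0 <= 1).
For j >= D+1: j a_j <= w s_j (`as_rec`), so s_(j+1) <= s_j (1 + w/j) <= s_j exp(w/j) <= s_j (j/(j-1))^w because
1/j <= log(j/(j-1)) (`Real.add_one_le_exp` or `Real.one_sub_inv_le_log_of_pos`); j >= 2. By induction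
s_j <= ((j-1)/D)^w for j >= D+1, and a_j <= (w/j) ((j-1)/D)^w <= w j^(w-1) D^(-w). -/

set_option autoImplicit false

namespace Pool.H86.UD

open Finset Polynomial Pool.H64.IR

theorem AnaT_zero (D n : ℕ) (z : ℝ) (j : ℕ) (h1 : 1 ≤ j) (hD : j ≤ D) : aS D n z j = 0 := by
  classical
  unfold aS
  apply Finset.sum_eq_zero
  intro s hs
  exfalso
  obtain ⟨hs1, hs2⟩ := Finset.mem_filter.1 hs
  have hne : s ≠ ∅ := by
    rintro rfl
    simp [dg] at hs2
    omega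
  obtain ⟨g, hg⟩ := Finset.nonempty_iff_ne_empty.2 hne
  have h3 := (mem_rr g).1 (Finset.mem_powerset.1 hs1 hg)
  have h2 : g.natDegree ≤ dg s := by
    unfold dg
    exact Finset.single_le_sum (f := fun g : (ZMod 2)[X] => g.natDegree)
      (fun _ _ => Nat.zero_le _) hg
  have := h3.2.2.1
  omega

theorem AnaT_one (D n : ℕ) (z : ℝ) : aS D n z 0 ≤ 1 := by
  classical
  unfold aS
  have h : (RR 2 D n).powerset.filter (fun s => dg s = 0) ⊆ {∅} := by
    intro s hs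
    obtain ⟨hs1, hs2⟩ := Finset.mem_filter.1 hs
    rw [Finset.mem_singleton]
    by_contra hne
    obtain ⟨g, hg⟩ := Finset.nonempty_iff_ne_empty.2 hne
    have h1 := (mem_rr g).1 (Finset.mem_powerset.1 hs1 hg)
    have h2 : g.natDegree ≤ dg s := by
      unfold dg
      exact Finset.single_le_sum (f := fun g : (ZMod 2)[X] => g.natDegree)
        (fun _ _ => Nat.zero_le _) hg
    have := h1.2.2.1
    omega
  have h2 : (RR 2 D n).powerset.filter (fun s => dg s = 0) = {∅} := by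
    apply Finset.Subset.antisymm h
    intro s hs
    rw [Finset.mem_singleton] at hs
    subst hs
    rw [Finset.mem_filter]
    exact ⟨Finset.empty_mem_powerset _, by simp [dg]⟩
  rw [h2, Finset.sum_singleton]
  simp [bt]

theorem AnaT_exp (i : ℕ) (hi : 1 ≤ i) : Real.exp (1 / ((i : ℝ) + 1)) ≤ ((i : ℝ) + 1) / i := by
  have hi0 : (0 : ℝ) < (i : ℝ) := by exact_mod_cast hi
  have h1 := Real.add_one_le_exp (-(1 / ((i : ℝ) + 1)))
  rw [Real.exp_neg] at h1
  have h2 : -(1 / ((i : ℝ) + 1)) + 1 = (i : ℝ) / ((i : ℝ) + 1) := by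
    field_simp
    ring
  rw [h2] at h1
  have h3 := Real.exp_pos (1 / ((i : ℝ) + 1))
  rw [div_le_iff₀ (by positivity), inv_mul_eq_div, le_div_iff₀ h3] at h1
  rw [le_div_iff₀ hi0]
  linarith

theorem AnaT_sum (D n : ℕ) (hD : 1 ≤ D) (z : ℝ) (hz : 0 ≤ z) (i : ℕ) (hi : D ≤ i) :
    ∑ k ∈ Finset.range (i + 1), aS D n z k ≤ ((i : ℝ) / D) ^ (z * (1 + 1 / 2 ^ D)) := by
  have hw : 0 ≤ z * (1 + 1 / 2 ^ D) := by positivity
  have hD0 : (0 : ℝ) < (D : ℝ) := by exact_mod_cast hD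
  induction i, hi using Nat.le_induction with
  | base =>
    rw [div_self hD0.ne', Real.one_rpow, Finset.sum_range_succ']
    have h0 : ∑ k ∈ Finset.range D, aS D n z (k + 1) = 0 := by
      apply Finset.sum_eq_zero
      intro k hk
      rw [Finset.mem_range] at hk
      exact AnaT_zero D n z (k + 1) (by omega) (by omega)
    rw [h0, zero_add]
    exact AnaT_one D n z
  | succ i hi ih =>
    rw [Finset.sum_range_succ]
    have hi1 : 1 ≤ i := hD.trans hi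
    have hi0 : (0 : ℝ) < (i : ℝ) := by exact_mod_cast hi1
    have hj : (0 : ℝ) < (i : ℝ) + 1 := by positivity
    have h1 := as_rec D n z hz (i + 1)
    obtain ⟨w, hwd⟩ : ∃ w : ℝ, w = z * (1 + 1 / 2 ^ D) := ⟨_, rfl⟩
    rw [← hwd] at h1 hw ih ⊢
    push_cast at h1 ⊢
    have hS : 0 ≤ ∑ k ∈ Finset.range (i + 1), aS D n z k :=
      Finset.sum_nonneg fun k _ => as_nonneg D n z hz k
    have h2 : aS D n z (i + 1) ≤ w * (1 / ((i : ℝ) + 1)) *
        ∑ k ∈ Finset.range (i + 1), aS D n z k := by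
      rw [mul_one_div, div_mul_eq_mul_div, le_div_iff₀ hj]
      linarith
    have h3 : 1 + w * (1 / ((i : ℝ) + 1)) ≤ Real.exp (1 / ((i : ℝ) + 1)) ^ w := by
      rw [← Real.exp_mul]
      have := Real.add_one_le_exp (1 / ((i : ℝ) + 1) * w)
      linarith
    have h4 : Real.exp (1 / ((i : ℝ) + 1)) ^ w ≤ (((i : ℝ) + 1) / i) ^ w :=
      Real.rpow_le_rpow (Real.exp_pos _).le (AnaT_exp i hi1) hw
    have h5 : (((i : ℝ) + 1) / D) ^ w = ((i : ℝ) / D) ^ w * (((i : ℝ) + 1) / i) ^ w := by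
      rw [← Real.mul_rpow (by positivity) (by positivity)]
      congr 1
      field_simp
    rw [h5]
    calc (∑ k ∈ Finset.range (i + 1), aS D n z k) + aS D n z (i + 1)
        ≤ (∑ k ∈ Finset.range (i + 1), aS D n z k) * (1 + w * (1 / ((i : ℝ) + 1))) := by
          rw [mul_add, mul_one]
          linarith
      _ ≤ ((i : ℝ) / D) ^ w * (((i : ℝ) + 1) / i) ^ w :=
          mul_le_mul ih (h3.trans h4) (by positivity) (by positivity)


theorem as_le2 (D n : ℕ) (hD : 1 ≤ D) (z : ℝ) (hz : 0 ≤ z) (j : ℕ) (hj : 1 ≤ j) :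
    aS D n z j ≤ (z * (1 + 1 / 2 ^ D)) * (j : ℝ) ^ (z * (1 + 1 / 2 ^ D) - 1) * (D : ℝ) ^ (-(z * (1 + 1 / 2 ^ D))) := by
  have hw : 0 ≤ z * (1 + 1 / 2 ^ D) := by positivity
  have hD0 : (0 : ℝ) < (D : ℝ) := by exact_mod_cast hD
  have hJ0 : (0 : ℝ) < (j : ℝ) := by exact_mod_cast hj
  by_cases hjD : j ≤ D
  · rw [AnaT_zero D n z j hj hjD]
    positivity
  · have hrec := as_rec D n z hz j
    obtain ⟨i, rfl⟩ : ∃ i, j = i + 1 := ⟨j - 1, by omega⟩
    have hsum := AnaT_sum D n hD z hz i (by omega)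
    obtain ⟨w, hwd⟩ : ∃ w : ℝ, w = z * (1 + 1 / 2 ^ D) := ⟨_, rfl⟩
    rw [← hwd] at hw hrec hsum ⊢
    have h1 : ((i : ℝ) / D) ^ w ≤ (((i + 1 : ℕ) : ℝ) / D) ^ w := by
      apply Real.rpow_le_rpow (by positivity) _ hw
      apply div_le_div_of_nonneg_right _ hD0.le
      push_cast
      linarith
    have h2 : (((i + 1 : ℕ) : ℝ) / D) ^ w = ((i + 1 : ℕ) : ℝ) ^ w * (D : ℝ) ^ (-w) := by
      rw [Real.div_rpow hJ0.le hD0.le, Real.rpow_neg hD0.le, div_eq_mul_inv]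
    have h3 : ((i + 1 : ℕ) : ℝ) * aS D n z (i + 1) ≤ w * (((i + 1 : ℕ) : ℝ) ^ w * (D : ℝ) ^ (-w)) := by
      refine hrec.trans (mul_le_mul_of_nonneg_left ?_ hw)
      rw [← h2]
      exact hsum.trans h1
    rw [Real.rpow_sub_one hJ0.ne']
    have h4 : w * (((i + 1 : ℕ) : ℝ) ^ w / ((i + 1 : ℕ) : ℝ)) * (D : ℝ) ^ (-w)
        = (w * (((i + 1 : ℕ) : ℝ) ^ w * (D : ℝ) ^ (-w))) / ((i + 1 : ℕ) : ℝ) := by
      ring
    rw [h4, le_div_iff₀ hJ0]
    linarith

end Pool.H86.UD
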