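import Mathlib
import Pool.Agent.H86.UD.Defs

/-! MODULE BadQ (project UD of helper86, MP_a758cf_pr): quantitative version of `btm` (L7, section S_BTM) without
the hypothesis n <= 4 deg g.
(a) bq_exc: `b9m` (L7) with e/n in place of e: same proof (from `b9_total`) with n^4 r^n -> 0 instead of n^3 r^n.
(b) bq: copy the proof of `btm`: pr * (q-1) <= Iso n k/(c q) + (1/c) sum_V ind(.. Exc V) <= 2/q + (e/2)/n, and q - 1 >= q/2. -/

set_option autoImplicit false

namespace Pool.H86.UD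

open Finset Polynomial Pool.H64.IR

theorem bq_exc (d e : ℝ) (hd : 0 < d) (he : 0 < e) : ∃ n0 : ℕ, ∀ n k : ℕ, n0 ≤ n → (2 * k : ℝ) ≤ (1 - d) * n →
    (∑ V : Matrix (Fin n) (Fin k) (ZMod 2), ind (FullRank V ∧ V.transpose * V = 0 ∧ Exc V)) ≤
      (e / n) * (((2 : ℝ) ^ n) ^ k / (2 : ℝ) ^ (k * (k + 1) / 2)) := by
  set r : ℝ := (2 : ℝ) ^ (-d) with hr
  have hr0 : 0 < r := Real.rpow_pos_of_pos (by norm_num) _
  have hr1 : r < 1 := Real.rpow_lt_one_of_one_lt_of_neg (by norm_num) (by linarith)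
  have hlim := tendsto_pow_const_mul_const_pow_of_abs_lt_one 4 (r := r)
    (by rw [abs_of_pos hr0]; exact hr1)
  have hmin : (0 : ℝ) < min (e / 8) (1 / 8) := by positivity
  obtain ⟨n0, hn0⟩ := Filter.eventually_atTop.1 (hlim.eventually_lt_const hmin)
  refine ⟨n0 + 1, fun n k hn hk => ?_⟩
  have h1 : (n : ℝ) ^ 4 * r ^ n < min (e / 8) (1 / 8) := hn0 n (by omega)
  have hn1 : (1 : ℝ) ≤ n := by exact_mod_cast (by omega : 1 ≤ n)
  have hkn : (k : ℝ) ≤ n := by
    have : (1 - d) * (n : ℝ) ≤ n := by nlinarith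
    have hk0 : (0 : ℝ) ≤ k := Nat.cast_nonneg k
    linarith
  -- the ratio
  have h2 : (2 : ℝ) ^ (2 * k + 1) / (2 : ℝ) ^ n ≤ 2 * r ^ n := by
    rw [div_le_iff₀ (by positivity), pow_succ]
    have e1 : (2 : ℝ) ^ (2 * k) = (2 : ℝ) ^ ((2 * k : ℝ)) := by
      rw [← Real.rpow_natCast]; push_cast; rfl
    have e2 : r ^ n * (2 : ℝ) ^ n = (2 : ℝ) ^ ((1 - d) * (n : ℝ)) := by
      rw [hr, ← Real.rpow_natCast, ← Real.rpow_natCast, ← Real.rpow_mul (by norm_num),
        ← Real.rpow_add (by norm_num)]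
      congr 1
      ring
    have e3 : (2 : ℝ) ^ (2 * k) ≤ r ^ n * (2 : ℝ) ^ n := by
      rw [e1, e2]
      exact Real.rpow_le_rpow_of_exponent_le (by norm_num) hk
    linarith
  set M := ((2 : ℝ) ^ n) ^ k / (2 : ℝ) ^ (k * (k + 1) / 2) with hM
  have hM0 : 0 ≤ M := by positivity
  refine b9_total.trans ?_
  have hrn : 0 < r ^ n := pow_pos hr0 n
  set x := (n : ℝ) ^ 2 * (2 * r ^ n) with hx
  have hx0 : 0 ≤ x := by positivity
  have hn23 : (n : ℝ) ^ 2 ≤ (n : ℝ) ^ 4 := pow_le_pow_right₀ hn1 (by norm_num)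
  have hx1 : x ≤ 1 := by
    have h3 : (n : ℝ) ^ 4 * r ^ n < 1 / 8 := lt_of_lt_of_le h1 (min_le_right _ _)
    have h4 : (n : ℝ) ^ 2 * r ^ n ≤ (n : ℝ) ^ 4 * r ^ n := mul_le_mul_of_nonneg_right hn23 hrn.le
    rw [hx]
    linarith
  have h3 : ∀ m ∈ Finset.Icc 1 k, ((n : ℝ) ^ 2) ^ m * (4 * ((2 : ℝ) ^ (2 * k + 1) / (2 : ℝ) ^ n) ^ m * M) ≤
      4 * x * M := by
    intro m hm
    have hm1 := (Finset.mem_Icc.1 hm).1
    have h4 : ((n : ℝ) ^ 2) ^ m * ((2 : ℝ) ^ (2 * k + 1) / (2 : ℝ) ^ n) ^ m ≤ x := by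
      rw [← mul_pow]
      calc ((n : ℝ) ^ 2 * ((2 : ℝ) ^ (2 * k + 1) / (2 : ℝ) ^ n)) ^ m ≤ x ^ m := by
            refine pow_le_pow_left₀ (by positivity) ?_ m
            rw [hx]
            exact mul_le_mul_of_nonneg_left h2 (by positivity)
        _ ≤ x ^ 1 := pow_le_pow_of_le_one hx0 hx1 hm1
        _ = x := pow_one x
    calc ((n : ℝ) ^ 2) ^ m * (4 * ((2 : ℝ) ^ (2 * k + 1) / (2 : ℝ) ^ n) ^ m * M)
        = 4 * (((n : ℝ) ^ 2) ^ m * ((2 : ℝ) ^ (2 * k + 1) / (2 : ℝ) ^ n) ^ m) * M := by ring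
      _ ≤ 4 * x * M := by gcongr
  refine (Finset.sum_le_sum h3).trans ?_
  rw [Finset.sum_const, Nat.card_Icc, Nat.add_sub_cancel, nsmul_eq_mul]
  have h5 : (k : ℝ) * (4 * x * M) ≤ n * (4 * x * M) :=
    mul_le_mul_of_nonneg_right hkn (by positivity)
  refine h5.trans ?_
  have h6 : (n : ℝ) * (4 * x) ≤ e / n := by
    have h7 : (n : ℝ) ^ 4 * r ^ n < e / 8 := lt_of_lt_of_le h1 (min_le_left _ _)
    rw [hx, le_div_iff₀ (by linarith : (0 : ℝ) < n)]
    have : (n : ℝ) * (4 * ((n : ℝ) ^ 2 * (2 * r ^ n))) * n = 8 * ((n : ℝ) ^ 4 * r ^ n) := by ring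
    rw [this]
    linarith
  calc (n : ℝ) * (4 * x * M) = (n * (4 * x)) * M := by ring
    _ ≤ (e / n) * M := mul_le_mul_of_nonneg_right h6 hM0

theorem bq (d e : ℝ) (hd : 0 < d) (he : 0 < e) : ∃ n0 : ℕ, ∀ n : ℕ, n0 ≤ n → ∀ g : (ZMod 2)[X], g.Monic →
    Irreducible g → 2 ≤ g.natDegree → (2 * g.natDegree : ℝ) ≤ (1 - d) * n →
    pr (fun b : Edge n → Bool => Bad4 g b ∧ kerc g (adj (ZMod 2) b) = (2 : ℝ) ^ g.natDegree) ≤
      4 / ((2 : ℝ) ^ g.natDegree) ^ 2 + e / (n * (2 : ℝ) ^ g.natDegree) := by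
  classical
  obtain ⟨n1, hn1⟩ := bq_exc d (e / 2) hd (by positivity)
  refine ⟨max n1 8, fun n hn g hg hi hk2 h2k => ?_⟩
  have hn1' : n1 ≤ n := le_trans (le_max_left _ _) hn
  have hn8 : 8 ≤ n := le_trans (le_max_right _ _) hn
  have hnpos : (0 : ℝ) < n := by exact_mod_cast (by omega : 0 < n)
  have h2kn : 2 * g.natDegree ≤ n := by
    have h1 : (2 * g.natDegree : ℝ) ≤ n := by
      have : (0 : ℝ) ≤ n := Nat.cast_nonneg _
      nlinarith
    exact_mod_cast h1
  have hexc := hn1 n g.natDegree hn1' h2k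
  have hiso := iso_upper n g.natDegree h2kn
  have : Fact (Irreducible g) := ⟨hi⟩
  have hfin : Module.Finite (ZMod 2) (AdjoinRoot g) := (AdjoinRoot.powerBasis' hg).finite
  have hfin2 : Finite (AdjoinRoot g) := Module.finite_of_finite (ZMod 2)
  let _ : Fintype (AdjoinRoot g) := Fintype.ofFinite _
  obtain ⟨s, hs⟩ := b7m n g hg hi
  obtain ⟨f, hf⟩ := b8m n g hg hi hk2
  have hcard : (Fintype.card (AdjoinRoot g) : ℝ) = (2 : ℝ) ^ g.natDegree := by
    rw [Fintype.card_congr f.toEquiv, Fintype.card_fun, ZMod.card, Fintype.card_fin]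
    push_cast
    rfl
  set q : ℝ := (2 : ℝ) ^ g.natDegree with hq
  have hq2 : 2 < q := by
    have : (2 : ℝ) ^ 2 ≤ (2 : ℝ) ^ g.natDegree := pow_le_pow_right₀ (by norm_num) hk2
    have h4 : (2 : ℝ) ^ 2 = 4 := by norm_num
    linarith
  have hqpos : 0 < q := by linarith
  set c : ℝ := ((2 : ℝ) ^ n) ^ g.natDegree / (2 : ℝ) ^ (g.natDegree * (g.natDegree + 1) / 2) with hc
  have hcpos : 0 < c := by positivity
  -- the conditions
  let P : (Fin n → AdjoinRoot g) → (Edge n → Bool) → Prop := fun v b =>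
    (∀ i, ∑ j, (adj (ZMod 2) b i j) • v j = AdjoinRoot.root g * v i) ∧
        (∑ ed : Edge n, if b ed then v ed.1.1 * v ed.1.2 else 0) = s v
  -- many vectors
  have h1 : ∀ b : Edge n → Bool, ind (Bad4 g b ∧ kerc g (adj (ZMod 2) b) = (2 : ℝ) ^ g.natDegree) * (q - 1) ≤
      ∑ v ∈ univ.erase (0 : Fin n → AdjoinRoot g), ind (P v b) := by
    intro b
    by_cases hb : Bad4 g b ∧ kerc g (adj (ZMod 2) b) = (2 : ℝ) ^ g.natDegree
    swap
    · rw [ind_false hb, zero_mul]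
      exact Finset.sum_nonneg fun _ _ => ind_nonneg _
    rw [ind_true hb, one_mul]
    obtain ⟨v, hv0, hv⟩ := hs b hb.1 hb.2
    obtain ⟨i0, hi0⟩ : ∃ i, v i ≠ 0 := by
      by_contra hno
      push Not at hno
      exact hv0 (funext hno)
    have hinj : Function.Injective (fun c : AdjoinRoot g => (fun i => c * v i : Fin n → AdjoinRoot g)) := by
      intro x y hxy
      have := congrFun hxy i0
      exact mul_right_cancel₀ hi0 this
    have hsub : (univ.erase (0 : AdjoinRoot g)).image (fun c => (fun i => c * v i : Fin n → AdjoinRoot g)) ⊆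
        univ.erase (0 : Fin n → AdjoinRoot g) := by
      intro w hw
      obtain ⟨x, hx, rfl⟩ := Finset.mem_image.1 hw
      refine Finset.mem_erase.2 ⟨?_, Finset.mem_univ _⟩
      intro h0
      have := congrFun h0 i0
      rcases mul_eq_zero.1 this with h | h
      · exact (Finset.mem_erase.1 hx).1 h
      · exact hi0 h
    calc q - 1 = ∑ x ∈ univ.erase (0 : AdjoinRoot g), (1 : ℝ) := by
          rw [Finset.sum_const, Finset.card_erase_of_mem (Finset.mem_univ _), Finset.card_univ, nsmul_eq_mul,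
            mul_one, Nat.cast_sub (Fintype.card_pos), hcard]
          simp
      _ = ∑ x ∈ univ.erase (0 : AdjoinRoot g), ind (P (fun i => x * v i) b) := by
          refine Finset.sum_congr rfl fun x hx => (ind_true ?_).symm
          exact hv x (Finset.mem_erase.1 hx).1
      _ = ∑ w ∈ (univ.erase (0 : AdjoinRoot g)).image (fun c => (fun i => c * v i : Fin n → AdjoinRoot g)),
            ind (P w b) := by
          rw [Finset.sum_image (fun x _ y _ h => hinj h)]
      _ ≤ _ := Finset.sum_le_sum_of_subset_of_nonneg hsub fun _ _ _ => ind_nonneg _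
  have h2 : pr (fun b : Edge n → Bool => Bad4 g b ∧ kerc g (adj (ZMod 2) b) = (2 : ℝ) ^ g.natDegree) * (q - 1) ≤
      ∑ v ∈ univ.erase (0 : Fin n → AdjoinRoot g), pr (P v) := by
    unfold pr
    rw [← avg_mul_const, ← avg_sum]
    exact avg_mono h1
  -- the matrix of v
  let σ : (Fin n → AdjoinRoot g) ≃ Matrix (Fin n) (Fin g.natDegree) (ZMod 2) :=
    Equiv.arrowCongr (Equiv.refl _) f.toEquiv
  have h3 : ∑ v ∈ univ.erase (0 : Fin n → AdjoinRoot g), pr (P v) ≤
      ∑ V : Matrix (Fin n) (Fin g.natDegree) (ZMod 2),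
        (ind (FullRank V ∧ V.transpose * V = 0) * (1 / c) * (1 / q + ind (Exc V))) := by
    rw [← Equiv.sum_comp σ]
    refine le_trans (Finset.sum_le_sum fun v hv => ?_)
      (Finset.sum_le_sum_of_subset_of_nonneg (Finset.subset_univ _) fun v _ _ => ?_)
    · have h4 := hf v (s v) (Finset.mem_erase.1 hv).1
      refine h4.trans (le_of_eq ?_)
      rw [hc, one_div_div]
      rfl
    · have h5 := ind_nonneg (FullRank (σ v) ∧ (σ v).transpose * (σ v) = 0)
      have h6 := ind_nonneg (Exc (σ v))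
      positivity
  have h4 : ∑ V : Matrix (Fin n) (Fin g.natDegree) (ZMod 2),
        (ind (FullRank V ∧ V.transpose * V = 0) * (1 / c) * (1 / q + ind (Exc V))) =
      (1 / c) * (Iso n g.natDegree / q + ∑ V : Matrix (Fin n) (Fin g.natDegree) (ZMod 2),
        ind (FullRank V ∧ V.transpose * V = 0 ∧ Exc V)) := by
    unfold Iso
    rw [Finset.sum_div, ← Finset.sum_add_distrib, Finset.mul_sum]
    refine Finset.sum_congr rfl fun V _ => ?_
    have : ind (FullRank V ∧ V.transpose * V = 0 ∧ Exc V) =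
        ind (FullRank V ∧ V.transpose * V = 0) * ind (Exc V) := by
      rw [← ind_and]
      exact ind_congr and_assoc.symm
    rw [this]
    ring
  have h5 : Iso n g.natDegree ≤ 2 * c := by
    refine hiso.trans (mul_le_mul_of_nonneg_right ?_ hcpos.le)
    have : (4 : ℝ) ^ g.natDegree / 2 ^ n ≤ 1 := by
      rw [div_le_one (by positivity)]
      calc (4 : ℝ) ^ g.natDegree = 2 ^ (2 * g.natDegree) := by
            rw [pow_mul]; norm_num
        _ ≤ 2 ^ n := pow_le_pow_right₀ (by norm_num) h2kn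
    linarith
  have h6 : pr (fun b : Edge n → Bool => Bad4 g b ∧ kerc g (adj (ZMod 2) b) = (2 : ℝ) ^ g.natDegree) * (q - 1) ≤
      2 / q + e / 2 / n := by
    refine h2.trans (h3.trans ?_)
    rw [h4]
    have h7 : Iso n g.natDegree / q + ∑ V : Matrix (Fin n) (Fin g.natDegree) (ZMod 2),
        ind (FullRank V ∧ V.transpose * V = 0 ∧ Exc V) ≤ 2 * c / q + e / 2 / n * c :=
      add_le_add (div_le_div_of_nonneg_right h5 hqpos.le) hexc
    refine (mul_le_mul_of_nonneg_left h7 (by positivity)).trans (le_of_eq ?_)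
    field_simp
  have hq11 : 0 < q - 1 := by linarith
  have h8 : pr (fun b : Edge n → Bool => Bad4 g b ∧ kerc g (adj (ZMod 2) b) = (2 : ℝ) ^ g.natDegree) ≤
      (2 / q + e / 2 / n) / (q - 1) := by
    rw [le_div_iff₀ hq11]
    exact h6
  refine h8.trans ?_
  have h9 : q / 2 ≤ q - 1 := by linarith
  calc (2 / q + e / 2 / n) / (q - 1) ≤ (2 / q + e / 2 / n) / (q / 2) :=
        div_le_div_of_nonneg_left (by positivity) (by positivity) h9
    _ = 4 / q ^ 2 + e / (n * q) := by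
        field_simp
        ring

end Pool.H86.UD
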