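import Mathlib
import Pool.Agent.H86.UD.Defs

/-! MODULE DimG (project UD of helper86, MP_a758cf_pr).
If g^m divides the characteristic polynomial (g monic irreducible of degree d) then ker g(A)^m has dimension >= m d.
(a) charpoly_quot: copy the proof of `LinearMap.det_eq_det_mul_det` (Mathlib, LinearAlgebra/Determinant.lean, basis
`Module.Basis.sumQuot`, block triangular matrix) with `Matrix.charpoly_fromBlocks_zero₂₁` and
`LinearMap.charpoly_toMatrix`.
(b) dimL, by induction on m (V arbitrary): let g^(m+1) | charpoly T. Then g(T) is not injective (g divides the charpoly;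
e.g. if g(T) were injective, it would be bijective, and all irreducible factors of the charpoly divide the minimal
polynomial; or use the idea of `ker_pow` in Pool/Agent/H64/IRL/L4.lean); pick z /= 0 with g(T) z = 0,
W = {f(T) z : f} = span of T^i z, i < d (T-invariant, finrank W = d because f(T) z = 0 iff g | f). The charpoly of T on
W is g (monic of degree d; it divides ... : the minimal polynomial of T on W is g and has degree d = finrank W).
So charpoly T = g * charpoly(T on V/W), g^m | charpoly(T on V/W) and by induction K' = ker g(T)^m on V/W has dimension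
>= m d. Its preimage U in V has dimension >= (m+1) d (kernel W of U -> K', onto), g(T)^m U is inside W and g(T) W = 0,
so U is inside ker g(T)^(m+1).
(c) dimG: kerc (g^m) A is the number of vectors killed by (aeval A g)^m, = p^(dim ker) (`prm1_card` in L4). -/

set_option autoImplicit false

namespace Pool.H86.UD

open Finset Polynomial Pool.H64.IR

theorem charpoly_quot {K V : Type} [Field K] [AddCommGroup V] [Module K V] [Module.Finite K V]
    (W : Submodule K V) (e : V →ₗ[K] V) (he : W ≤ W.comap e) :
    e.charpoly = (e.restrict he).charpoly * (W.mapQ W e he).charpoly := by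
  exact sqf_charpoly W e he

/-- a matrix whose characteristic polynomial is divisible by `g` has a nonzero vector killed by `g(A)` -/
theorem dimg_exM {K : Type} [Field K] {n : ℕ} (g : K[X]) (hi : Irreducible g)
    (A : Matrix (Fin n) (Fin n) K) (hd : g ∣ A.charpoly) :
    ∃ z : Fin n → K, z ≠ 0 ∧ (Polynomial.aeval A g).mulVec z = 0 := by
  classical
  have : Fact (Irreducible g) := ⟨hi⟩
  let L := AdjoinRoot g
  let α : L := AdjoinRoot.root g
  let B : Matrix (Fin n) (Fin n) L := A.map (algebraMap K L)
  have hα : (B.charpoly).eval α = 0 := by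
    obtain ⟨q, hq⟩ := hd
    have h1 : B.charpoly = A.charpoly.map (algebraMap K L) :=
      Matrix.charpoly_map A (algebraMap K L)
    rw [h1, hq, Polynomial.map_mul, eval_mul]
    have h2 : (g.map (algebraMap K L)).eval α = 0 := by
      rw [Polynomial.eval_map_algebraMap, AdjoinRoot.aeval_eq, AdjoinRoot.mk_self]
    rw [h2, zero_mul]
  rw [Matrix.eval_charpoly] at hα
  obtain ⟨v, hv0, hv⟩ := Matrix.exists_mulVec_eq_zero_iff.2 hα
  rw [Matrix.sub_mulVec, sub_eq_zero] at hv
  have hv' : B.mulVec v = α • v := by
    rw [← hv]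
    ext i
    rw [Matrix.scalar_apply, Matrix.mulVec_diagonal]
    rfl
  have h3 : (aeval B g).mulVec v = 0 := by
    have h4 : ∀ f : K[X], (aeval B f).mulVec v = (aeval α f) • v := by
      intro f
      induction f using Polynomial.induction_on' with
      | add f1 f2 h1 h2 =>
        rw [map_add, map_add, Matrix.add_mulVec, h1, h2, add_smul]
      | monomial k c =>
        rw [aeval_monomial, aeval_monomial]
        have h5 : ∀ k : ℕ, (B ^ k).mulVec v = α ^ k • v := by
          intro k
          induction k with
          | zero => simp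
          | succ k ih =>
            rw [pow_succ, ← Matrix.mulVec_mulVec, hv', Matrix.mulVec_smul, ih, smul_smul,
              pow_succ']
        rw [← Matrix.mulVec_mulVec, h5, ← smul_smul]
        rw [Algebra.algebraMap_eq_smul_one, Matrix.smul_mulVec, Matrix.one_mulVec,
          algebraMap_smul]
    rw [h4 g, AdjoinRoot.aeval_eq, AdjoinRoot.mk_self, zero_smul]
  have h4 : (aeval B g).det = 0 := Matrix.exists_mulVec_eq_zero_iff.1 ⟨v, hv0, h3⟩
  have h5 : aeval B g = (aeval A g).map (algebraMap K L) := by
    have h6 := Polynomial.aeval_algHom_apply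
      ((Algebra.ofId K L).mapMatrix (m := Fin n)) A g
    exact h6
  have h6 : (aeval A g).det = 0 := by
    have h7 : algebraMap K L (aeval A g).det = 0 := by
      rw [RingHom.map_det]
      rw [h5] at h4
      exact h4
    exact (map_eq_zero_iff _ (algebraMap K L).injective).1 h7
  obtain ⟨z, hz0, hz⟩ := Matrix.exists_mulVec_eq_zero_iff.2 h6
  exact ⟨z, hz0, hz⟩

/-- the same for linear maps -/
theorem dimg_exL {K V : Type} [Field K] [AddCommGroup V] [Module K V] [Module.Finite K V]
    (g : K[X]) (hi : Irreducible g) (T : V →ₗ[K] V) (hd : g ∣ T.charpoly) :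
    ∃ y : V, y ≠ 0 ∧ aeval T g y = 0 := by
  set bQ := Module.finBasis K V with hbQ
  set D := LinearMap.toMatrix bQ bQ T with hD
  have hDc : D.charpoly = T.charpoly := LinearMap.charpoly_toMatrix T bQ
  obtain ⟨w, hw0, hw⟩ := dimg_exM g hi D (by rw [hDc]; exact hd)
  have hDg : aeval D g = LinearMap.toMatrix bQ bQ (aeval T g) := by
    have := aeval_algHom_apply (LinearMap.toMatrixAlgEquiv bQ).toAlgHom T g
    exact this
  set y := bQ.equivFun.symm w with hy
  have hy0 : y ≠ 0 := by
    rw [hy]
    intro h0
    exact hw0 ((LinearEquiv.map_eq_zero_iff _).1 h0)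
  refine ⟨y, hy0, ?_⟩
  have h4 := LinearMap.toMatrix_mulVec_repr bQ bQ (aeval T g) y
  have h5 : (bQ.repr y : Fin _ → K) = w := by
    have := bQ.equivFun.apply_symm_apply w
    rw [← hy] at this
    exact this
  rw [h5, ← hDg, hw] at h4
  have h6 : bQ.repr (aeval T g y) = 0 := by
    ext i
    exact (congrFun h4 i).symm
  exact bQ.repr.map_eq_zero_iff.1 h6

/-- the map `f ↦ f(T) z` -/
noncomputable def dimg_phi {K V : Type} [Field K] [AddCommGroup V] [Module K V]
    (T : V →ₗ[K] V) (z : V) : K[X] →ₗ[K] V :=
  (LinearMap.applyₗ z).comp (aeval T : K[X] →ₐ[K] Module.End K V).toLinearMap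

theorem dimg_phi_apply {K V : Type} [Field K] [AddCommGroup V] [Module K V]
    (T : V →ₗ[K] V) (z : V) (f : K[X]) : dimg_phi T z f = aeval T f z := rfl

theorem dimg_mul {K V : Type} [Field K] [AddCommGroup V] [Module K V]
    (T : V →ₗ[K] V) (f h : K[X]) (v : V) : aeval T (f * h) v = aeval T f (aeval T h v) := by
  rw [map_mul, Module.End.mul_apply]

theorem dimg_zero_iff {K V : Type} [Field K] [AddCommGroup V] [Module K V]
    {g : K[X]} (hi : Irreducible g) (T : V →ₗ[K] V) {z : V} (hz : z ≠ 0) (hg : aeval T g z = 0)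
    (f : K[X]) : aeval T f z = 0 ↔ g ∣ f := by
  constructor
  · intro hf
    by_contra hnd
    obtain ⟨a, b, hab⟩ := (hi.coprime_iff_not_dvd).2 hnd
    have h1 : aeval T (a * g + b * f) z = z := by rw [hab, map_one, Module.End.one_apply]
    rw [map_add, LinearMap.add_apply, dimg_mul, dimg_mul, hg, hf, map_zero, map_zero, add_zero] at h1
    exact hz h1.symm
  · rintro ⟨c, rfl⟩
    rw [mul_comm, dimg_mul, hg, map_zero]

/-- the cyclic subspace -/
theorem dimg_finrank {K V : Type} [Field K] [AddCommGroup V] [Module K V]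
    {g : K[X]} (hm : g.Monic) (hi : Irreducible g) (T : V →ₗ[K] V) {z : V} (hz : z ≠ 0)
    (hg : aeval T g z = 0) :
    Module.finrank K (LinearMap.range (dimg_phi T z)) = g.natDegree := by
  set ψ : degreeLT K g.natDegree →ₗ[K] V := (dimg_phi T z).domRestrict (degreeLT K g.natDegree) with hψ
  have hinj : Function.Injective ψ := by
    rw [← LinearMap.ker_eq_bot, LinearMap.ker_eq_bot']
    intro f hf
    have h1 : aeval T (f : K[X]) z = 0 := hf
    have h2 := (dimg_zero_iff hi T hz hg _).1 h1
    have h3 : (f : K[X]).degree < g.degree := by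
      rw [degree_eq_natDegree hm.ne_zero]
      exact mem_degreeLT.1 f.2
    exact Subtype.ext (eq_zero_of_dvd_of_degree_lt h2 h3)
  have hran : LinearMap.range ψ = LinearMap.range (dimg_phi T z) := by
    apply le_antisymm
    · rintro _ ⟨f, rfl⟩
      exact ⟨f, rfl⟩
    · rintro _ ⟨f, rfl⟩
      have h1 : (f %ₘ g).degree < g.natDegree := by
        rw [← degree_eq_natDegree hm.ne_zero]
        exact degree_modByMonic_lt f hm
      refine ⟨⟨f %ₘ g, mem_degreeLT.2 h1⟩, ?_⟩
      change aeval T (f %ₘ g) z = aeval T f z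
      conv_rhs => rw [← modByMonic_add_div f g]
      rw [map_add, LinearMap.add_apply, mul_comm, dimg_mul, hg, map_zero, add_zero]
  rw [← hran, LinearMap.finrank_range_of_inj hinj, (degreeLTEquiv K g.natDegree).finrank_eq,
    Module.finrank_fin_fun]

theorem dimg_inv {K V : Type} [Field K] [AddCommGroup V] [Module K V]
    (T : V →ₗ[K] V) (z : V) :
    LinearMap.range (dimg_phi T z) ≤ (LinearMap.range (dimg_phi T z)).comap T := by
  rintro _ ⟨f, rfl⟩
  refine ⟨X * f, ?_⟩
  rw [dimg_phi_apply, dimg_phi_apply, dimg_mul, aeval_X]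

theorem dimg_aeval_restrict {K V : Type} [Field K] [AddCommGroup V] [Module K V]
    (W : Submodule K V) (e : V →ₗ[K] V) (he : W ≤ W.comap e) (f : K[X]) (w : W) :
    ((aeval (e.restrict he) f w : W) : V) = aeval e f w := by
  induction f using Polynomial.induction_on' with
  | add a b ha hb => rw [map_add, map_add, LinearMap.add_apply, LinearMap.add_apply, Submodule.coe_add, ha, hb]
  | monomial n a =>
    have hn : ∀ v : W, (((e.restrict he) ^ n) v : V) = (e ^ n) (v : V) := by
      induction n with
      | zero => intro v; rfl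
      | succ n ih =>
        intro v
        rw [pow_succ, pow_succ, Module.End.mul_apply, Module.End.mul_apply, ih]
        rfl
    rw [aeval_monomial, aeval_monomial, Module.End.mul_apply, Module.End.mul_apply,
      Module.algebraMap_end_apply, Module.algebraMap_end_apply, Submodule.coe_smul, hn]

theorem dimg_charpoly {K V : Type} [Field K] [AddCommGroup V] [Module K V] [Module.Finite K V]
    {g : K[X]} (hm : g.Monic) (hi : Irreducible g) (T : V →ₗ[K] V) {z : V} (hz : z ≠ 0)
    (hg : aeval T g z = 0) (W : Submodule K V) (hW : W = LinearMap.range (dimg_phi T z))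
    (he : W ≤ W.comap T) : (T.restrict he).charpoly = g := by
  have hf : Module.finrank K W = g.natDegree := by
    rw [hW]
    exact dimg_finrank hm hi T hz hg
  have : Nontrivial W := by
    apply Module.nontrivial_of_finrank_pos (R := K)
    rw [hf]
    exact hi.natDegree_pos
  have h0 : aeval (T.restrict he) g = 0 := by
    apply LinearMap.ext
    intro w
    apply Subtype.ext
    rw [dimg_aeval_restrict]
    have hw : (w : V) ∈ LinearMap.range (dimg_phi T z) := by
      rw [← hW]
      exact w.2
    obtain ⟨f, hf⟩ := hw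
    rw [← hf]
    change aeval T g (dimg_phi T z f) = 0
    rw [dimg_phi_apply, ← dimg_mul, mul_comm, dimg_mul, hg, map_zero]
  have h1 : g = minpoly K (T.restrict he) :=
    minpoly.eq_of_irreducible_of_monic hi h0 hm
  have h2 : g ∣ (T.restrict he).charpoly := by
    conv_lhs => rw [h1]
    exact LinearMap.minpoly_dvd_charpoly _
  refine (Polynomial.eq_of_monic_of_dvd_of_natDegree_le hm (LinearMap.charpoly_monic _) h2 ?_)
  rw [LinearMap.charpoly_natDegree, hf]

theorem dimL {K : Type} [Field K] (g : K[X]) (hg : g.Monic) (hi : Irreducible g) (m : ℕ) :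
    ∀ (V : Type) [AddCommGroup V] [Module K V] [Module.Finite K V] (T : V →ₗ[K] V), g ^ m ∣ T.charpoly →
      m * g.natDegree ≤ Module.finrank K (LinearMap.ker (aeval T (g ^ m))) := by
  induction m with
  | zero => intro V _ _ _ T _; simp
  | succ m ih =>
    intro V _ _ _ T hT
    have hgT : g ∣ T.charpoly := (Dvd.intro_left _ (pow_succ g m).symm).trans hT
    obtain ⟨z, hz, hgz⟩ := dimg_exL g hi T hgT
    set W := LinearMap.range (dimg_phi T z) with hW
    have hinv : W ≤ W.comap T := dimg_inv T z
    have hf : Module.finrank K W = g.natDegree := dimg_finrank hg hi T hz hgz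
    have hch := charpoly_quot W T hinv
    have hcg : (T.restrict hinv).charpoly = g := dimg_charpoly hg hi T hz hgz W rfl hinv
    rw [hch, hcg, pow_succ'] at hT
    have hQ : g ^ m ∣ (W.mapQ W T hinv).charpoly := (mul_dvd_mul_iff_left hg.ne_zero).1 hT
    have h1 := ih (V ⧸ W) (W.mapQ W T hinv) hQ
    set N := LinearMap.ker (aeval T (g ^ (m + 1))) with hN
    set K' := LinearMap.ker (aeval (W.mapQ W T hinv) (g ^ m)) with hK'
    have hgW : ∀ w ∈ W, aeval T g w = 0 := by
      rintro _ ⟨f, rfl⟩
      rw [dimg_phi_apply, ← dimg_mul, mul_comm, dimg_mul, hgz, map_zero]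
    set q : N →ₗ[K] V ⧸ W := W.mkQ.domRestrict N with hq
    have hr : K' ≤ LinearMap.range q := by
      intro k hk
      obtain ⟨v, rfl⟩ := W.mkQ_surjective k
      rw [hK', LinearMap.mem_ker, sqf_mapQ] at hk
      have h2 : aeval T (g ^ m) v ∈ W := by
        rwa [← LinearMap.mem_ker, Submodule.ker_mkQ] at hk
      have h3 : v ∈ N := by
        rw [hN, LinearMap.mem_ker, pow_succ', dimg_mul]
        exact hgW _ h2
      exact ⟨⟨v, h3⟩, rfl⟩
    have hk : W ≤ (LinearMap.ker q).map N.subtype := by
      intro w hw
      have h3 : w ∈ N := by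
        rw [hN, LinearMap.mem_ker, pow_succ, dimg_mul, hgW w hw, map_zero]
      refine ⟨⟨w, h3⟩, ?_, rfl⟩
      change W.mkQ w = 0
      rw [← LinearMap.mem_ker, Submodule.ker_mkQ]
      exact hw
    have h4 : Module.finrank K K' ≤ Module.finrank K (LinearMap.range q) := Submodule.finrank_mono hr
    have h5 : Module.finrank K W ≤ Module.finrank K (LinearMap.ker q) := by
      refine (Submodule.finrank_mono hk).trans ?_
      rw [Submodule.finrank_map_subtype_eq]
    have h6 := LinearMap.finrank_range_add_finrank_ker q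
    rw [hf] at h5
    rw [add_mul, one_mul, ← h6]
    exact add_le_add (h1.trans h4) h5

theorem dimG {p : ℕ} [Fact p.Prime] {n : ℕ} (g : (ZMod p)[X]) (hg : g.Monic) (hi : Irreducible g) (m : ℕ)
    (A : Matrix (Fin n) (Fin n) (ZMod p)) (h : g ^ m ∣ A.charpoly) :
    ((p : ℝ) ^ g.natDegree) ^ m ≤ kerc (g ^ m) A := by
  classical
  set φ : (Fin n → ZMod p) →ₗ[ZMod p] (Fin n → ZMod p) := Matrix.toLinAlgEquiv' A with hφ
  have hφc : φ.charpoly = A.charpoly := by
    rw [hφ]
    exact Matrix.charpoly_toLin' A
  have hae : ∀ f : (ZMod p)[X], ∀ z, aeval φ f z = (aeval A f).mulVec z := by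
    intro f z
    have h1 : aeval φ f = Matrix.toLinAlgEquiv' (aeval A f) := by
      rw [hφ]
      exact aeval_algHom_apply (Matrix.toLinAlgEquiv' : Matrix (Fin n) (Fin n) (ZMod p) ≃ₐ[ZMod p] _).toAlgHom A f
    rw [h1]
    rfl
  have h1 := dimL g hg hi m (Fin n → ZMod p) φ (by rw [hφc]; exact h)
  set U : Submodule (ZMod p) (Fin n → ZMod p) := LinearMap.ker (aeval φ (g ^ m)) with hU
  have hcard : kerc (g ^ m) A = (p : ℝ) ^ Module.finrank (ZMod p) U := by
    unfold kerc
    rw [sqf_sum_card]
    have h1 : Nat.card {z // (aeval A (g ^ m)).mulVec z = 0} = Nat.card U := by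
      refine Nat.card_congr (Equiv.subtypeEquivRight fun z => ?_)
      rw [hU, LinearMap.mem_ker, hae]
    rw [h1, Module.natCard_eq_pow_finrank (K := ZMod p), Nat.card_zmod]
    push_cast
    rfl
  rw [hcard, ← pow_mul, mul_comm]
  exact pow_le_pow_right₀ (by exact_mod_cast (Fact.out : p.Prime).one_lt.le) h1

end Pool.H86.UD
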