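import Mathlib
import Pool.Agent.H86.UD.DimG

/-! MODULE FouB (project UD of helper86, MP_a758cf_pr). Uses DimG.dimG.
g monic irreducible of degree d >= 2, q = 2^d: pr(kerc g = q and g^4 | charpoly) <= 4/q^2.
(a) fb_iso. A symmetric, T = aeval A g (symmetric, commutes with A), K_i = ker T^i. dim K_1 = d (kerc g = q); T^i maps
K_(i+1) to K_1 with kernel K_i, so dim K_(i+1) <= dim K_i + d; dim K_4 >= 4d (dimG, m = 4). Hence dim K_2 = 2d and
T^2 : K_4 -> K_2 (kernel K_2) is onto. So z in K_2 is T^2 w with T^4 w = 0 and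
(A^i z).(A^j z) = zᵀ A^(i+j) z = wᵀ A^(i+j) T^4 w = 0: the frame V = `cmp2_phi A (2d) z` (L4) has VᵀV = 0.
(b) fb_count: on the event the number of z with annihilator g^2 is |K_2| - |K_1| = q^2 - q (K_2 minus K_1: the annihilator
divides g^2 and not g) and V = cmp2_phi A (2d) z is full rank with A V = V comp(g^2), VᵀV = 0 (see `cmp1`, `cmp2_comm` in
L4; distinct z give distinct V), so
sum_V ind(FullRank V and VᵀV = 0 and A V = V comp(g^2)) >= q^2 - q.
(c) the average over b of the left side is sum_V ind(FullRank V and VᵀV = 0) pr(A V = V C) = Iso n (2d) 2^(r(r+1)/2)/(2^n)^r,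
r = 2d (`a2m_pr` with Y = V C: Vᵀ(V C) = 0 is alternating), <= 2 if 4d <= n (`iso_upper`); if 4d > n the event is empty (degree
of the charpoly is n). So pr <= 2/(q^2-q) <= 4/q^2. -/

set_option autoImplicit false

namespace Pool.H86.UD

open Finset Polynomial Pool.H64.IR

/-- rank-nullity on a preimage -/
theorem fb_step {V : Type} [AddCommGroup V] [Module (ZMod 2) V] [Module.Finite (ZMod 2) V]
    (S K : V →ₗ[ZMod 2] V) (hK : LinearMap.ker S ≤ LinearMap.ker K) :
    Module.finrank (ZMod 2) ((LinearMap.ker K).map S) + Module.finrank (ZMod 2) (LinearMap.ker S) =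
      Module.finrank (ZMod 2) (LinearMap.ker K) := by
  have h := LinearMap.finrank_range_add_finrank_ker (S.domRestrict (LinearMap.ker K))
  rw [LinearMap.range_domRestrict, LinearMap.ker_domRestrict] at h
  rw [← h]
  congr 1
  exact (LinearEquiv.finrank_eq (Submodule.comapSubtypeEquivOfLe hK)).symm

theorem fb_kerc {n : ℕ} (f : (ZMod 2)[X]) (A : Matrix (Fin n) (Fin n) (ZMod 2)) :
    kerc f A = (2 : ℝ) ^ Module.finrank (ZMod 2) (LinearMap.ker (Matrix.mulVecLin (aeval A f))) := by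
  classical
  unfold kerc
  rw [prm1_card]
  have h1 : Nat.card {z : Fin n → ZMod 2 // (aeval A f).mulVec z = 0} =
      Nat.card (LinearMap.ker (Matrix.mulVecLin (aeval A f))) := by
    refine Nat.card_congr (Equiv.subtypeEquivRight fun z => ?_)
    rw [LinearMap.mem_ker, Matrix.mulVecLin_apply]
  rw [h1, Module.natCard_eq_pow_finrank (K := ZMod 2), Nat.card_zmod]
  push_cast
  rfl

theorem fb_iso {n : ℕ} (g : (ZMod 2)[X]) (hg : g.Monic) (hi : Irreducible g)
    (A : Matrix (Fin n) (Fin n) (ZMod 2)) (hA : A.IsSymm) (h1 : kerc g A = (2 : ℝ) ^ g.natDegree)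
    (h4 : g ^ 4 ∣ A.charpoly) :
    kerc (g ^ 2) A = ((2 : ℝ) ^ g.natDegree) ^ 2 ∧
    ∀ z : Fin n → ZMod 2, (aeval A (g ^ 2)).mulVec z = 0 → ∀ f : (ZMod 2)[X],
      dotProduct z ((aeval A f).mulVec z) = 0 := by
  classical
  have hpinj : ∀ a b : ℕ, (2 : ℝ) ^ a = 2 ^ b → a = b := by
    intro a b h
    have h' : (2 : ℕ) ^ a = 2 ^ b := by exact_mod_cast h
    exact Nat.pow_right_injective (le_refl 2) h'
  have hple : ∀ a b : ℕ, (2 : ℝ) ^ a ≤ 2 ^ b → a ≤ b := by
    intro a b h
    have h' : (2 : ℕ) ^ a ≤ 2 ^ b := by exact_mod_cast h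
    exact (Nat.pow_le_pow_iff_right (by norm_num)).1 h'
  set K1 := LinearMap.ker (Matrix.mulVecLin (aeval A g)) with hK1
  set K2 := LinearMap.ker (Matrix.mulVecLin (aeval A (g ^ 2))) with hK2
  set K4 := LinearMap.ker (Matrix.mulVecLin (aeval A (g ^ 4))) with hK4
  have e1 : Module.finrank (ZMod 2) K1 = g.natDegree := by
    apply hpinj
    rw [← fb_kerc, h1]
  have e4 : 4 * g.natDegree ≤ Module.finrank (ZMod 2) K4 := by
    apply hple
    rw [← fb_kerc]
    have h := dimG g hg hi 4 A h4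
    have h2 : (2 : ℝ) ^ (4 * g.natDegree) = (((2 : ℕ) : ℝ) ^ g.natDegree) ^ 4 := by
      push_cast
      rw [← pow_mul, mul_comm]
    rw [h2]
    exact h
  have hmul : ∀ (a b : (ZMod 2)[X]) (z : Fin n → ZMod 2), (aeval A (a * b)).mulVec z =
      (aeval A a).mulVec ((aeval A b).mulVec z) := fun a b z => prm1_act A a b z
  have hle12 : K1 ≤ K2 := by
    intro z hz
    rw [hK1, LinearMap.mem_ker, Matrix.mulVecLin_apply] at hz
    rw [hK2, LinearMap.mem_ker, Matrix.mulVecLin_apply, pow_two, hmul, hz, Matrix.mulVec_zero]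
  have hle24 : K2 ≤ K4 := by
    intro z hz
    rw [hK2, LinearMap.mem_ker, Matrix.mulVecLin_apply] at hz
    rw [hK4, LinearMap.mem_ker, Matrix.mulVecLin_apply, show g ^ 4 = g ^ 2 * g ^ 2 by ring, hmul, hz,
      Matrix.mulVec_zero]
  have hm1 : K2.map (Matrix.mulVecLin (aeval A g)) ≤ K1 := by
    rintro _ ⟨z, hz, rfl⟩
    have hz' : (aeval A (g ^ 2)).mulVec z = 0 := hz
    rw [hK1, LinearMap.mem_ker, Matrix.mulVecLin_apply, Matrix.mulVecLin_apply, ← hmul, ← pow_two]
    exact hz'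
  have hm2 : K4.map (Matrix.mulVecLin (aeval A (g ^ 2))) ≤ K2 := by
    rintro _ ⟨z, hz, rfl⟩
    have hz' : (aeval A (g ^ 4)).mulVec z = 0 := hz
    rw [hK2, LinearMap.mem_ker, Matrix.mulVecLin_apply, Matrix.mulVecLin_apply, ← hmul,
      show g ^ 2 * g ^ 2 = g ^ 4 by ring]
    exact hz'
  have s1 := fb_step (Matrix.mulVecLin (aeval A g)) (Matrix.mulVecLin (aeval A (g ^ 2))) hle12
  have s2 := fb_step (Matrix.mulVecLin (aeval A (g ^ 2))) (Matrix.mulVecLin (aeval A (g ^ 4))) hle24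
  rw [← hK1, ← hK2] at s1
  rw [← hK2, ← hK4] at s2
  have l1 := Submodule.finrank_mono hm1
  have l2 := Submodule.finrank_mono hm2
  have e2 : Module.finrank (ZMod 2) K2 = 2 * g.natDegree := by omega
  have hsurj : K4.map (Matrix.mulVecLin (aeval A (g ^ 2))) = K2 :=
    Submodule.eq_of_le_of_finrank_le hm2 (by omega)
  refine ⟨?_, ?_⟩
  · rw [fb_kerc, ← hK2, e2, ← pow_mul, mul_comm]
  · intro z hz f
    have hzK : z ∈ K2 := by
      rw [hK2, LinearMap.mem_ker, Matrix.mulVecLin_apply]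
      exact hz
    rw [← hsurj] at hzK
    obtain ⟨w, hw, hwz⟩ := hzK
    have hw4 : (aeval A (g ^ 4)).mulVec w = 0 := hw
    have hwz' : (aeval A (g ^ 2)).mulVec w = z := hwz
    have hsym : ∀ f : (ZMod 2)[X], (aeval A f).transpose = aeval A f := by
      intro f
      have hpow : ∀ k : ℕ, (A ^ k).transpose = A ^ k := by
        intro k
        rw [Matrix.transpose_pow, hA]
      induction f using Polynomial.induction_on' with
      | add p q hp hq => rw [map_add, Matrix.transpose_add, hp, hq]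
      | monomial m c =>
        rw [aeval_monomial, Algebra.algebraMap_eq_smul_one, smul_mul_assoc, one_mul, Matrix.transpose_smul, hpow]
    have hdot : ∀ (f : (ZMod 2)[X]) (u v : Fin n → ZMod 2),
        dotProduct ((aeval A f).mulVec u) v = dotProduct u ((aeval A f).mulVec v) := by
      intro f u v
      rw [Matrix.dotProduct_mulVec, ← Matrix.mulVec_transpose, hsym]
    conv_lhs => rw [← hwz']
    rw [hdot, ← hmul, ← hmul, show g ^ 2 * f * g ^ 2 = f * g ^ 4 by ring, hmul, hw4,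
      Matrix.mulVec_zero, dotProduct_zero]

/-- vectors killed by `g^2` and not by `g` have annihilator `g^2` -/
theorem fb_ann {n : ℕ} (g : (ZMod 2)[X]) (hi : Irreducible g)
    (A : Matrix (Fin n) (Fin n) (ZMod 2)) (z : Fin n → ZMod 2)
    (h2 : (aeval A (g ^ 2)).mulVec z = 0) (h1 : (aeval A g).mulVec z ≠ 0) : IsAnn A z (g ^ 2) := by
  classical
  intro h
  constructor
  · intro hz
    by_contra hnd
    have hp : Prime g := hi.prime
    set e := EuclideanDomain.gcd h (g ^ 2) with he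
    have he1 : e ∣ g ^ 2 := EuclideanDomain.gcd_dvd_right _ _
    have he2 : e ∣ h := EuclideanDomain.gcd_dvd_left _ _
    obtain ⟨i, hi2, hass⟩ := (dvd_prime_pow hp 2).1 he1
    have hi1 : i ≤ 1 := by
      by_contra hi3
      have hi4 : i = 2 := by omega
      rw [hi4] at hass
      exact hnd (hass.symm.dvd.trans he2)
    have heg : e ∣ g := by
      refine hass.dvd.trans ?_
      calc g ^ i ∣ g ^ 1 := pow_dvd_pow g hi1
        _ = g := pow_one g
    obtain ⟨c, hc⟩ := heg
    have hgcd := EuclideanDomain.gcd_eq_gcd_ab h (g ^ 2)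
    rw [← he] at hgcd
    have hez : (aeval A e).mulVec z = 0 := by
      rw [hgcd, map_add, Matrix.add_mulVec, mul_comm h, mul_comm (g ^ 2), prm1_act, prm1_act, hz, h2,
        Matrix.mulVec_zero, Matrix.mulVec_zero, add_zero]
    apply h1
    rw [hc, mul_comm, prm1_act, hez, Matrix.mulVec_zero]
  · rintro ⟨c, rfl⟩
    rw [mul_comm, prm1_act, h2, Matrix.mulVec_zero]

/-- the number of isotropic frames on the event -/
theorem fb_count {n : ℕ} (g : (ZMod 2)[X]) (hg : g.Monic) (hi : Irreducible g)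
    (A : Matrix (Fin n) (Fin n) (ZMod 2)) (hA : A.IsSymm) (h1 : kerc g A = (2 : ℝ) ^ g.natDegree)
    (h4 : g ^ 4 ∣ A.charpoly) :
    ((2 : ℝ) ^ g.natDegree) ^ 2 - (2 : ℝ) ^ g.natDegree ≤
      ∑ V : Matrix (Fin n) (Fin (g ^ 2).natDegree) (ZMod 2),
        ind ((FullRank V ∧ V.transpose * V = 0) ∧ A * V = V * H64.IR.comp (g ^ 2)) := by
  classical
  obtain ⟨h2, hiso⟩ := fb_iso g hg hi A hA h1 h4
  have hg2 : (g ^ 2).Monic := hg.pow 2
  have hk : 0 < (g ^ 2).natDegree := by
    rw [hg.natDegree_pow]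
    have := hi.natDegree_pos
    omega
  have hXC : ∑ V : Matrix (Fin n) (Fin (g ^ 2).natDegree) (ZMod 2),
        ind ((FullRank V ∧ V.transpose * V = 0) ∧ A * V = V * H64.IR.comp (g ^ 2)) = XC (H64.IR.comp (g ^ 2)) A := by
    unfold XC
    refine Finset.sum_congr rfl fun V _ => ind_congr ⟨fun h => ⟨h.1.1, h.2⟩, fun h => ⟨⟨h.1, ?_⟩, h.2⟩⟩
    obtain ⟨hV, hz⟩ := (cmp2_comm (g ^ 2) hg2 hk A V).1 h.2
    set z : Fin n → ZMod 2 := fun i => V i ⟨0, hk⟩ with hzdef
    ext a b
    rw [Matrix.mul_apply, Matrix.zero_apply]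
    have hcol : ∀ (i : Fin n) (a : Fin (g ^ 2).natDegree), V i a = ((A ^ (a : ℕ)).mulVec z) i := by
      intro i a
      exact congrFun (congrFun hV i) a
    have hsum : ∑ j, V.transpose a j * V j b =
        dotProduct ((A ^ (a : ℕ)).mulVec z) ((A ^ (b : ℕ)).mulVec z) := by
      unfold dotProduct
      refine Finset.sum_congr rfl fun j _ => ?_
      rw [Matrix.transpose_apply, hcol, hcol]
    rw [hsum]
    have hpow : (A ^ (a : ℕ)).transpose = A ^ (a : ℕ) := by
      rw [Matrix.transpose_pow, hA]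
    have hstep : dotProduct ((A ^ (a : ℕ)).mulVec z) ((A ^ (b : ℕ)).mulVec z) =
        dotProduct z ((A ^ (a : ℕ)).mulVec ((A ^ (b : ℕ)).mulVec z)) := by
      rw [Matrix.dotProduct_mulVec z, ← Matrix.mulVec_transpose, hpow]
    rw [hstep, Matrix.mulVec_mulVec, ← pow_add]
    have h5 := hiso z hz (X ^ ((a : ℕ) + (b : ℕ)))
    rw [map_pow, aeval_X] at h5
    exact h5
  rw [hXC, cmp1 (g ^ 2) hg2 A]
  have hX : kerc (g ^ 2) A - kerc g A ≤ X1 (g ^ 2) A := by
    unfold kerc X1
    rw [← Finset.sum_sub_distrib]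
    refine Finset.sum_le_sum fun z _ => ?_
    by_cases hz2 : (aeval A (g ^ 2)).mulVec z = 0
    · by_cases hz1 : (aeval A g).mulVec z = 0
      · rw [ind_true hz2, ind_true hz1, sub_self]
        exact ind_nonneg _
      · rw [ind_true hz2, ind_false hz1, sub_zero, ind_true (fb_ann g hi A z hz2 hz1)]
    · rw [ind_false hz2]
      have h6 := ind_nonneg ((aeval A g).mulVec z = 0)
      have h7 := ind_nonneg (IsAnn A z (g ^ 2))
      linarith
  rw [h2, h1] at hX
  exact hX

theorem rp_four (n : ℕ) (g : (ZMod 2)[X]) (hg : g.Monic) (hi : Irreducible g) (hk : 2 ≤ g.natDegree) :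
    pr (fun b : Edge n → Bool => kerc g (adj (ZMod 2) b) = (2 : ℝ) ^ g.natDegree ∧
      g ^ 4 ∣ (adj (ZMod 2) b).charpoly) ≤ 4 / ((2 : ℝ) ^ g.natDegree) ^ 2 := by
  classical
  set q : ℝ := (2 : ℝ) ^ g.natDegree with hq
  have hq4 : 4 ≤ q := by
    calc (4 : ℝ) = 2 ^ 2 := by norm_num
      _ ≤ 2 ^ g.natDegree := pow_le_pow_right₀ (by norm_num) hk
  by_cases hn : 4 * g.natDegree ≤ n
  · set r := (g ^ 2).natDegree with hr
    have hr2 : r = 2 * g.natDegree := by rw [hr, hg.natDegree_pow]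
    set D : ℝ := (2 : ℝ) ^ (r * (r + 1) / 2) / ((2 : ℝ) ^ n) ^ r with hD
    have hD0 : 0 < D := by positivity
    let N : (Edge n → Bool) → ℝ := fun b =>
      ∑ V : Matrix (Fin n) (Fin (g ^ 2).natDegree) (ZMod 2),
        ind ((FullRank V ∧ V.transpose * V = 0) ∧ adj (ZMod 2) b * V = V * H64.IR.comp (g ^ 2))
    have havg : avg N ≤ 2 := by
      have h1 : avg N ≤ Iso n r * D := by
        show avg (fun b => ∑ V : Matrix (Fin n) (Fin (g ^ 2).natDegree) (ZMod 2),
          ind ((FullRank V ∧ V.transpose * V = 0) ∧ adj (ZMod 2) b * V = V * H64.IR.comp (g ^ 2))) ≤ _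
        rw [avg_sum]
        unfold Iso
        rw [Finset.sum_mul]
        refine Finset.sum_le_sum fun V _ => ?_
        by_cases hV : FullRank V ∧ V.transpose * V = 0
        · have h2 : avg (fun b : Edge n → Bool =>
              ind ((FullRank V ∧ V.transpose * V = 0) ∧ adj (ZMod 2) b * V = V * H64.IR.comp (g ^ 2))) =
              pr (fun b : Edge n → Bool => adj (ZMod 2) b * V = V * H64.IR.comp (g ^ 2)) := by
            unfold pr
            congr 1
            funext b
            exact ind_congr ⟨fun h => h.2, fun h => ⟨hV, h⟩⟩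
          rw [h2, a2m_pr V (V * H64.IR.comp (g ^ 2)) hV.1, ind_true hV, one_mul, Fintype.card_fin]
          calc ind (IsAlt (V.transpose * (V * H64.IR.comp (g ^ 2)))) * D ≤ 1 * D :=
                mul_le_mul_of_nonneg_right (ind_le_one _) hD0.le
            _ = D := one_mul _
        · have h2 : ∀ b : Edge n → Bool,
              ind ((FullRank V ∧ V.transpose * V = 0) ∧ adj (ZMod 2) b * V = V * H64.IR.comp (g ^ 2)) = 0 :=
            fun b => ind_false fun h => hV h.1
          rw [ind_false hV, zero_mul]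
          unfold avg
          rw [Finset.sum_eq_zero fun b _ => h2 b, zero_div]
      have h3 := iso_upper n r (by omega)
      have h4 : (4 : ℝ) ^ r / (2 : ℝ) ^ n ≤ 1 := by
        rw [div_le_one (by positivity)]
        have h5 : (4 : ℝ) ^ r = 2 ^ (2 * r) := by rw [pow_mul]; norm_num
        rw [h5]
        exact pow_le_pow_right₀ (by norm_num) (by omega)
      have h6 : ((2 : ℝ) ^ n) ^ r / (2 : ℝ) ^ (r * (r + 1) / 2) * D = 1 := by
        rw [hD]
        field_simp
      calc avg N ≤ Iso n r * D := h1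
        _ ≤ ((1 + (4 : ℝ) ^ r / (2 : ℝ) ^ n) * (((2 : ℝ) ^ n) ^ r / (2 : ℝ) ^ (r * (r + 1) / 2))) * D :=
            mul_le_mul_of_nonneg_right h3 hD0.le
        _ = (1 + (4 : ℝ) ^ r / (2 : ℝ) ^ n) := by rw [mul_assoc, h6, mul_one]
        _ ≤ 2 := by linarith
    have hc : 0 < q ^ 2 - q := by nlinarith
    have hmk := pr_markov (fun b : Edge n → Bool => kerc g (adj (ZMod 2) b) = (2 : ℝ) ^ g.natDegree ∧
      g ^ 4 ∣ (adj (ZMod 2) b).charpoly) N (fun b => Finset.sum_nonneg fun V _ => ind_nonneg _)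
      (q ^ 2 - q) hc (fun b hb => fb_count g hg hi (adj (ZMod 2) b) (a2m_adj_alt b).1 hb.1 hb.2)
    refine hmk.trans ?_
    calc avg N / (q ^ 2 - q) ≤ 2 / (q ^ 2 - q) := div_le_div_of_nonneg_right havg hc.le
      _ ≤ 4 / q ^ 2 := by
          rw [div_le_div_iff₀ hc (by positivity)]
          nlinarith
  · have hzero : pr (fun b : Edge n → Bool => kerc g (adj (ZMod 2) b) = (2 : ℝ) ^ g.natDegree ∧
        g ^ 4 ∣ (adj (ZMod 2) b).charpoly) = 0 := by
      unfold pr avg
      rw [Finset.sum_eq_zero, zero_div]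
      intro b _
      refine ind_false fun h => hn ?_
      have h1 := Polynomial.natDegree_le_of_dvd h.2 (Matrix.charpoly_monic _).ne_zero
      rw [Matrix.charpoly_natDegree_eq_dim, Fintype.card_fin, hg.natDegree_pow] at h1
      exact h1
    rw [hzero]
    positivity

end Pool.H86.UD
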