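import Mathlib
import Pool.Agent.H86.UD.Defs

/-! MODULE FmoM (project UD of helper86, MP_a758cf_pr): first moment for squarefree divisors mod 2.
(a) fm_frob: F squarefree, monic, prime to X over ZMod 2. The map f ↦ X f^2 of AdjoinRoot F (finite: F monic) to itself is
additive and injective (F | X f^2 implies F | f^2, so F | f: `UniqueFactorizationMonoid.dvd_pow_iff_dvd_of_squarefree`
or `Squarefree` lemmas), so it is onto. Compare `b2m_field` (L7).
(b) fm_b2m: as `b2m` (L7) with fm_frob in place of `b2m_field`.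
(c) fm_sq: if all g in s (monic, irreducible, degree >= 2) divide the charpoly then so do their squares (`sq2`), these
are pairwise coprime, so the product divides and 2 dg s <= n.
(d) fm: s empty: both sides trivial (n arbitrary; avg of 1 is 1). If 2 dg s > n the left side is 0 by (c) (BB = ind of
divisibility). Otherwise F = prod of s is squarefree, monic, prime to X (all factors have degree >= 2), r = dg s =
natDegree F >= 2. BB g <= (kerc g - 1) beta g (`bb_le_zz`, `ZZ`), so prod BB <= X1 F * bt s (`x1_prod`),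
X1 F = XC (comp F) (`cmp1`), avg XC (comp F) = (sum_V ind(FullRank V and IsAlt(VᵀVC))) c (`a2m`) = Iso n r * c (fm_b2m:
see the computation e1 in `b5_lower`) <= 1 + 4^r/2^n <= 2 (`iso_upper`).
(e) fm_pr: from fm (the product of the indicators BB is the indicator of the conjunction). -/

set_option autoImplicit false

namespace Pool.H86.UD

open Finset Polynomial Pool.H64.IR

theorem fm_frob (F : (ZMod 2)[X]) (hF : F.Monic) (hs : Squarefree F) (hX : ¬ X ∣ F) (h : (ZMod 2)[X]) :
    ∃ f : (ZMod 2)[X], F ∣ X * (f * f) - h := by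
  have : Module.Finite (ZMod 2) (AdjoinRoot F) := hF.finite_adjoinRoot
  have : Finite (AdjoinRoot F) := Module.finite_of_finite (ZMod 2)
  have hcop : IsCoprime F X := ((Polynomial.irreducible_X.coprime_iff_not_dvd).2 hX).symm
  have h2 : (2 : (ZMod 2)[X]) = 0 := CharTwo.two_eq_zero
  have hinj : Function.Injective (fun z : AdjoinRoot F => AdjoinRoot.mk F X * (z * z)) := by
    intro z w hzw
    obtain ⟨f, rfl⟩ := AdjoinRoot.mk_surjective z
    obtain ⟨g, rfl⟩ := AdjoinRoot.mk_surjective w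
    simp only at hzw
    rw [← map_mul, ← map_mul, ← map_mul, ← map_mul, AdjoinRoot.mk_eq_mk] at hzw
    rw [AdjoinRoot.mk_eq_mk]
    have e1 : X * (f * f) - X * (g * g) = X * (f - g) ^ 2 := by
      linear_combination (X * f * g - X * g * g) * h2
    rw [e1] at hzw
    have h3 : F ∣ (f - g) ^ 2 := hcop.dvd_of_dvd_mul_left hzw
    exact (hs.dvd_pow_iff_dvd (by norm_num)).1 h3
  obtain ⟨z, hz⟩ := (Finite.injective_iff_surjective.1 hinj) (AdjoinRoot.mk F h)
  obtain ⟨f, rfl⟩ := AdjoinRoot.mk_surjective z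
  refine ⟨f, ?_⟩
  simp only at hz
  rw [← map_mul, ← map_mul, AdjoinRoot.mk_eq_mk] at hz
  exact hz

theorem fm_b2m (F : (ZMod 2)[X]) (hF : F.Monic) (hs : Squarefree F) (hX : ¬ X ∣ F) (hk : 2 ≤ F.natDegree)
    (S : Matrix (Fin F.natDegree) (Fin F.natDegree) (ZMod 2)) (hS : S.IsSymm) (h : IsAlt (S * Pool.H64.IR.comp F)) : S = 0 := by
  have hadj : S * Pool.H64.IR.comp F = (Pool.H64.IR.comp F).transpose * S := by
    have h1 := h.1
    unfold Matrix.IsSymm at h1
    rw [Matrix.transpose_mul, hS] at h1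
    exact h1.symm
  -- the linear form vanishes
  have hl : ∀ f : (ZMod 2)[X],
      dotProduct (Pi.single ⟨0, by omega⟩ 1) (S.mulVec (b2m_v F hk f)) = 0 := by
    intro f
    obtain ⟨q, hq⟩ := fm_frob F hF hs hX f
    rw [← b2m_v_dvd F hk hF _ _ hq]
    have h2 := b2m_quad (S * Pool.H64.IR.comp F) h (b2m_v F hk q)
    rw [← Matrix.mulVec_mulVec] at h2
    have h3 : (Pool.H64.IR.comp F).mulVec (b2m_v F hk q) = b2m_v F hk (X * q) := by
      rw [b2m_v_mul, aeval_X]
    rw [h3, b2m_form F hk S hadj] at h2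
    have h4 : q * (X * q) = X * (q * q) := by ring
    rwa [h4] at h2
  ext a b
  obtain ⟨f, hf⟩ := b2m_surj F hk (Pi.single a 1)
  obtain ⟨f', hf'⟩ := b2m_surj F hk (Pi.single b 1)
  have h5 := b2m_form F hk S hadj f f'
  rw [hl, hf, hf', Matrix.mulVec_single_one, single_one_dotProduct] at h5
  exact h5

theorem fm_coprime (f g : (ZMod 2)[X]) (hf : f.Monic ∧ Irreducible f) (hg : g.Monic ∧ Irreducible g)
    (hne : f ≠ g) : IsCoprime f g := by
  rw [hf.2.coprime_iff_not_dvd]
  intro hd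
  exact hne (eq_of_monic_of_associated hf.1 hg.1 (hf.2.associated_of_dvd hg.2 hd))

theorem fm_sq {n : ℕ} (s : Finset (ZMod 2)[X]) (hs : ∀ g ∈ s, g.Monic ∧ Irreducible g ∧ 2 ≤ g.natDegree)
    (b : Edge n → Bool) (h : ∀ g ∈ s, g ∣ (adj (ZMod 2) b).charpoly) :
    (∏ g ∈ s, g ^ 2) ∣ (adj (ZMod 2) b).charpoly ∧ 2 * dg s ≤ n := by
  have hd : (∏ g ∈ s, g ^ 2) ∣ (adj (ZMod 2) b).charpoly := by
    refine Finset.prod_dvd_of_coprime ?_ fun g hg => sq2 b g (hs g hg).2.1 (hs g hg).2.2 (h g hg)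
    intro f hf g hg hne
    exact (fm_coprime f g ⟨(hs f hf).1, (hs f hf).2.1⟩ ⟨(hs g hg).1, (hs g hg).2.1⟩ hne).pow
  refine ⟨hd, ?_⟩
  have h1 := natDegree_le_of_dvd hd (Matrix.charpoly_monic _).ne_zero
  rw [Matrix.charpoly_natDegree_eq_dim, Fintype.card_fin,
    natDegree_prod_of_monic _ _ fun g hg => (hs g hg).1.pow 2] at h1
  have h2 : ∑ g ∈ s, (g ^ 2).natDegree = 2 * dg s := by
    unfold dg
    rw [Finset.mul_sum]
    refine Finset.sum_congr rfl fun g _ => ?_
    rw [natDegree_pow]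
  rw [h2] at h1
  exact h1

theorem fm (n : ℕ) (s : Finset (ZMod 2)[X]) (hs : ∀ g ∈ s, g.Monic ∧ Irreducible g ∧ 2 ≤ g.natDegree) :
    avg (fun b : Edge n → Bool => ∏ g ∈ s, BB g (adj (ZMod 2) b)) ≤ 2 * bt s := by
  classical
  have hbt : 0 ≤ bt s := bt_nonneg s
  rcases s.eq_empty_or_nonempty with hse | hse
  · subst hse
    have h1 : (fun b : Edge n → Bool => ∏ g ∈ (∅ : Finset (ZMod 2)[X]), BB g (adj (ZMod 2) b)) =
        fun _ => (1 : ℝ) := by
      funext b
      rw [Finset.prod_empty]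
    rw [h1, avg_const]
    unfold bt
    rw [Finset.prod_empty]
    norm_num
  rcases Nat.lt_or_ge n (2 * dg s) with hlt | hge
  · have h1 : (fun b : Edge n → Bool => ∏ g ∈ s, BB g (adj (ZMod 2) b)) = fun _ => (0 : ℝ) := by
      funext b
      by_contra hne
      have h2 : ∀ g ∈ s, g ∣ (adj (ZMod 2) b).charpoly := by
        intro g hg
        by_contra hnd
        exact hne (Finset.prod_eq_zero hg (ind_false hnd))
      have h3 := (fm_sq s hs b h2).2
      omega
    rw [h1, avg_const]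
    positivity
  · have hs' : ∀ g ∈ s, g.Monic ∧ Irreducible g := fun g hg => ⟨(hs g hg).1, (hs g hg).2.1⟩
    obtain ⟨F, hFdef⟩ : ∃ F : (ZMod 2)[X], F = ∏ g ∈ s, g := ⟨_, rfl⟩
    have hFm : F.Monic := by
      rw [hFdef]
      exact monic_prod_of_monic _ _ fun g hg => (hs g hg).1
    have hFs : Squarefree F := by
      rw [hFdef]
      refine Finset.squarefree_prod_of_pairwise_isCoprime ?_ fun g hg => (hs g hg).2.1.squarefree
      intro f hf g hg hne
      exact (fm_coprime f g (hs' f hf) (hs' g hg) hne).isRelPrime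
    have hFX : ¬ X ∣ F := by
      rw [hFdef]
      intro hd
      obtain ⟨g, hg, hXg⟩ := (Polynomial.prime_X.dvd_finsetProd_iff _).1 hd
      have h1 : Associated X g := Polynomial.irreducible_X.associated_of_dvd (hs g hg).2.1 hXg
      have h2 := eq_of_monic_of_associated monic_X (hs g hg).1 h1
      have h3 := (hs g hg).2.2
      rw [← h2, natDegree_X] at h3
      omega
    have hFd : F.natDegree = dg s := by
      rw [hFdef, natDegree_prod_of_monic _ _ fun g hg => (hs g hg).1]
      rfl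
    have hF2 : 2 ≤ F.natDegree := by
      obtain ⟨g, hg⟩ := hse
      rw [hFd]
      exact (hs g hg).2.2.trans (Finset.single_le_sum (f := fun g => g.natDegree)
        (fun _ _ => Nat.zero_le _) hg)
    have h2k : 2 * F.natDegree ≤ n := by rw [hFd]; exact hge
    have hpt : ∀ b : Edge n → Bool, ∏ g ∈ s, BB g (adj (ZMod 2) b) ≤
        XC (Pool.H64.IR.comp F) (adj (ZMod 2) b) * bt s := by
      intro b
      rw [cmp1 F hFm, hFdef, x1_prod s hs']
      unfold bt
      rw [← Finset.prod_mul_distrib]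
      refine Finset.prod_le_prod (fun g _ => ind_nonneg _) fun g hg => ?_
      refine (bb_le_zz g (hs g hg).1 (hs g hg).2.1 _).trans (le_of_eq ?_)
      unfold ZZ beta
      rw [div_eq_mul_one_div]
    refine (avg_mono hpt).trans ?_
    rw [avg_mul_const]
    refine mul_le_mul_of_nonneg_right ?_ hbt
    rw [a2m]
    have e1 : (∑ V : Matrix (Fin n) (Fin F.natDegree) (ZMod 2),
        ind (FullRank V ∧ IsAlt (V.transpose * V * Pool.H64.IR.comp F))) = Iso n F.natDegree := by
      unfold Iso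
      refine Finset.sum_congr rfl (fun V _ => ind_congr ?_)
      constructor
      · rintro ⟨h, h'⟩
        refine ⟨h, fm_b2m F hFm hFs hFX hF2 _ ?_ h'⟩
        rw [Matrix.IsSymm, Matrix.transpose_mul, Matrix.transpose_transpose]
      · rintro ⟨h, h'⟩
        refine ⟨h, ?_⟩
        rw [h', zero_mul]
        exact ⟨Matrix.transpose_zero, fun a => rfl⟩
    rw [e1, Fintype.card_fin]
    have e2 := iso_upper n F.natDegree h2k
    have e3 : (4 : ℝ) ^ F.natDegree / (2 : ℝ) ^ n ≤ 1 := by
      rw [div_le_one (by positivity)]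
      calc (4 : ℝ) ^ F.natDegree = 2 ^ (2 * F.natDegree) := by
            rw [pow_mul]; norm_num
        _ ≤ 2 ^ n := pow_le_pow_right₀ (by norm_num) h2k
    calc Iso n F.natDegree *
          ((2 : ℝ) ^ (F.natDegree * (F.natDegree + 1) / 2) / ((2 : ℝ) ^ n) ^ F.natDegree) ≤
          ((1 + (4 : ℝ) ^ F.natDegree / (2 : ℝ) ^ n) *
            (((2 : ℝ) ^ n) ^ F.natDegree / (2 : ℝ) ^ (F.natDegree * (F.natDegree + 1) / 2))) *
          ((2 : ℝ) ^ (F.natDegree * (F.natDegree + 1) / 2) / ((2 : ℝ) ^ n) ^ F.natDegree) :=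
          mul_le_mul_of_nonneg_right e2 (by positivity)
      _ = 1 + (4 : ℝ) ^ F.natDegree / (2 : ℝ) ^ n := by
          field_simp
      _ ≤ 2 := by linarith

theorem fm_pr (n : ℕ) (s : Finset (ZMod 2)[X]) (hs : ∀ g ∈ s, g.Monic ∧ Irreducible g ∧ 2 ≤ g.natDegree) :
    pr (fun b : Edge n → Bool => ∀ g ∈ s, g ∣ (adj (ZMod 2) b).charpoly) ≤ 2 * bt s := by
  refine le_trans (le_of_eq ?_) (fm n s hs)
  unfold pr
  congr 1
  funext b
  by_cases h : ∀ g ∈ s, g ∣ (adj (ZMod 2) b).charpoly
  · rw [ind_true h]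
    exact (Finset.prod_eq_one fun g hg => ind_true (h g hg)).symm
  · rw [ind_false h]
    push Not at h
    obtain ⟨g, hg, hnd⟩ := h
    exact (Finset.prod_eq_zero hg (ind_false hnd)).symm

end Pool.H86.UD
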