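import Mathlib
import Pool.Agent.H86.UD.FmoM

/-! MODULE MgfS (project UD of helper86, MP_a758cf_pr). Uses FmoM.fm, FmoM.fm_pr (cite them; they may still be open).
(a) mgf: the sum is prod_{g in RR 2 D n} (1 + t beta g) (`Finset.prod_one_add` or `Finset.prod_add`) <= exp(t sum beta g)
and sum beta g <= sum_{m in Ioc D n} (1 + 1/2^D)/m (`sum_rr`, `beta_sum`) <= (1 + 1/2^D)(1 + log n) (harmonic sum,
`harmonic_le_one_add_log`).
(b) rf_card: (1+t)^|RF| = prod_{g in RR 2 D n} (1 + t BB g) = sum_{s} t^|s| prod_{g in s} BB g; average with fm (all g in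
RR 2 D n have degree > D >= 1); on the event (1+t)^|RF| >= (1+t)^M; `pr_markov`.
(c) large: the event implies g | charpoly with g monic irreducible, (1-d) n < 2 deg g <= n (fm_sq / sq2 and degrees), so
pr <= sum over m in Ioc a (n/2), a = floor((1-d)n/2), of 2 sum_{Irr 2 m} beta g <= (number of m <= d n/2 + 1 <= d n) times
2 (1 + 1/2)/m <= 3/m <= 12/n (m > n/4 as d <= 1/2; use `beta_sum 1 m` for m >= 2); total <= 12 d. -/

set_option autoImplicit false

namespace Pool.H86.UD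

open Finset Polynomial Pool.H64.IR


theorem mgf_beta_sum (D n : ℕ) (hn : 1 ≤ n) :
    ∑ g ∈ RR 2 D n, beta g ≤ (1 + 1 / 2 ^ D) * (1 + Real.log n) := by
  rw [sum_rr]
  have h1 : ∑ m ∈ Finset.Ioc D n, ∑ g ∈ Irr 2 m, beta g ≤ ∑ m ∈ Finset.Ioc D n, (1 + 1 / 2 ^ D) * ((m : ℝ))⁻¹ := by
    refine Finset.sum_le_sum fun m hm => ?_
    have := beta_sum D m (Finset.mem_Ioc.1 hm).1
    rwa [div_eq_mul_inv] at this
  refine h1.trans ?_
  rw [← Finset.mul_sum]
  refine mul_le_mul_of_nonneg_left ?_ (by positivity)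
  have h2 := harmonic_le_one_add_log n
  rw [harmonic_eq_sum_Icc] at h2
  push_cast at h2
  refine le_trans ?_ h2
  refine Finset.sum_le_sum_of_subset_of_nonneg ?_ (fun m _ _ => by positivity)
  intro m hm
  rw [Finset.mem_Ioc] at hm
  rw [Finset.mem_Icc]
  omega

theorem mgf (D n : ℕ) (hn : 1 ≤ n) (t : ℝ) (ht : 0 ≤ t) :
    ∑ s ∈ (RR 2 D n).powerset, t ^ s.card * bt s ≤ Real.exp (t * (1 + 1 / 2 ^ D) * (1 + Real.log n)) := by
  classical
  have h1 : ∑ s ∈ (RR 2 D n).powerset, t ^ s.card * bt s = ∏ g ∈ RR 2 D n, (1 + t * beta g) := by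
    rw [Finset.prod_one_add]
    refine Finset.sum_congr rfl fun s _ => ?_
    rw [Finset.prod_mul_distrib, Finset.prod_const]
    rfl
  rw [h1]
  have h2 : ∏ g ∈ RR 2 D n, (1 + t * beta g) ≤ ∏ g ∈ RR 2 D n, Real.exp (t * beta g) := by
    refine Finset.prod_le_prod (fun g _ => ?_) (fun g _ => ?_)
    · have := mul_nonneg ht (beta_nonneg g)
      linarith
    · have := Real.add_one_le_exp (t * beta g)
      linarith
  refine h2.trans ?_
  rw [← Real.exp_sum, Real.exp_le_exp, ← Finset.mul_sum, mul_assoc]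
  exact mul_le_mul_of_nonneg_left (mgf_beta_sum D n hn) ht

theorem rf_card (D n M : ℕ) (hD : 1 ≤ D) (hn : 1 ≤ n) (t : ℝ) (ht : 0 ≤ t) :
    pr (fun b : Edge n → Bool => M < (RF D n b).card) ≤
      2 * Real.exp (t * (1 + 1 / 2 ^ D) * (1 + Real.log n)) / (1 + t) ^ M := by
  classical
  have h0 : ∀ b : Edge n → Bool, (1 + t) ^ (RF D n b).card =
      ∑ s ∈ (RR 2 D n).powerset, t ^ s.card * ∏ g ∈ s, BB g (adj (ZMod 2) b) := by
    intro b
    have h1 : (1 + t) ^ (RF D n b).card = ∏ g ∈ RR 2 D n, (1 + t * BB g (adj (ZMod 2) b)) := by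
      unfold RF
      rw [← Finset.prod_const, Finset.prod_filter]
      refine Finset.prod_congr rfl fun g _ => ?_
      by_cases h : g ∣ (adj (ZMod 2) b).charpoly
      · rw [if_pos h]
        unfold BB
        rw [ind_true h, mul_one]
      · rw [if_neg h]
        unfold BB
        rw [ind_false h, mul_zero, add_zero]
    rw [h1, Finset.prod_one_add]
    refine Finset.sum_congr rfl fun s _ => ?_
    rw [Finset.prod_mul_distrib, Finset.prod_const]
  have h1t : (1 : ℝ) ≤ 1 + t := by linarith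
  have h2 : pr (fun b : Edge n → Bool => M < (RF D n b).card) ≤
      avg (fun b : Edge n → Bool => (1 + t) ^ (RF D n b).card) / (1 + t) ^ M := by
    refine pr_markov _ _ (fun b => by positivity) _ (by positivity) (fun b hb => ?_)
    exact pow_le_pow_right₀ h1t hb.le
  refine h2.trans (div_le_div_of_nonneg_right ?_ (by positivity))
  have h3 : (fun b : Edge n → Bool => (1 + t) ^ (RF D n b).card) =
      fun b => ∑ s ∈ (RR 2 D n).powerset, t ^ s.card * ∏ g ∈ s, BB g (adj (ZMod 2) b) := funext h0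
  rw [h3, avg_sum (RR 2 D n).powerset
    (fun s (b : Edge n → Bool) => t ^ s.card * ∏ g ∈ s, BB g (adj (ZMod 2) b))]
  have h4 : ∑ s ∈ (RR 2 D n).powerset,
      avg (fun b : Edge n → Bool => t ^ s.card * ∏ g ∈ s, BB g (adj (ZMod 2) b)) ≤
      ∑ s ∈ (RR 2 D n).powerset, 2 * (t ^ s.card * bt s) := by
    refine Finset.sum_le_sum fun s hs => ?_
    rw [avg_const_mul]
    have h5 := fm n s (fun g hg => by
      have h6 := (mem_rr g).1 ((Finset.mem_powerset.1 hs) hg)
      exact ⟨h6.1, h6.2.1, by omega⟩)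
    have h7 : (0 : ℝ) ≤ t ^ s.card := by positivity
    calc t ^ s.card * avg (fun b : Edge n → Bool => ∏ g ∈ s, BB g (adj (ZMod 2) b))
        ≤ t ^ s.card * (2 * bt s) := mul_le_mul_of_nonneg_left h5 h7
      _ = 2 * (t ^ s.card * bt s) := by ring
  refine h4.trans ?_
  rw [← Finset.mul_sum]
  exact mul_le_mul_of_nonneg_left (mgf D n hn t ht) (by norm_num)

theorem large (d : ℝ) (hd : 0 < d) (hd1 : d ≤ 1 / 2) (n : ℕ) (hn : 2 / d ≤ n) (hn8 : 8 ≤ n) :
    pr (fun b : Edge n → Bool => ∃ g : (ZMod 2)[X], g.Monic ∧ Irreducible g ∧ 2 ≤ g.natDegree ∧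
      (1 - d) * n < 2 * g.natDegree ∧ g ∣ (adj (ZMod 2) b).charpoly) ≤ 16 * d := by
  classical
  have hnr : (8 : ℝ) ≤ n := by exact_mod_cast hn8
  have hdn : 2 ≤ d * n := by
    rw [div_le_iff₀ hd] at hn
    linarith
  obtain ⟨a, ha⟩ : ∃ a, a = ⌊(1 - d) * n / 2⌋₊ := ⟨_, rfl⟩
  have hpos : 0 ≤ (1 - d) * n / 2 := by
    have : 0 ≤ 1 - d := by linarith
    positivity
  have ha1 : (a : ℝ) ≤ (1 - d) * n / 2 := by rw [ha]; exact Nat.floor_le hpos
  have ha2 : (1 - d) * n / 2 < (a : ℝ) + 1 := by rw [ha]; exact Nat.lt_floor_add_one _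
  have hquart : (n : ℝ) / 4 ≤ (1 - d) * n / 2 := by nlinarith
  have ha3 : 2 ≤ a := by
    rw [ha]
    apply Nat.le_floor
    push_cast
    linarith
  have h1 : pr (fun b : Edge n → Bool => ∃ g : (ZMod 2)[X], g.Monic ∧ Irreducible g ∧ 2 ≤ g.natDegree ∧
      (1 - d) * n < 2 * g.natDegree ∧ g ∣ (adj (ZMod 2) b).charpoly) ≤
      pr (fun b : Edge n → Bool => ∃ g ∈ RR 2 a (n / 2), g ∣ (adj (ZMod 2) b).charpoly) := by
    refine pr_mono fun b hb => ?_
    obtain ⟨g, hg1, hg2, hg3, hg4, hg5⟩ := hb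
    refine ⟨g, ?_, hg5⟩
    have h2 := (fm_sq {g} (fun g' hg' => by
      rw [Finset.mem_singleton] at hg'
      subst hg'
      exact ⟨hg1, hg2, hg3⟩) b (fun g' hg' => by
      rw [Finset.mem_singleton] at hg'
      subst hg'
      exact hg5)).2
    unfold dg at h2
    rw [Finset.sum_singleton] at h2
    rw [mem_rr]
    refine ⟨hg1, hg2, ?_, by omega⟩
    have h3 : (a : ℝ) < g.natDegree := by linarith
    exact_mod_cast h3
  refine h1.trans ((pr_exists_le (RR 2 a (n / 2)) _).trans ?_)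
  have h2 : ∑ g ∈ RR 2 a (n / 2), pr (fun b : Edge n → Bool => g ∣ (adj (ZMod 2) b).charpoly) ≤
      ∑ g ∈ RR 2 a (n / 2), 2 * beta g := by
    refine Finset.sum_le_sum fun g hg => ?_
    have h3 := (mem_rr g).1 hg
    have h4 := fm_pr n {g} (fun g' hg' => by
      rw [Finset.mem_singleton] at hg'
      subst hg'
      exact ⟨h3.1, h3.2.1, by omega⟩)
    unfold bt at h4
    rw [Finset.prod_singleton] at h4
    refine le_trans (pr_mono fun b hb g' hg' => ?_) h4
    rw [Finset.mem_singleton] at hg'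
    subst hg'
    exact hb
  refine h2.trans ?_
  rw [← Finset.mul_sum, sum_rr, Finset.mul_sum]
  have h5 : ∀ m ∈ Finset.Ioc a (n / 2), 2 * ∑ g ∈ Irr 2 m, beta g ≤ 12 / n := by
    intro m hm
    rw [Finset.mem_Ioc] at hm
    have h6 := beta_sum 1 m (by omega)
    have h7 : (a : ℝ) + 1 ≤ m := by exact_mod_cast hm.1
    have hm4 : (n : ℝ) / 4 < m := by linarith
    have hm0 : (0 : ℝ) < m := by linarith
    have hn0 : (0 : ℝ) < n := by linarith
    have h8 : (1 + 1 / 2 ^ 1 : ℝ) / m ≤ 6 / n := by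
      rw [div_le_div_iff₀ hm0 hn0]
      nlinarith
    have h9 : (12 : ℝ) / n = 2 * (6 / n) := by ring
    rw [h9]
    linarith
  refine (Finset.sum_le_card_nsmul _ _ _ h5).trans ?_
  rw [Nat.card_Ioc, nsmul_eq_mul]
  have hn0 : (0 : ℝ) < n := by linarith
  have h10 : ((n / 2 - a : ℕ) : ℝ) ≤ d * n := by
    have h11 : ((n / 2 - a : ℕ) : ℝ) ≤ (n : ℝ) / 2 - ((1 - d) * n / 2 - 1) := by
      rcases le_total a (n / 2) with h | h
      · rw [Nat.cast_sub h]
        have h12 : ((n / 2 : ℕ) : ℝ) ≤ (n : ℝ) / 2 := Nat.cast_div_le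
        linarith
      · rw [Nat.sub_eq_zero_of_le h, Nat.cast_zero]
        nlinarith
    linarith
  calc ((n / 2 - a : ℕ) : ℝ) * (12 / n) ≤ (d * n) * (12 / n) :=
        mul_le_mul_of_nonneg_right h10 (by positivity)
    _ = 12 * d := by field_simp
    _ ≤ 16 * d := by linarith

end Pool.H86.UD
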