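import Mathlib
import Pool.Agent.H86.UD.Defs

/-! MODULE TwoB (project UD of helper86, MP_a758cf_pr): two blocks. -/

set_option autoImplicit false

namespace Pool.H86.UD

open Finset Polynomial Pool.H64.IR

theorem tw_iso (n k : ℕ) : (∑ V : Matrix (Fin n) (Fin k ⊕ Fin k) (ZMod 2), ind (FullRank V ∧ V.transpose * V = 0)) =
    Iso n (2 * k) := by
  set e : Fin k ⊕ Fin k ≃ Fin (2 * k) := finSumFinEquiv.trans (finCongr (two_mul k).symm) with he
  unfold Iso
  refine Fintype.sum_equiv (Matrix.reindex (Equiv.refl (Fin n)) e) _ _ fun V => ind_congr ?_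
  refine and_congr ?_ ?_
  · unfold FullRank
    exact (linearIndependent_equiv e.symm).symm
  · constructor
    · intro h
      ext i j
      exact congrFun (congrFun h (e.symm i)) (e.symm j)
    · intro h
      ext a b
      have h1 := congrFun (congrFun h (e a)) (e b)
      have h2 : ((Matrix.reindex (Equiv.refl (Fin n)) e V).transpose *
          (Matrix.reindex (Equiv.refl (Fin n)) e V)) (e a) (e b) =
          (V.transpose * V) (e.symm (e a)) (e.symm (e b)) := rfl
      rw [h2, Equiv.symm_apply_apply, Equiv.symm_apply_apply] at h1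
      exact h1

private theorem TwoB_avg2 {n : ℕ} (g : (ZMod 2)[X]) (hg : g.Monic) (hi : Irreducible g)
    (hk : 2 ≤ g.natDegree) (hn : 4 * g.natDegree ≤ n) :
    avg (fun b : Edge n → Bool => XC (Matrix.fromBlocks (comp g) 0 0 (comp g)) (adj (ZMod 2) b)) ≤
      2 + (2 : ℝ) ^ g.natDegree := by
  classical
  rw [a2m]
  set C2 : Matrix (Fin g.natDegree ⊕ Fin g.natDegree) (Fin g.natDegree ⊕ Fin g.natDegree) (ZMod 2) :=
    Matrix.fromBlocks (comp g) 0 0 (comp g) with hC2
  set m := Fintype.card (Fin g.natDegree ⊕ Fin g.natDegree) with hm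
  have hm2 : m = 2 * g.natDegree := b5_card _
  set B : ℝ := ((2 : ℝ) ^ n) ^ m / (2 : ℝ) ^ (m * (m + 1) / 2) with hB
  have hB0 : 0 ≤ B := by positivity
  have hiso : Iso n (2 * g.natDegree) ≤ 2 * B := by
    have h := iso_upper n (2 * g.natDegree) (by omega)
    have h1 : (4 : ℝ) ^ (2 * g.natDegree) / (2 : ℝ) ^ n ≤ 1 := by
      rw [div_le_one (by positivity)]
      calc (4 : ℝ) ^ (2 * g.natDegree) = 2 ^ (4 * g.natDegree) := by
            rw [show (4 : ℝ) = 2 ^ 2 by norm_num, ← pow_mul]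
            congr 1
            ring
        _ ≤ 2 ^ n := pow_le_pow_right₀ (by norm_num) hn
    refine h.trans ?_
    rw [← hm2, ← hB]
    apply mul_le_mul_of_nonneg_right _ hB0
    rw [← hm2] at h1
    linarith
  -- group by S
  have h1 : ∀ V : Matrix (Fin n) (Fin g.natDegree ⊕ Fin g.natDegree) (ZMod 2),
      ind (FullRank V ∧ IsAlt (V.transpose * V * C2)) ≤
        ∑ S : Matrix (Fin g.natDegree ⊕ Fin g.natDegree) (Fin g.natDegree ⊕ Fin g.natDegree) (ZMod 2),
          ind (S.IsSymm ∧ IsAlt (S * C2)) * ind (FullRank V ∧ V.transpose * V = S) := by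
    intro V
    by_cases h : FullRank V ∧ IsAlt (V.transpose * V * C2)
    · rw [ind_true h]
      have h2 : ind ((V.transpose * V).IsSymm ∧ IsAlt (V.transpose * V * C2)) *
          ind (FullRank V ∧ V.transpose * V = V.transpose * V) = 1 := by
        have hs : (V.transpose * V).IsSymm := by
          rw [Matrix.IsSymm, Matrix.transpose_mul, Matrix.transpose_transpose]
        rw [ind_true ⟨hs, h.2⟩, ind_true ⟨h.1, rfl⟩, one_mul]
      rw [← h2]
      exact Finset.single_le_sum (f := fun S => ind (S.IsSymm ∧ IsAlt (S * C2)) *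
        ind (FullRank V ∧ V.transpose * V = S)) (fun S _ => mul_nonneg (ind_nonneg _) (ind_nonneg _))
        (Finset.mem_univ (V.transpose * V))
    · rw [ind_false h]
      exact Finset.sum_nonneg (fun S _ => mul_nonneg (ind_nonneg _) (ind_nonneg _))
  have h2 : ∀ S : Matrix (Fin g.natDegree ⊕ Fin g.natDegree) (Fin g.natDegree ⊕ Fin g.natDegree) (ZMod 2),
      ∑ V : Matrix (Fin n) (Fin g.natDegree ⊕ Fin g.natDegree) (ZMod 2),
        ind (S.IsSymm ∧ IsAlt (S * C2)) * ind (FullRank V ∧ V.transpose * V = S) ≤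
      ind (S.IsSymm ∧ IsAlt (S * C2)) * B + (if S = 0 then 2 * B else 0) := by
    intro S
    rw [← Finset.mul_sum]
    have hif : (0 : ℝ) ≤ (if S = 0 then 2 * B else 0) := by
      split_ifs
      · linarith
      · exact le_rfl
    by_cases h : S.IsSymm ∧ IsAlt (S * C2)
    · rw [ind_true h, one_mul, one_mul]
      obtain ⟨ha, h0 | hd⟩ := b2m_two g hg hi hk S h.1 h.2
      · rw [if_pos h0, h0, tw_iso]
        linarith
      · have h3 := b3_nd (n := n) S h.1 ha.2 hd
        linarith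
    · rw [ind_false h, zero_mul, zero_mul, zero_add]
      exact hif
  have h3 : (∑ V : Matrix (Fin n) (Fin g.natDegree ⊕ Fin g.natDegree) (ZMod 2),
      ind (FullRank V ∧ IsAlt (V.transpose * V * C2))) ≤ (2 + (2 : ℝ) ^ g.natDegree) * B := by
    refine (Finset.sum_le_sum (fun V _ => h1 V)).trans ?_
    rw [Finset.sum_comm]
    refine (Finset.sum_le_sum (fun S _ => h2 S)).trans ?_
    rw [Finset.sum_add_distrib, ← Finset.sum_mul, Finset.sum_ite_eq' Finset.univ
      (0 : Matrix (Fin g.natDegree ⊕ Fin g.natDegree) (Fin g.natDegree ⊕ Fin g.natDegree) (ZMod 2)),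
      if_pos (Finset.mem_univ _)]
    have h4 := mul_le_mul_of_nonneg_right (b2m_count g hg hi hk) hB0
    rw [← hC2] at h4
    linarith
  have h4 : B * ((2 : ℝ) ^ (m * (m + 1) / 2) / ((2 : ℝ) ^ n) ^ m) = 1 := by
    rw [hB]
    field_simp
  calc _ ≤ ((2 + (2 : ℝ) ^ g.natDegree) * B) * ((2 : ℝ) ^ (m * (m + 1) / 2) / ((2 : ℝ) ^ n) ^ m) :=
        mul_le_mul_of_nonneg_right h3 (by positivity)
    _ = 2 + (2 : ℝ) ^ g.natDegree := by rw [mul_assoc, h4, mul_one]

theorem rp_two (n : ℕ) (g : (ZMod 2)[X]) (hg : g.Monic) (hi : Irreducible g) (hk : 2 ≤ g.natDegree) :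
    pr (fun b : Edge n → Bool => ((2 : ℝ) ^ g.natDegree) ^ 2 ≤ kerc g (adj (ZMod 2) b)) ≤
      4 / ((2 : ℝ) ^ g.natDegree) ^ 3 := by
  rcases Nat.lt_or_ge n (4 * g.natDegree) with hn | hn
  · refine (b5_pr2 g hg hi hk hn).trans ?_
    apply div_le_div_of_nonneg_right (by norm_num) (by positivity)
  set q : ℝ := (2 : ℝ) ^ g.natDegree with hq
  have hq4 : 4 ≤ q := by
    calc (4 : ℝ) = 2 ^ 2 := by norm_num
      _ ≤ q := pow_le_pow_right₀ (by norm_num) hk
  have hc : 0 < (q ^ 2 - 1) * (q ^ 2 - q) := by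
    apply mul_pos <;> nlinarith
  refine (pr_markov _ (fun b : Edge n → Bool =>
    XC (Matrix.fromBlocks (comp g) 0 0 (comp g)) (adj (ZMod 2) b)) (fun b => b5_xc_nonneg _ _) _ hc ?_).trans ?_
  · intro b hb
    rw [b5_xc g hg hi]
    rw [← hq]
    have h1 : 0 ≤ q ^ 2 - 1 := by nlinarith
    have h2 : 0 ≤ q ^ 2 - q := by nlinarith
    apply mul_le_mul <;> linarith
  · have h1 := TwoB_avg2 g hg hi hk hn
    rw [← hq] at h1
    rw [div_le_div_iff₀ hc (by positivity)]
    calc _ ≤ (2 + q) * q ^ 3 := mul_le_mul_of_nonneg_right h1 (by positivity)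
      _ ≤ 4 * ((q ^ 2 - 1) * (q ^ 2 - q)) := by
        have h2 : 0 ≤ q ^ 3 * (q - 4) := by
          apply mul_nonneg (by positivity); linarith
        have h3 : 0 ≤ q ^ 2 * (q - 4) := by
          apply mul_nonneg (by positivity); linarith
        nlinarith

end Pool.H86.UD
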