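import Mathlib
import Pool.Agent.H86.UD.TwoB
import Pool.Agent.H86.UD.FouB
import Pool.Agent.H86.UD.BadQ
import Pool.Agent.H86.UD.MgfS

/-! MODULE BadS (project UD of helper86, MP_a758cf_pr). Uses TwoB.rp_two, FouB.rp_four, BadQ.bq, MgfS.large (cite them;
they may still be sorry).
Let g in RF D n b (so g | charpoly, deg g > D >= 1, deg g <= n) with g^4 | charpoly or Bad4 g b. By `ker_pow` (L4) kerc g = q^m
with m >= 1. Either m >= 2, so kerc g >= q^2; or kerc g = q and g^4 | charpoly; or kerc g = q and Bad4; in the last case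
either (1-d) n < 2 deg g (event of `large`) or bq applies. Union bound (`pr_or_le`, `pr_exists_le` over RR 2 D n), then
`rr_sum` and card(Irr 2 m) <= 2^m/m (`irr_le`):
sum_g 4/q^3 <= sum_{m>D} 4/4^m <= 2/2^D; sum_g 4/q^2 <= sum_{m>D} 4/2^m <= 4/2^D (twice);
sum_g e/(n q) <= sum_{m in Ioc D n} e/(n m) <= e. Total <= 10/2^D + 16 d + e. -/

set_option autoImplicit false

namespace Pool.H86.UD

open Finset Polynomial Pool.H64.IR

theorem bs_geom (D n : ℕ) : ∑ m ∈ Finset.Ioc D n, (4 : ℝ) / 2 ^ m ≤ 4 / 2 ^ D := by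
  by_cases h : D ≤ n
  · have h1 : ∀ k : ℕ, D ≤ k → ∑ m ∈ Finset.Ioc D k, (4 : ℝ) / 2 ^ m = 4 / 2 ^ D - 4 / 2 ^ k := by
      intro k hk
      induction k, hk using Nat.le_induction with
      | base => simp
      | succ k hk ih =>
        rw [Finset.sum_Ioc_succ_top (by omega), ih, pow_succ]
        field_simp
        ring
    rw [h1 n h]
    have : (0 : ℝ) ≤ 4 / 2 ^ n := by positivity
    linarith
  · rw [Finset.Ioc_eq_empty (by omega), Finset.sum_empty]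
    positivity

/-- a sum over the irreducible polynomials of a function bounded by `4 / q ^ 2` -/
theorem bs_sum (D n : ℕ) (φ : ℕ → ℝ) (h : ∀ m : ℕ, D < m → φ m ≤ 4 / ((2 : ℝ) ^ m) ^ 2) :
    ∑ g ∈ RR 2 D n, φ g.natDegree ≤ 4 / 2 ^ D := by
  rw [rr_sum]
  refine (Finset.sum_le_sum fun m hm => ?_).trans (bs_geom D n)
  rw [Finset.mem_Ioc] at hm
  have hm1 : 1 ≤ m := by omega
  have hm0 : (1 : ℝ) ≤ m := by exact_mod_cast hm1
  have h0 : (0 : ℝ) < 2 ^ m := by positivity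
  have h1 : ((Irr 2 m).card : ℝ) ≤ 2 ^ m :=
    (irr_le m hm1).trans (div_le_self h0.le hm0)
  calc ((Irr 2 m).card : ℝ) * φ m ≤ ((Irr 2 m).card : ℝ) * (4 / ((2 : ℝ) ^ m) ^ 2) :=
        mul_le_mul_of_nonneg_left (h m hm.1) (Nat.cast_nonneg _)
    _ ≤ 2 ^ m * (4 / ((2 : ℝ) ^ m) ^ 2) := mul_le_mul_of_nonneg_right h1 (by positivity)
    _ = 4 / 2 ^ m := by field_simp

theorem bs_sum2 (D n : ℕ) (e : ℝ) (he : 0 < e) (hn : 1 ≤ n) :
    ∑ g ∈ RR 2 D n, e / (n * (2 : ℝ) ^ g.natDegree) ≤ e := by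
  have h0 := rr_sum D n (fun m => e / (n * (2 : ℝ) ^ m))
  rw [h0]
  have hn0 : (0 : ℝ) < n := by exact_mod_cast hn
  have h1 : ∀ m ∈ Finset.Ioc D n, ((Irr 2 m).card : ℝ) * (e / (n * (2 : ℝ) ^ m)) ≤ e / n := by
    intro m hm
    rw [Finset.mem_Ioc] at hm
    have hm1 : 1 ≤ m := by omega
    have hm0 : (1 : ℝ) ≤ m := by exact_mod_cast hm1
    have h0 : (0 : ℝ) < 2 ^ m := by positivity
    have h1 : ((Irr 2 m).card : ℝ) ≤ 2 ^ m :=
      (irr_le m hm1).trans (div_le_self h0.le hm0)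
    calc ((Irr 2 m).card : ℝ) * (e / (n * (2 : ℝ) ^ m)) ≤ 2 ^ m * (e / (n * (2 : ℝ) ^ m)) :=
          mul_le_mul_of_nonneg_right h1 (by positivity)
      _ = e / n := by field_simp
  refine (Finset.sum_le_sum h1).trans ?_
  rw [Finset.sum_const, Nat.card_Ioc, nsmul_eq_mul]
  have h2 : (((n - D : ℕ)) : ℝ) ≤ n := by exact_mod_cast Nat.sub_le n D
  calc (((n - D : ℕ)) : ℝ) * (e / n) ≤ n * (e / n) := mul_le_mul_of_nonneg_right h2 (by positivity)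
    _ = e := by field_simp

theorem bad_sum (D : ℕ) (hD : 1 ≤ D) (d e : ℝ) (hd : 0 < d) (hd1 : d ≤ 1 / 2) (he : 0 < e) : ∃ n0 : ℕ,
    ∀ n : ℕ, n0 ≤ n → pr (fun b : Edge n → Bool => ∃ g ∈ RF D n b,
      (g ^ 4 ∣ (adj (ZMod 2) b).charpoly ∨ Bad4 g b)) ≤ 20 / 2 ^ D + 16 * d + e := by
  classical
  obtain ⟨n1, hn1⟩ := bq d e hd he
  refine ⟨max n1 (max 8 (Nat.ceil (2 / d))), fun n hn => ?_⟩
  have hna : n1 ≤ n := (le_max_left _ _).trans hn
  have hn8 : 8 ≤ n := (le_max_left _ _).trans ((le_max_right _ _).trans hn)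
  have hnd : 2 / d ≤ n := by
    have h1 : Nat.ceil (2 / d) ≤ n := (le_max_right _ _).trans ((le_max_right _ _).trans hn)
    exact (Nat.le_ceil _).trans (by exact_mod_cast h1)
  have hn0 : (0 : ℝ) < n := by
    have : 0 < n := by omega
    exact_mod_cast this
  have hsub : ∀ b : Edge n → Bool, (∃ g ∈ RF D n b, (g ^ 4 ∣ (adj (ZMod 2) b).charpoly ∨ Bad4 g b)) →
      (((∃ g ∈ RR 2 D n, ((2 : ℝ) ^ g.natDegree) ^ 2 ≤ kerc g (adj (ZMod 2) b)) ∨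
        (∃ g ∈ RR 2 D n, (kerc g (adj (ZMod 2) b) = (2 : ℝ) ^ g.natDegree ∧
          g ^ 4 ∣ (adj (ZMod 2) b).charpoly))) ∨
        (∃ g ∈ (RR 2 D n).filter (fun g => (2 * g.natDegree : ℝ) ≤ (1 - d) * n),
          (Bad4 g b ∧ kerc g (adj (ZMod 2) b) = (2 : ℝ) ^ g.natDegree))) ∨
        (∃ g : (ZMod 2)[X], g.Monic ∧ Irreducible g ∧ 2 ≤ g.natDegree ∧
          (1 - d) * n < 2 * g.natDegree ∧ g ∣ (adj (ZMod 2) b).charpoly) := by
    rintro b ⟨g, hg, hor⟩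
    obtain ⟨⟨hmon, hirr, hDg, hgn⟩, hdvd⟩ := mem_rf.1 hg
    have hrr : g ∈ RR 2 D n := (mem_rr g).2 ⟨hmon, hirr, hDg, hgn⟩
    obtain ⟨m, hm, hm0⟩ := ker_pow g hmon hirr (adj (ZMod 2) b)
    rw [two_cast] at hm
    have hmne : m ≠ 0 := fun h => (hm0.1 h) hdvd
    have hq1 : (1 : ℝ) ≤ 2 ^ g.natDegree := one_le_pow₀ (by norm_num)
    by_cases hm2 : 2 ≤ m
    · left; left; left
      refine ⟨g, hrr, ?_⟩
      rw [hm]
      exact pow_le_pow_right₀ hq1 hm2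
    · have hm1 : m = 1 := by omega
      rw [hm1, pow_one] at hm
      rcases hor with h4 | hb
      · left; left; right
        exact ⟨g, hrr, hm, h4⟩
      · by_cases hl : (2 * g.natDegree : ℝ) ≤ (1 - d) * n
        · left; right
          exact ⟨g, Finset.mem_filter.2 ⟨hrr, hl⟩, hb, hm⟩
        · right
          exact ⟨g, hmon, hirr, by omega, not_le.1 hl, hdvd⟩
  have hdeg : ∀ g ∈ RR 2 D n, g.Monic ∧ Irreducible g ∧ 2 ≤ g.natDegree := by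
    intro g hg
    obtain ⟨h1, h2, h3, h4⟩ := (mem_rr g).1 hg
    exact ⟨h1, h2, by omega⟩
  have b1 : pr (fun b : Edge n → Bool => ∃ g ∈ RR 2 D n,
      ((2 : ℝ) ^ g.natDegree) ^ 2 ≤ kerc g (adj (ZMod 2) b)) ≤ 4 / 2 ^ D := by
    refine (pr_exists_le _ _).trans ?_
    refine (Finset.sum_le_sum fun g hg => ?_).trans
      (bs_sum D n (fun m => 4 / ((2 : ℝ) ^ m) ^ 3) fun m _ => ?_)
    · obtain ⟨h1, h2, h3⟩ := hdeg g hg
      exact rp_two n g h1 h2 h3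
    · have h1 : (1 : ℝ) ≤ 2 ^ m := one_le_pow₀ (by norm_num)
      exact div_le_div_of_nonneg_left (by norm_num) (by positivity) (pow_le_pow_right₀ h1 (by norm_num))
  have b2 : pr (fun b : Edge n → Bool => ∃ g ∈ RR 2 D n, (kerc g (adj (ZMod 2) b) = (2 : ℝ) ^ g.natDegree ∧
      g ^ 4 ∣ (adj (ZMod 2) b).charpoly)) ≤ 4 / 2 ^ D := by
    refine (pr_exists_le _ _).trans ?_
    refine (Finset.sum_le_sum fun g hg => ?_).trans
      (bs_sum D n (fun m => 4 / ((2 : ℝ) ^ m) ^ 2) fun m _ => le_refl _)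
    obtain ⟨h1, h2, h3⟩ := hdeg g hg
    exact rp_four n g h1 h2 h3
  have b3 : pr (fun b : Edge n → Bool => ∃ g ∈ (RR 2 D n).filter
      (fun g => (2 * g.natDegree : ℝ) ≤ (1 - d) * n),
      (Bad4 g b ∧ kerc g (adj (ZMod 2) b) = (2 : ℝ) ^ g.natDegree)) ≤ 4 / 2 ^ D + e := by
    refine (pr_exists_le _ _).trans ?_
    have h1 : ∀ g ∈ (RR 2 D n).filter (fun g => (2 * g.natDegree : ℝ) ≤ (1 - d) * n),
        pr (fun b : Edge n → Bool => Bad4 g b ∧ kerc g (adj (ZMod 2) b) = (2 : ℝ) ^ g.natDegree) ≤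
          4 / ((2 : ℝ) ^ g.natDegree) ^ 2 + e / (n * (2 : ℝ) ^ g.natDegree) := by
      intro g hg
      rw [Finset.mem_filter] at hg
      obtain ⟨h1, h2, h3⟩ := hdeg g hg.1
      exact hn1 n hna g h1 h2 h3 hg.2
    refine (Finset.sum_le_sum h1).trans ?_
    refine (Finset.sum_le_sum_of_subset_of_nonneg (Finset.filter_subset _ _) fun g _ _ => ?_).trans ?_
    · positivity
    · rw [Finset.sum_add_distrib]
      exact add_le_add (bs_sum D n (fun m => 4 / ((2 : ℝ) ^ m) ^ 2) fun m _ => le_refl _)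
        (bs_sum2 D n e he (by omega))
  have b4 := large d hd hd1 n hnd hn8
  refine (pr_mono hsub).trans ((pr_or_le _ _).trans ?_)
  have h3 := pr_or_le (fun b : Edge n → Bool => (∃ g ∈ RR 2 D n,
      ((2 : ℝ) ^ g.natDegree) ^ 2 ≤ kerc g (adj (ZMod 2) b)) ∨
      (∃ g ∈ RR 2 D n, (kerc g (adj (ZMod 2) b) = (2 : ℝ) ^ g.natDegree ∧
      g ^ 4 ∣ (adj (ZMod 2) b).charpoly))) (fun b => ∃ g ∈ (RR 2 D n).filter
      (fun g => (2 * g.natDegree : ℝ) ≤ (1 - d) * n),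
      (Bad4 g b ∧ kerc g (adj (ZMod 2) b) = (2 : ℝ) ^ g.natDegree))
  have h2 := pr_or_le (fun b : Edge n → Bool => (∃ g ∈ RR 2 D n,
      ((2 : ℝ) ^ g.natDegree) ^ 2 ≤ kerc g (adj (ZMod 2) b))) (fun b =>
      (∃ g ∈ RR 2 D n, (kerc g (adj (ZMod 2) b) = (2 : ℝ) ^ g.natDegree ∧
      g ^ 4 ∣ (adj (ZMod 2) b).charpoly)))
  have h5 : (20 : ℝ) / 2 ^ D = 4 / 2 ^ D + 4 / 2 ^ D + 4 / 2 ^ D + 8 / 2 ^ D := by ring
  have h6 : (0 : ℝ) ≤ 8 / 2 ^ D := by positivity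
  rw [h5]
  linarith

end Pool.H86.UD
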