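import Mathlib
import Pool.Agent.H86.UD.Defs

/-! MODULE DetS (project UD of helper86, MP_a758cf_pr): the deterministic part. -/

set_option autoImplicit false

namespace Pool.H86.UD

open Finset Polynomial Pool.H64.IR

theorem detS_deg_P (n : ℕ) (b : Edge n → Bool) : (adj (ZMod 2) b).charpoly.natDegree = n := by
  rw [Matrix.charpoly_natDegree_eq_dim, Fintype.card_fin]

theorem ds_exact (D n : ℕ) (b : Edge n → Bool) (hD : 1 ≤ D)
    (h2 : ∀ g ∈ RF D n b, ¬ g ^ 4 ∣ (adj (ZMod 2) b).charpoly) (g : (ZMod 2)[X]) (hg : g ∈ RF D n b) :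
    g ^ 2 ∣ (adj (ZMod 2) b).charpoly ∧ ¬ g ^ 3 ∣ (adj (ZMod 2) b).charpoly := by
  have h4 := h2 g hg
  obtain ⟨⟨hm, hi, hd1, hd2⟩, hdvd⟩ := mem_rf.1 hg
  have hdeg : 2 ≤ g.natDegree := by omega
  have hp : Prime g := hi.prime
  refine ⟨sq2 b g hi hdeg hdvd, ?_⟩
  -- from g ^ 3 ∣ h ^ 2 get g ^ 4 ∣ h ^ 2
  have key : ∀ h : (ZMod 2)[X], g ^ 3 ∣ h ^ 2 → g ^ 4 ∣ h ^ 2 := by
    intro h hh
    have h1 : g ∣ h := hp.dvd_of_dvd_pow (dvd_trans (dvd_pow_self g (by norm_num)) hh)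
    obtain ⟨h', rfl⟩ := h1
    have h3 : g ^ 2 * g ∣ g ^ 2 * h' ^ 2 := by
      have e1 : g ^ 2 * g = g ^ 3 := by ring
      have e2 : g ^ 2 * h' ^ 2 = (g * h') ^ 2 := by ring
      rw [e1, e2]
      exact hh
    have h5 : g ∣ h' ^ 2 := (mul_dvd_mul_iff_left (pow_ne_zero 2 hi.ne_zero)).1 h3
    have h6 : g ∣ h' := hp.dvd_of_dvd_pow h5
    have e3 : (g * h') ^ 2 = g ^ 2 * h' ^ 2 := by ring
    have e4 : g ^ 4 = g ^ 2 * g ^ 2 := by ring
    rw [e3, e4]
    exact mul_dvd_mul_left _ (pow_dvd_pow_of_dvd h6 2)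
  intro h3
  obtain ⟨h, hf | hf⟩ := sq2_form b
  · rw [hf] at h3 h4
    exact h4 (key h h3)
  · rw [hf] at h3 h4
    have hX : ¬ g ∣ (X : (ZMod 2)[X]) := by
      intro h1
      have h2 := natDegree_le_of_dvd h1 X_ne_zero
      rw [natDegree_X] at h2
      omega
    have h5 : g ^ 3 ∣ h ^ 2 := hp.pow_dvd_of_dvd_mul_left 3 hX h3
    exact h4 ((key h h5).mul_left X)

theorem detS_coprime {g g' : (ZMod 2)[X]} (hm : g.Monic) (hi : Irreducible g) (hm' : g'.Monic) (hi' : Irreducible g')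
    (hne : g ≠ g') : IsCoprime g g' := by
  rw [hi.coprime_iff_not_dvd]
  intro h
  exact hne (eq_of_monic_of_associated hm hm' (hi.associated_of_dvd hi' h))

theorem detS_prod_natDegree (D n : ℕ) (b : Edge n → Bool) (s : Finset (ZMod 2)[X]) (hs : s ⊆ RF D n b) :
    (∏ g ∈ s, g ^ 2).Monic ∧ (∏ g ∈ s, g ^ 2).natDegree = 2 * dg s := by
  have hmon : ∀ g ∈ s, (g ^ 2).Monic := by
    intro g hg
    exact ((mem_rf.1 (hs hg)).1.1).pow 2
  refine ⟨monic_prod_of_monic _ _ hmon, ?_⟩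
  rw [natDegree_prod_of_monic _ _ hmon]
  unfold dg
  rw [Finset.mul_sum]
  refine Finset.sum_congr rfl fun g hg => ?_
  rw [((mem_rf.1 (hs hg)).1.1).natDegree_pow]

/-- the degree of a monic polynomial all of whose irreducible factors are small and of small multiplicity -/
theorem detS_small (D m : ℕ) (v : (ZMod 2)[X]) (hv : v.Monic)
    (h1 : ∀ g : (ZMod 2)[X], g.Monic → Irreducible g → g ∣ v → g.natDegree ≤ D)
    (h2 : ∀ g : (ZMod 2)[X], g.Monic → Irreducible g → g ∣ v → ¬ g ^ m ∣ v) :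
    v.natDegree ≤ smB D m := by
  classical
  have hv0 : v ≠ 0 := hv.ne_zero
  set N := UniqueFactorizationMonoid.normalizedFactors v with hN
  have hass : Associated N.prod v := UniqueFactorizationMonoid.prod_normalizedFactors hv0
  have hfac : ∀ p ∈ N, p.Monic ∧ Irreducible p ∧ p ∣ v := by
    intro p hp
    have hi : Irreducible p := UniqueFactorizationMonoid.irreducible_of_normalized_factor p hp
    refine ⟨?_, hi, UniqueFactorizationMonoid.dvd_of_mem_normalizedFactors hp⟩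
    have h3 : normalize p = p := UniqueFactorizationMonoid.normalize_normalized_factor p hp
    rw [← h3]
    exact monic_normalize hi.ne_zero
  have hprod : N.prod = ∏ p ∈ N.toFinset, p ^ N.count p := Finset.prod_multiset_count N
  have hmon : ∀ p ∈ N.toFinset, (p ^ N.count p).Monic := by
    intro p hp
    exact ((hfac p (Multiset.mem_toFinset.1 hp)).1).pow _
  have hPm : (∏ p ∈ N.toFinset, p ^ N.count p).Monic := monic_prod_of_monic _ _ hmon
  have heq : ∏ p ∈ N.toFinset, p ^ N.count p = v := by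
    apply eq_of_monic_of_associated hPm hv
    rw [← hprod]
    exact hass
  have hdeg : v.natDegree = ∑ p ∈ N.toFinset, N.count p * p.natDegree := by
    rw [← heq, natDegree_prod_of_monic _ _ hmon]
    refine Finset.sum_congr rfl fun p hp => ?_
    rw [((hfac p (Multiset.mem_toFinset.1 hp)).1).natDegree_pow]
  have hcount : ∀ p ∈ N.toFinset, N.count p ≤ m := by
    intro p hp
    obtain ⟨hm1, hi1, hd1⟩ := hfac p (Multiset.mem_toFinset.1 hp)
    by_contra hc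
    have hc' : m ≤ N.count p := by omega
    apply h2 p hm1 hi1 hd1
    have h3 : p ^ N.count p ∣ ∏ p ∈ N.toFinset, p ^ N.count p :=
      Finset.dvd_prod_of_mem (fun p => p ^ N.count p) hp
    rw [heq] at h3
    exact dvd_trans (pow_dvd_pow p hc') h3
  have hsub : N.toFinset ⊆ RR 2 0 D := by
    intro p hp
    obtain ⟨hm1, hi1, hd1⟩ := hfac p (Multiset.mem_toFinset.1 hp)
    rw [mem_rr]
    exact ⟨hm1, hi1, hi1.natDegree_pos, h1 p hm1 hi1 hd1⟩
  rw [hdeg]
  unfold smB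
  calc ∑ p ∈ N.toFinset, N.count p * p.natDegree ≤ ∑ p ∈ N.toFinset, m * p.natDegree :=
        Finset.sum_le_sum fun p hp => Nat.mul_le_mul_right _ (hcount p hp)
    _ ≤ ∑ g ∈ RR 2 0 D, m * g.natDegree := Finset.sum_le_sum_of_subset hsub

open Classical in
theorem ds_deg (D m n : ℕ) (b : Edge n → Bool) (hD : 1 ≤ D)
    (h1 : ∀ g : (ZMod 2)[X], g.Monic → Irreducible g → g.natDegree ≤ D → ¬ g ^ m ∣ (adj (ZMod 2) b).charpoly)
    (h2 : ∀ g ∈ RF D n b, ¬ g ^ 4 ∣ (adj (ZMod 2) b).charpoly) (u : (ZMod 2)[X]) (hu : u.Monic)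
    (hdvd : u ∣ (adj (ZMod 2) b).charpoly) (hsq : ∀ g ∈ RF D n b, g ∣ u → g ^ 2 ∣ u) :
    2 * dg ((RF D n b).filter fun g => g ∣ u) ≤ u.natDegree ∧
      u.natDegree ≤ 2 * dg ((RF D n b).filter fun g => g ∣ u) + smB D m := by
  set s := (RF D n b).filter fun g => g ∣ u with hs
  have hsR : s ⊆ RF D n b := Finset.filter_subset _ _
  obtain ⟨hmon, hdeg⟩ := detS_prod_natDegree D n b s hsR
  have hpd : (∏ g ∈ s, g ^ 2) ∣ u := by
    apply Finset.prod_dvd_of_coprime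
    · intro g hg g' hg' hne
      have hg1 := (mem_rf.1 (hsR hg)).1
      have hg2 := (mem_rf.1 (hsR hg')).1
      exact (detS_coprime hg1.1 hg1.2.1 hg2.1 hg2.2.1 hne).pow
    · intro g hg
      have hg' := Finset.mem_filter.1 hg
      exact hsq g hg'.1 hg'.2
  obtain ⟨v, hv⟩ := hpd
  have hvm : v.Monic := hmon.of_mul_monic_left (hv ▸ hu)
  have hdu : u.natDegree = 2 * dg s + v.natDegree := by
    rw [hv, hmon.natDegree_mul hvm, hdeg]
  have hvu : v ∣ u := ⟨∏ g ∈ s, g ^ 2, by rw [hv]; ring⟩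
  have hvP : v ∣ (adj (ZMod 2) b).charpoly := dvd_trans hvu hdvd
  have hsmall : v.natDegree ≤ smB D m := by
    have hle : ∀ g : (ZMod 2)[X], g.Monic → Irreducible g → g ∣ v → g.natDegree ≤ D := by
      intro g hm hi hgv
      by_contra hc
      have hc' : D < g.natDegree := not_le.1 hc
      have hgP : g ∣ (adj (ZMod 2) b).charpoly := dvd_trans hgv hvP
      have hgn : g.natDegree ≤ n := by
        have h3 := natDegree_le_of_dvd hgP (Matrix.charpoly_monic _).ne_zero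
        rwa [detS_deg_P] at h3
      have hgR : g ∈ RF D n b := mem_rf.2 ⟨⟨hm, hi, hc', hgn⟩, hgP⟩
      have hgs : g ∈ s := Finset.mem_filter.2 ⟨hgR, dvd_trans hgv hvu⟩
      have h3 : g ^ 2 ∣ ∏ g ∈ s, g ^ 2 := Finset.dvd_prod_of_mem (fun g => g ^ 2) hgs
      have h4 : g ^ 3 ∣ u := by
        rw [hv]
        have e : g ^ 3 = g ^ 2 * g := by ring
        rw [e]
        exact mul_dvd_mul h3 hgv
      exact (ds_exact D n b hD h2 g hgR).2 (dvd_trans h4 hdvd)
    apply detS_small D m v hvm hle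
    intro g hm hi hgv hgm
    exact h1 g hm hi (hle g hm hi hgv) (dvd_trans hgm hvP)
  rw [hdu]
  exact ⟨by omega, by omega⟩

theorem det_side (D m n : ℕ) (b : Edge n → Bool) (hD : 1 ≤ D)
    (h1 : ∀ g : (ZMod 2)[X], g.Monic → Irreducible g → g.natDegree ≤ D → ¬ g ^ m ∣ (adj (ZMod 2) b).charpoly)
    (h2 : ∀ g ∈ RF D n b, ¬ g ^ 4 ∣ (adj (ZMod 2) b).charpoly)
    (h3 : ∀ g ∈ RF D n b, ¬ Bad4 g b)
    (f : ℚ[X]) (hf : f ∣ (adj ℚ b).charpoly) :
    ∃ s t : Finset (ZMod 2)[X], s ⊆ RR 2 D n ∧ t ⊆ RR 2 D n ∧ Disjoint s t ∧ (∀ g, g ∈ RF D n b ↔ g ∈ s ∨ g ∈ t) ∧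
      s.card + t.card = (RF D n b).card ∧
      2 * dg s ≤ f.natDegree ∧ f.natDegree ≤ 2 * dg s + smB D m ∧
      2 * (dg s + dg t) ≤ n ∧ n ≤ 2 * (dg s + dg t) + smB D m := by
  classical
  obtain ⟨F1, hF1, hF1d, F2, hF2⟩ := red_int b f hf
  have hphi : (adj ℤ b).charpoly.Monic := Matrix.charpoly_monic _
  have hF2m : F2.Monic := hF1.of_mul_monic_left (hF2 ▸ hphi)
  set f1 := F1.map (Int.castRingHom (ZMod 2)) with hf1
  set f2 := F2.map (Int.castRingHom (ZMod 2)) with hf2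
  have hf1m : f1.Monic := hF1.map _
  have hf12 : f1 * f2 = (adj (ZMod 2) b).charpoly := by
    rw [hf1, hf2, ← Polynomial.map_mul, ← hF2]
    exact BRG_map b (ZMod 2)
  have hf1P : f1 ∣ (adj (ZMod 2) b).charpoly := ⟨f2, hf12.symm⟩
  have hsq1 : ∀ g ∈ RF D n b, g ∣ f1 → g ^ 2 ∣ f1 := by
    intro g hg hg1
    have hn2 : ¬ g ∣ f2 := fun hg2 => h3 g hg ⟨F1, F2, hF2.symm, hg1, hg2⟩
    have hgP := (ds_exact D n b hD h2 g hg).1
    rw [← hf12] at hgP
    have hp : Prime g := ((mem_rf.1 hg).1.2.1).prime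
    exact hp.pow_dvd_of_dvd_mul_right 2 hn2 hgP
  have hPsq : ∀ g ∈ RF D n b, g ∣ (adj (ZMod 2) b).charpoly → g ^ 2 ∣ (adj (ZMod 2) b).charpoly :=
    fun g hg _ => (ds_exact D n b hD h2 g hg).1
  obtain ⟨a1, a2⟩ := ds_deg D m n b hD h1 h2 f1 hf1m hf1P hsq1
  obtain ⟨b1, b2⟩ := ds_deg D m n b hD h1 h2 _ (Matrix.charpoly_monic _) dvd_rfl hPsq
  have hfull : (RF D n b).filter (fun g => g ∣ (adj (ZMod 2) b).charpoly) = RF D n b :=
    Finset.filter_true_of_mem fun g hg => (mem_rf.1 hg).2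
  rw [hfull, detS_deg_P] at b1 b2
  have hdeg1 : f1.natDegree = f.natDegree := by
    rw [hf1, hF1.natDegree_map, hF1d]
  rw [hdeg1] at a1 a2
  set s := (RF D n b).filter fun g => g ∣ f1 with hs
  have hsR : s ⊆ RF D n b := Finset.filter_subset _ _
  have hRR : RF D n b ⊆ RR 2 D n := by
    unfold RF
    exact Finset.filter_subset _ _
  have hdg : dg s + dg (RF D n b \ s) = dg (RF D n b) := by
    unfold dg
    rw [add_comm]
    exact Finset.sum_sdiff hsR
  refine ⟨s, RF D n b \ s, hsR.trans hRR, Finset.sdiff_subset.trans hRR, Finset.disjoint_sdiff, ?_, ?_, a1, a2, ?_, ?_⟩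
  · intro g
    rw [Finset.mem_sdiff]
    constructor
    · intro hg
      by_cases h : g ∈ s
      · exact Or.inl h
      · exact Or.inr ⟨hg, h⟩
    · rintro (h | h)
      · exact hsR h
      · exact h.1
  · rw [add_comm]
    exact Finset.card_sdiff_add_card_eq_card hsR
  · rw [hdg]; exact b1
  · rw [hdg]; exact b2

end Pool.H86.UD
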