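import Mathlib
import Pool.Agent.H86.UD.Defs

/-! MODULE HanX (project UD of helper86, MP_a758cf_pr).
For a fixed monic f over ZMod 2 of degree r >= 1 the expected number of vectors with annihilator (f) is at most
2^((r+1)/2) + 1 for n large. Write C = comp f, c = 2^(r(r+1)/2)/(2^n)^r. By `cmp1` and `a2m`:
avg X1 f = (sum over V (n x r) of ind(FullRank V and IsAlt(VᵀVC))) * c.
(a) hx_count: the number of symmetric S (r x r) with S C alternating is at most 2^((r+1)/2). r = 1: there are only two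
matrices. r >= 2: IsAlt gives S C = Cᵀ S; `b2m_form`: v(f)ᵀ S v(h) = l(f h), l(h) := e0ᵀ S v(h), v = `b2m_v f`; with
`b2m_quad` l(X f^2) = 0, in particular l(X^(2j+1)) = 0 (f = X^j). l is additive and S is determined by the l(X^i),
i < r (S a b = v(X^a)ᵀ S v(X^b) = l(X^(a+b)), and v(X^(a+b)) is a combination of the v(X^i), i < r: `b2m_surj`,
`b2m_v_pow`), hence by the l(X^i) with i < r even: the map S ↦ (j ↦ l(X^(2j))), j < (r+1)/2, is injective on these S
(apply the above to the difference of two such S, or argue directly as in `b2m_count`).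
(b) hx_one: the number of V (n x r) such that the all-ones vector is in the span of the columns is at most
2^r (2^n)^(r-1) (V u = 1 with u_i = 1 for some i: the i-th column is determined by the others; union over u). So these
V contribute at most 2^r (2^n)^(r-1) c = 2^(r + r(r+1)/2)/2^n <= 1 for n >= r + r(r+1)/2.
(c) the other V: group by S = VᵀV; for each S at most `b3_A_le` frames (`b3_A n r S`, transpose V to v : Fin r → Fin n →
ZMod 2, columns of V): total at most 2^((r+1)/2) (2^n)^r/2^(r(r+1)/2), times c is 2^((r+1)/2). -/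

set_option autoImplicit false

namespace Pool.H86.UD

open Finset Polynomial Pool.H64.IR

/-- a symmetric `S` with `S C` alternating is determined by the even entries of its first row (degree at least 2) -/
theorem hx_inj (f : (ZMod 2)[X]) (hk : 2 ≤ f.natDegree)
    (S S' : Matrix (Fin f.natDegree) (Fin f.natDegree) (ZMod 2))
    (h : S.IsSymm ∧ IsAlt (S * Pool.H64.IR.comp f)) (h' : S'.IsSymm ∧ IsAlt (S' * Pool.H64.IR.comp f))
    (heq : ∀ (j : ℕ) (hj : 2 * j < f.natDegree), S ⟨0, by omega⟩ ⟨2 * j, hj⟩ = S' ⟨0, by omega⟩ ⟨2 * j, hj⟩) :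
    S = S' := by
  have hadj : ∀ T : Matrix (Fin f.natDegree) (Fin f.natDegree) (ZMod 2),
      T.IsSymm ∧ IsAlt (T * Pool.H64.IR.comp f) →
      T * Pool.H64.IR.comp f = (Pool.H64.IR.comp f).transpose * T := by
    intro T hT
    have h1 := hT.2.1
    unfold Matrix.IsSymm at h1
    rw [Matrix.transpose_mul, hT.1] at h1
    exact h1.symm
  have hodd : ∀ T : Matrix (Fin f.natDegree) (Fin f.natDegree) (ZMod 2),
      T.IsSymm ∧ IsAlt (T * Pool.H64.IR.comp f) → ∀ (j : ℕ) (hj : 2 * j + 1 < f.natDegree),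
      T ⟨0, by omega⟩ ⟨2 * j + 1, hj⟩ = 0 := by
    intro T hT j hj
    have h2 := b2m_quad (T * Pool.H64.IR.comp f) hT.2 (b2m_v f hk (X ^ j))
    rw [← Matrix.mulVec_mulVec] at h2
    have h3 : (Pool.H64.IR.comp f).mulVec (b2m_v f hk (X ^ j)) = b2m_v f hk (X * X ^ j) := by
      rw [b2m_v_mul, aeval_X]
    rw [h3, b2m_form f hk T (hadj T hT)] at h2
    have h4 : (X : (ZMod 2)[X]) ^ j * (X * X ^ j) = X ^ (2 * j + 1) := by ring
    rw [h4, b2m_v_pow f hk (2 * j + 1) hj, Matrix.mulVec_single_one, single_one_dotProduct] at h2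
    exact h2
  have hrow : ∀ i : Fin f.natDegree, S ⟨0, by omega⟩ i = S' ⟨0, by omega⟩ i := by
    intro i
    rcases Nat.even_or_odd' (i : ℕ) with ⟨j, hj | hj⟩
    · have h1 : i = ⟨2 * j, by rw [← hj]; exact i.2⟩ := Fin.ext hj
      rw [h1]
      exact heq j _
    · have h1 : i = ⟨2 * j + 1, by rw [← hj]; exact i.2⟩ := Fin.ext hj
      rw [h1, hodd S h j _, hodd S' h' j _]
  have h3 : S.mulVec (Pi.single ⟨0, by omega⟩ 1) = S'.mulVec (Pi.single ⟨0, by omega⟩ 1) := by
    rw [Matrix.mulVec_single_one, Matrix.mulVec_single_one]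
    funext i
    have h1 : S i ⟨0, by omega⟩ = S ⟨0, by omega⟩ i := h.1.apply _ _
    have h2 : S' i ⟨0, by omega⟩ = S' ⟨0, by omega⟩ i := h'.1.apply _ _
    change S i ⟨0, by omega⟩ = S' i ⟨0, by omega⟩
    rw [h1, h2, hrow i]
  have h4 : ∀ g, S.mulVec (b2m_v f hk g) = S'.mulVec (b2m_v f hk g) := by
    intro g
    unfold b2m_v
    rw [Matrix.mulVec_mulVec, Matrix.mulVec_mulVec, b2m_adj _ _ (hadj S h) g, b2m_adj _ _ (hadj S' h') g,
      ← Matrix.mulVec_mulVec, ← Matrix.mulVec_mulVec, h3]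
  ext a b
  obtain ⟨g, hg⟩ := b2m_surj f hk (Pi.single b 1)
  have h6 := congrFun (h4 g) a
  rw [hg, Matrix.mulVec_single_one, Matrix.mulVec_single_one] at h6
  exact h6

theorem hx_count (f : (ZMod 2)[X]) (hf : f.Monic) (hr : 1 ≤ f.natDegree) :
    (∑ S : Matrix (Fin f.natDegree) (Fin f.natDegree) (ZMod 2), ind (S.IsSymm ∧ IsAlt (S * Pool.H64.IR.comp f))) ≤
      (2 : ℝ) ^ ((f.natDegree + 1) / 2) := by
  classical
  rw [b3_sum_ind]
  have h2 : (Finset.univ.filter fun S : Matrix (Fin f.natDegree) (Fin f.natDegree) (ZMod 2) =>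
        S.IsSymm ∧ IsAlt (S * Pool.H64.IR.comp f)).card ≤
      (Finset.univ : Finset (Fin ((f.natDegree + 1) / 2) → ZMod 2)).card := by
    refine Finset.card_le_card_of_injOn
      (fun S j => S ⟨0, by omega⟩ ⟨2 * (j : ℕ), by have := j.2; omega⟩)
      (fun _ _ => Finset.mem_coe.2 (Finset.mem_univ _)) ?_
    intro S hS S' hS' heq
    rw [Finset.mem_coe, Finset.mem_filter] at hS hS'
    have h0 : ∀ (j : ℕ) (hj : 2 * j < f.natDegree),
        S ⟨0, by omega⟩ ⟨2 * j, hj⟩ = S' ⟨0, by omega⟩ ⟨2 * j, hj⟩ := by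
      intro j hj
      exact congrFun heq ⟨j, by omega⟩
    rcases Nat.lt_or_ge f.natDegree 2 with h1 | h1
    · ext a b
      have ha : a = ⟨0, by omega⟩ := Fin.ext (by have := a.2; change (a : ℕ) = 0; omega)
      have hb : b = ⟨2 * 0, by omega⟩ := Fin.ext (by have := b.2; change (b : ℕ) = 2 * 0; omega)
      rw [ha, hb]
      exact h0 0 _
    · exact hx_inj f h1 S S' hS.2 hS'.2 h0
  have h7 : (Finset.univ : Finset (Fin ((f.natDegree + 1) / 2) → ZMod 2)).card = 2 ^ ((f.natDegree + 1) / 2) := by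
    rw [Finset.card_univ, Fintype.card_fun, ZMod.card, Fintype.card_fin]
  rw [h7] at h2
  exact_mod_cast h2

/-- the number of families with a prescribed linear combination, one coefficient being 1 -/
theorem hx_comb (n r : ℕ) (c : Fin r → ZMod 2) (i : Fin r) (hc : c i = 1) (y : Fin n → ZMod 2)
    [DecidablePred fun v : Fin r → Fin n → ZMod 2 => ∑ j, c j • v j = y] :
    (Finset.univ.filter fun v : Fin r → Fin n → ZMod 2 => ∑ j, c j • v j = y).card ≤ (2 ^ n) ^ (r - 1) := by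
  classical
  have h1 : (Finset.univ.filter fun v : Fin r → Fin n → ZMod 2 => ∑ j, c j • v j = y).card ≤
      (Finset.univ : Finset ({j : Fin r // j ≠ i} → Fin n → ZMod 2)).card := by
    refine Finset.card_le_card_of_injOn (fun v j => v j.1) (fun _ _ => Finset.mem_coe.2 (Finset.mem_univ _)) ?_
    intro v hv w hw heq
    rw [Finset.mem_coe, Finset.mem_filter] at hv hw
    have h2 : ∀ j, j ≠ i → v j = w j := fun j hj => congrFun heq ⟨j, hj⟩
    have h3 : ∑ j, c j • v j = ∑ j, c j • w j := by rw [hv.2, hw.2]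
    rw [← Finset.add_sum_erase Finset.univ _ (Finset.mem_univ i),
      ← Finset.add_sum_erase Finset.univ (fun j => c j • w j) (Finset.mem_univ i)] at h3
    have h4 : ∑ j ∈ Finset.univ.erase i, c j • v j = ∑ j ∈ Finset.univ.erase i, c j • w j := by
      refine Finset.sum_congr rfl fun j hj => ?_
      rw [h2 j (Finset.ne_of_mem_erase hj)]
    rw [h4, hc, one_smul, one_smul] at h3
    have h5 := add_right_cancel h3
    funext j
    by_cases hj : j = i
    · rw [hj]; exact h5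
    · exact h2 j hj
  refine h1.trans (le_of_eq ?_)
  rw [Finset.card_univ, Fintype.card_fun, Fintype.card_fun, ZMod.card, Fintype.card_fin,
    Fintype.card_subtype_compl, Fintype.card_fin, Fintype.card_subtype_eq]

theorem hx_one (n r : ℕ) (hr : 1 ≤ r) :
    (∑ v : Fin r → Fin n → ZMod 2, ind ((1 : Fin n → ZMod 2) ∈ Submodule.span (ZMod 2) (Set.range v) ∧
      LinearIndependent (ZMod 2) v)) ≤ (2 : ℝ) ^ r * ((2 : ℝ) ^ n) ^ (r - 1) := by
  classical
  rw [b3_sum_ind]
  have h1 : (Finset.univ.filter fun v : Fin r → Fin n → ZMod 2 =>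
      (1 : Fin n → ZMod 2) ∈ Submodule.span (ZMod 2) (Set.range v) ∧ LinearIndependent (ZMod 2) v) ⊆
      ((Finset.univ : Finset (Fin r → ZMod 2)).filter fun c => ∃ i, c i = 1).biUnion fun c =>
        Finset.univ.filter fun v : Fin r → Fin n → ZMod 2 => ∑ j, c j • v j = 1 := by
    intro v hv
    obtain ⟨h2, h3⟩ := (Finset.mem_filter.1 hv).2
    rw [Submodule.mem_span_range_iff_exists_fun] at h2
    obtain ⟨c, hc⟩ := h2
    refine Finset.mem_biUnion.2 ⟨c, Finset.mem_filter.2 ⟨Finset.mem_univ _, ?_⟩,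
      Finset.mem_filter.2 ⟨Finset.mem_univ _, hc⟩⟩
    by_contra hno
    push Not at hno
    have h01 : ∀ x : ZMod 2, x ≠ 1 → x = 0 := by decide
    have h4 : (1 : Fin n → ZMod 2) = 0 := by
      rw [← hc]
      refine Finset.sum_eq_zero fun j _ => ?_
      rw [h01 _ (hno j), zero_smul]
    have h5 := h3.ne_zero ⟨0, hr⟩
    apply h5
    funext x
    have h6 := congrFun h4 x
    rw [Pi.one_apply, Pi.zero_apply] at h6
    exact absurd h6 one_ne_zero
  have h2 := (Finset.card_le_card h1).trans Finset.card_biUnion_le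
  have h3 : ∑ c ∈ (Finset.univ : Finset (Fin r → ZMod 2)).filter (fun c => ∃ i, c i = 1),
      (Finset.univ.filter fun v : Fin r → Fin n → ZMod 2 => ∑ j, c j • v j = 1).card ≤
      ∑ c ∈ (Finset.univ : Finset (Fin r → ZMod 2)).filter (fun c => ∃ i, c i = 1), (2 ^ n) ^ (r - 1) := by
    refine Finset.sum_le_sum fun c hc => ?_
    obtain ⟨i, hi⟩ := (Finset.mem_filter.1 hc).2
    exact hx_comb n r c i hi 1
  have h4 : ∑ c ∈ (Finset.univ : Finset (Fin r → ZMod 2)).filter (fun c => ∃ i, c i = 1), (2 ^ n) ^ (r - 1) ≤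
      2 ^ r * (2 ^ n) ^ (r - 1) := by
    rw [Finset.sum_const, smul_eq_mul]
    refine Nat.mul_le_mul_right _ ?_
    refine (Finset.card_le_univ _).trans (le_of_eq ?_)
    rw [Fintype.card_fun, ZMod.card, Fintype.card_fin]
  exact_mod_cast h2.trans (h3.trans h4)

theorem hx_trans (n r : ℕ) (C : Matrix (Fin r) (Fin r) (ZMod 2)) :
    (∑ V : Matrix (Fin n) (Fin r) (ZMod 2), ind (FullRank V ∧ IsAlt (V.transpose * V * C))) =
    ∑ v : Fin r → Fin n → ZMod 2, ind (LinearIndependent (ZMod 2) v ∧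
      IsAlt ((Matrix.of fun i j => v i ⬝ᵥ v j) * C)) := by
  refine Fintype.sum_equiv (Matrix.transposeAddEquiv (Fin n) (Fin r) (ZMod 2)).toEquiv _ _ fun V => ind_congr ?_
  refine and_congr Iff.rfl ?_
  have h : V.transpose * V = Matrix.of fun i j => (V.transpose i) ⬝ᵥ (V.transpose j) := by
    ext i j
    rfl
  rw [h]
  exact Iff.rfl

theorem hx_other (n : ℕ) (f : (ZMod 2)[X]) (hf : f.Monic) (hr : 1 ≤ f.natDegree) :
    (∑ v : Fin f.natDegree → Fin n → ZMod 2, ind (LinearIndependent (ZMod 2) v ∧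
      (1 : Fin n → ZMod 2) ∉ Submodule.span (ZMod 2) (Set.range v) ∧
      IsAlt ((Matrix.of fun i j => v i ⬝ᵥ v j) * Pool.H64.IR.comp f))) ≤
    (2 : ℝ) ^ ((f.natDegree + 1) / 2) *
      (((2 : ℝ) ^ n) ^ f.natDegree / (2 : ℝ) ^ (f.natDegree * (f.natDegree + 1) / 2)) := by
  classical
  have h1 : ∀ v : Fin f.natDegree → Fin n → ZMod 2, ind (LinearIndependent (ZMod 2) v ∧
      (1 : Fin n → ZMod 2) ∉ Submodule.span (ZMod 2) (Set.range v) ∧
      IsAlt ((Matrix.of fun i j => v i ⬝ᵥ v j) * Pool.H64.IR.comp f)) ≤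
      ∑ S : Matrix (Fin f.natDegree) (Fin f.natDegree) (ZMod 2),
        ind (S.IsSymm ∧ IsAlt (S * Pool.H64.IR.comp f)) *
        ind (LinearIndependent (ZMod 2) v ∧ (1 : Fin n → ZMod 2) ∉ Submodule.span (ZMod 2) (Set.range v) ∧
          ∀ i j, v i ⬝ᵥ v j = S i j) := by
    intro v
    by_cases hv : LinearIndependent (ZMod 2) v ∧
      (1 : Fin n → ZMod 2) ∉ Submodule.span (ZMod 2) (Set.range v) ∧
      IsAlt ((Matrix.of fun i j => v i ⬝ᵥ v j) * Pool.H64.IR.comp f)
    · refine le_trans (le_of_eq ?_) (Finset.single_le_sum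
        (f := fun S : Matrix (Fin f.natDegree) (Fin f.natDegree) (ZMod 2) =>
        ind (S.IsSymm ∧ IsAlt (S * Pool.H64.IR.comp f)) *
        ind (LinearIndependent (ZMod 2) v ∧ (1 : Fin n → ZMod 2) ∉ Submodule.span (ZMod 2) (Set.range v) ∧
          ∀ i j, v i ⬝ᵥ v j = S i j)) (fun S _ => mul_nonneg (ind_nonneg _) (ind_nonneg _))
        (Finset.mem_univ (Matrix.of fun i j => v i ⬝ᵥ v j)))
      rw [ind_true hv, ind_true, ind_true, one_mul]
      · exact ⟨hv.1, hv.2.1, fun i j => rfl⟩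
      · refine ⟨?_, hv.2.2⟩
        ext i j
        change v j ⬝ᵥ v i = v i ⬝ᵥ v j
        exact dotProduct_comm _ _
    · rw [ind_false hv]
      exact Finset.sum_nonneg fun S _ => mul_nonneg (ind_nonneg _) (ind_nonneg _)
  refine (Finset.sum_le_sum fun v _ => h1 v).trans ?_
  rw [Finset.sum_comm]
  have h2 : ∀ S : Matrix (Fin f.natDegree) (Fin f.natDegree) (ZMod 2),
      ∑ v : Fin f.natDegree → Fin n → ZMod 2, ind (S.IsSymm ∧ IsAlt (S * Pool.H64.IR.comp f)) *
        ind (LinearIndependent (ZMod 2) v ∧ (1 : Fin n → ZMod 2) ∉ Submodule.span (ZMod 2) (Set.range v) ∧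
          ∀ i j, v i ⬝ᵥ v j = S i j) ≤ ind (S.IsSymm ∧ IsAlt (S * Pool.H64.IR.comp f)) *
      (((2 : ℝ) ^ n) ^ f.natDegree / (2 : ℝ) ^ (f.natDegree * (f.natDegree + 1) / 2)) := by
    intro S
    rw [← Finset.mul_sum]
    exact mul_le_mul_of_nonneg_left (b3_A_le n f.natDegree S) (ind_nonneg _)
  refine (Finset.sum_le_sum fun S _ => h2 S).trans ?_
  rw [← Finset.sum_mul]
  exact mul_le_mul_of_nonneg_right (hx_count f hf hr) (by positivity)

theorem sm_x1 (f : (ZMod 2)[X]) (hf : f.Monic) (hr : 1 ≤ f.natDegree) : ∃ n0 : ℕ, ∀ n : ℕ, n0 ≤ n →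
    avg (fun b : Edge n → Bool => X1 f (adj (ZMod 2) b)) ≤ (2 : ℝ) ^ ((f.natDegree + 1) / 2) + 1 := by
  refine ⟨f.natDegree + f.natDegree * (f.natDegree + 1) / 2, fun n hn => ?_⟩
  have h1 : avg (fun b : Edge n → Bool => X1 f (adj (ZMod 2) b)) =
      avg (fun b : Edge n → Bool => XC (Pool.H64.IR.comp f) (adj (ZMod 2) b)) := by
    congr 1
    funext b
    rw [cmp1 f hf]
  rw [h1, a2m, hx_trans, Fintype.card_fin]
  have h2 : (∑ v : Fin f.natDegree → Fin n → ZMod 2, ind (LinearIndependent (ZMod 2) v ∧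
      IsAlt ((Matrix.of fun i j => v i ⬝ᵥ v j) * Pool.H64.IR.comp f))) ≤
      (2 : ℝ) ^ f.natDegree * ((2 : ℝ) ^ n) ^ (f.natDegree - 1) + (2 : ℝ) ^ ((f.natDegree + 1) / 2) *
      (((2 : ℝ) ^ n) ^ f.natDegree / (2 : ℝ) ^ (f.natDegree * (f.natDegree + 1) / 2)) := by
    refine le_trans ?_ (add_le_add (hx_one n f.natDegree hr) (hx_other n f hf hr))
    rw [← Finset.sum_add_distrib]
    refine Finset.sum_le_sum fun v _ => ?_
    refine le_trans (ind_mono ?_) (ind_or_le _ _)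
    rintro ⟨h3, h4⟩
    by_cases h5 : (1 : Fin n → ZMod 2) ∈ Submodule.span (ZMod 2) (Set.range v)
    · exact Or.inl ⟨h5, h3⟩
    · exact Or.inr ⟨h3, h5, h4⟩
  set T := f.natDegree * (f.natDegree + 1) / 2 with hT
  set r := f.natDegree with hr'
  refine (mul_le_mul_of_nonneg_right h2 (by positivity)).trans ?_
  obtain ⟨m, hm⟩ : ∃ m, r = m + 1 := ⟨r - 1, by omega⟩
  have h3 : (2 : ℝ) ^ r * ((2 : ℝ) ^ n) ^ (r - 1) * ((2 : ℝ) ^ T / ((2 : ℝ) ^ n) ^ r) = (2 : ℝ) ^ (r + T) / 2 ^ n := by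
    have h4 : r - 1 = m := by omega
    rw [h4, pow_add (2 : ℝ) r T]
    have h5 : ((2 : ℝ) ^ n) ^ r = ((2 : ℝ) ^ n) ^ m * 2 ^ n := by rw [hm, pow_succ]
    rw [h5]
    field_simp
  have h6 : (2 : ℝ) ^ (r + T) / 2 ^ n ≤ 1 := by
    rw [div_le_one (by positivity)]
    exact pow_le_pow_right₀ (by norm_num) hn
  have h7 : (2 : ℝ) ^ ((r + 1) / 2) * (((2 : ℝ) ^ n) ^ r / (2 : ℝ) ^ T) * ((2 : ℝ) ^ T / ((2 : ℝ) ^ n) ^ r) =
      (2 : ℝ) ^ ((r + 1) / 2) := by
    field_simp
  rw [add_mul, h3, h7]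
  linarith

end Pool.H86.UD
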