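import Mathlib
import Pool.Agent.H86.UD.DimG
import Pool.Agent.H86.UD.HanX

/-! MODULE SmoP (project UD of helper86, MP_a758cf_pr).
Uses DimG.dimG and HanX.sm_x1 (cite them; they may still be sorry).
(a) sp_ker: g monic irreducible: every z killed by g^m has annihilator (g^i) for some i <= m (least i with
g(A)^i z = 0; the annihilator ideal contains g^m, so it is generated by a divisor of g^m), so
kerc (g^m) A <= sum_{i<=m} X1 (g^i) A.
(b) fix g monic irreducible of degree d >= 1 and m: X1 1 = 1 (`prm1_one`), for i >= 1 sm_x1 for g^i (degree i d):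
avg kerc(g^m) <= 1 + sum_{i=1}^m (2^((i d+1)/2) + 1) <= 1 + 2 m 2^((m d+1)/2) for n >= n0(g,m); on the event g^m | charpoly
dimG gives kerc(g^m) >= 2^(d m). Markov (`pr_markov`): pr <= (1 + 2 m 2^((m d+1)/2))/2^(d m) <= 8 m / 2^((m-1)/2)
(real exponents or squares), which tends to 0 uniformly in d >= 1.
(c) smooth: the g in question are in the finite set RR 2 0 D (irreducible implies degree >= 1); choose m with
card(RR 2 0 D) * (bound (b)) <= e, n0 = max; `pr_exists_le`. -/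

set_option autoImplicit false


namespace Pool.H86.UD

open Finset Polynomial Pool.H64.IR

theorem sp_ann {n : ℕ} (g : (ZMod 2)[X]) (hi : Irreducible g) (m : ℕ)
    (A : Matrix (Fin n) (Fin n) (ZMod 2)) (z : Fin n → ZMod 2)
    (hz : (aeval A (g ^ m)).mulVec z = 0) : ∃ i ∈ Finset.range (m + 1), IsAnn A z (g ^ i) := by
  classical
  have hex : ∃ i, (aeval A (g ^ i)).mulVec z = 0 := ⟨m, hz⟩
  have h1 := Nat.find_spec hex
  have h2 : ∀ j, (aeval A (g ^ j)).mulVec z = 0 → Nat.find hex ≤ j := fun j hj => Nat.find_min' hex hj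
  obtain ⟨i, hi0⟩ : ∃ i, i = Nat.find hex := ⟨_, rfl⟩
  rw [← hi0] at h1 h2
  refine ⟨i, Finset.mem_range.2 (Nat.lt_succ_of_le (h2 m hz)), ?_⟩
  intro h
  constructor
  · intro hh
    have hd : (aeval A (EuclideanDomain.gcd h (g ^ i))).mulVec z = 0 := by
      rw [EuclideanDomain.gcd_eq_gcd_ab h (g ^ i), map_add, Matrix.add_mulVec,
        mul_comm h, mul_comm (g ^ i), prm1_act, prm1_act, hh, h1, Matrix.mulVec_zero,
        Matrix.mulVec_zero, add_zero]
    obtain ⟨j, hj, hass⟩ := (dvd_prime_pow hi.prime i).1 (EuclideanDomain.gcd_dvd_right h (g ^ i))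
    obtain ⟨c, hc⟩ := hass.dvd
    have h3 : (aeval A (g ^ j)).mulVec z = 0 := by
      rw [hc, mul_comm, prm1_act, hd, Matrix.mulVec_zero]
    have h4 : j = i := le_antisymm hj (h2 j h3)
    rw [h4] at hass
    exact hass.symm.dvd.trans (EuclideanDomain.gcd_dvd_left h (g ^ i))
  · rintro ⟨c, rfl⟩
    rw [mul_comm, prm1_act, h1, Matrix.mulVec_zero]

theorem sp_ker {n : ℕ} (g : (ZMod 2)[X]) (hg : g.Monic) (hi : Irreducible g) (m : ℕ)
    (A : Matrix (Fin n) (Fin n) (ZMod 2)) : kerc (g ^ m) A ≤ ∑ i ∈ Finset.range (m + 1), X1 (g ^ i) A := by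
  unfold kerc X1
  rw [Finset.sum_comm]
  refine Finset.sum_le_sum fun z _ => ?_
  exact (ind_mono (sp_ann g hi m A z)).trans (ind_exists_le _ _)

/-- one irreducible polynomial -/
theorem sp_one (g : (ZMod 2)[X]) (hg : g.Monic) (hi : Irreducible g) (hd : 1 ≤ g.natDegree) (m : ℕ) :
    ∃ n0 : ℕ, ∀ n : ℕ, n0 ≤ n →
      pr (fun b : Edge n → Bool => g ^ m ∣ (adj (ZMod 2) b).charpoly) ≤
        (1 + m * ((2 : ℝ) ^ ((m * g.natDegree + 1) / 2) + 1)) / ((2 : ℝ) ^ g.natDegree) ^ m := by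
  classical
  have hx : ∀ i : ℕ, ∃ n0 : ℕ, 1 ≤ i → ∀ n : ℕ, n0 ≤ n →
      avg (fun b : Edge n → Bool => X1 (g ^ i) (adj (ZMod 2) b)) ≤
        (2 : ℝ) ^ ((i * g.natDegree + 1) / 2) + 1 := by
    intro i
    by_cases h : 1 ≤ i
    · have h1 : (g ^ i).natDegree = i * g.natDegree := hg.natDegree_pow i
      have h2 : 1 ≤ (g ^ i).natDegree := by
        rw [h1]
        exact Nat.mul_pos h hd
      obtain ⟨n0, hn0⟩ := sm_x1 (g ^ i) (hg.pow i) h2
      refine ⟨n0, fun _ n hn => ?_⟩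
      have h3 := hn0 n hn
      rw [h1] at h3
      exact h3
    · exact ⟨0, fun h' => absurd h' h⟩
  choose N hN using hx
  refine ⟨(Finset.range (m + 1)).sup N, fun n hn => ?_⟩
  have hpow : (0 : ℝ) < ((2 : ℝ) ^ g.natDegree) ^ m := by positivity
  refine (pr_markov (fun b : Edge n → Bool => g ^ m ∣ (adj (ZMod 2) b).charpoly)
    (fun b => kerc (g ^ m) (adj (ZMod 2) b)) (fun b => Finset.sum_nonneg fun z _ => ind_nonneg _)
    (((2 : ℝ) ^ g.natDegree) ^ m) hpow (fun b hb => ?_)).trans ?_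
  · have := dimG g hg hi m (adj (ZMod 2) b) hb
    simpa using this
  · refine div_le_div_of_nonneg_right ?_ hpow.le
    calc avg (fun b : Edge n → Bool => kerc (g ^ m) (adj (ZMod 2) b))
        ≤ avg (fun b : Edge n → Bool => ∑ i ∈ Finset.range (m + 1), X1 (g ^ i) (adj (ZMod 2) b)) :=
          avg_mono fun b => sp_ker g hg hi m _
      _ = ∑ i ∈ Finset.range (m + 1), avg (fun b : Edge n → Bool => X1 (g ^ i) (adj (ZMod 2) b)) :=
          avg_sum _ _
      _ = ∑ i ∈ Finset.range m, avg (fun b : Edge n → Bool => X1 (g ^ (i + 1)) (adj (ZMod 2) b)) + 1 := by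
          rw [Finset.sum_range_succ']
          congr 1
          rw [pow_zero]
          have : (fun b : Edge n → Bool => X1 (1 : (ZMod 2)[X]) (adj (ZMod 2) b)) = fun _ => 1 := by
            funext b
            exact prm1_one _
          rw [this, avg_const]
      _ ≤ ∑ _i ∈ Finset.range m, ((2 : ℝ) ^ ((m * g.natDegree + 1) / 2) + 1) + 1 := by
          refine add_le_add ?_ le_rfl
          refine Finset.sum_le_sum fun i hi' => ?_
          rw [Finset.mem_range] at hi'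
          have h1 : N (i + 1) ≤ n :=
            (Finset.le_sup (f := N) (Finset.mem_range.2 (by omega))).trans hn
          refine (hN (i + 1) (by omega) n h1).trans (add_le_add ?_ le_rfl)
          refine pow_le_pow_right₀ (by norm_num) ?_
          have h2 : (i + 1) * g.natDegree ≤ m * g.natDegree := Nat.mul_le_mul_right _ (by omega)
          omega
      _ = 1 + m * ((2 : ℝ) ^ ((m * g.natDegree + 1) / 2) + 1) := by
          rw [Finset.sum_const, Finset.card_range, nsmul_eq_mul]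
          ring

theorem sp_num (l d : ℕ) (hl : 1 ≤ l) (hd : 1 ≤ d) :
    (1 + ((4 * l : ℕ) : ℝ) * ((2 : ℝ) ^ ((4 * l * d + 1) / 2) + 1)) / ((2 : ℝ) ^ d) ^ (4 * l) ≤ 9 / l := by
  have h1 : (4 * l * d + 1) / 2 = 2 * (l * d) := by
    have : 4 * l * d = 4 * (l * d) := by ring
    rw [this]
    omega
  have h2 : ((2 : ℝ) ^ d) ^ (4 * l) = ((2 : ℝ) ^ (l * d)) ^ 4 := by
    rw [← pow_mul, ← pow_mul]
    congr 1
    ring
  have h3 : (2 : ℝ) ^ (2 * (l * d)) = ((2 : ℝ) ^ (l * d)) ^ 2 := by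
    rw [← pow_mul]
    congr 1
    ring
  rw [h1, h2, h3]
  obtain ⟨x, hx⟩ : ∃ x : ℝ, x = (2 : ℝ) ^ (l * d) := ⟨_, rfl⟩
  rw [← hx]
  have hl0 : (0 : ℝ) < l := by exact_mod_cast hl
  have hl1 : (1 : ℝ) ≤ l := by exact_mod_cast hl
  have hxl : (l : ℝ) ≤ x := by
    rw [hx]
    have h4 : l ≤ l * d := Nat.le_mul_of_pos_right l hd
    have h5 : l * d < 2 ^ (l * d) := Nat.lt_two_pow_self
    have h6 : l ≤ 2 ^ (l * d) := h4.trans h5.le
    exact_mod_cast h6
  have hx0 : 0 < x := hl0.trans_le hxl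
  have hx1 : 1 ≤ x := hl1.trans hxl
  rw [div_le_div_iff₀ (by positivity) hl0]
  push_cast
  have hx2 : 1 ≤ x ^ 2 := one_le_pow₀ hx1
  have h7 : 1 + 4 * (l : ℝ) * (x ^ 2 + 1) ≤ 9 * l * x ^ 2 := by
    have h8 : (l : ℝ) ≤ l * x ^ 2 := le_mul_of_one_le_right hl0.le hx2
    nlinarith
  have h9 : (l : ℝ) * l ≤ x ^ 2 := by
    rw [pow_two]
    exact mul_le_mul hxl hxl hl0.le hx0.le
  calc (1 + 4 * (l : ℝ) * (x ^ 2 + 1)) * l ≤ (9 * l * x ^ 2) * l :=
        mul_le_mul_of_nonneg_right h7 hl0.le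
    _ = 9 * x ^ 2 * (l * l) := by ring
    _ ≤ 9 * x ^ 2 * x ^ 2 := mul_le_mul_of_nonneg_left h9 (by positivity)
    _ = 9 * x ^ 4 := by ring

theorem smooth (D : ℕ) (e : ℝ) (he : 0 < e) : ∃ m n0 : ℕ, ∀ n : ℕ, n0 ≤ n →
    pr (fun b : Edge n → Bool => ∃ g : (ZMod 2)[X], g.Monic ∧ Irreducible g ∧ g.natDegree ≤ D ∧
      g ^ m ∣ (adj (ZMod 2) b).charpoly) ≤ e := by
  classical
  obtain ⟨R, hR⟩ : ∃ R : Finset (ZMod 2)[X], R = RR 2 0 D := ⟨_, rfl⟩
  have hc : (0 : ℝ) < R.card + 1 := by positivity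
  obtain ⟨l, hl⟩ := exists_nat_gt (9 / (e / (R.card + 1)))
  have he' : 0 < e / (R.card + 1) := div_pos he hc
  have hl0 : (0 : ℝ) < l := lt_trans (by positivity) hl
  have hl1 : 1 ≤ l := by exact_mod_cast hl0
  have hle : 9 / (l : ℝ) ≤ e / (R.card + 1) := by
    rw [div_lt_iff₀ he'] at hl
    rw [div_le_iff₀ hl0]
    linarith
  have hx : ∀ g : (ZMod 2)[X], ∃ n0 : ℕ, g ∈ R → ∀ n : ℕ, n0 ≤ n →
      pr (fun b : Edge n → Bool => g ^ (4 * l) ∣ (adj (ZMod 2) b).charpoly) ≤ e / (R.card + 1) := by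
    intro g
    by_cases hgR : g ∈ R
    · have hg := hgR
      rw [hR, mem_rr] at hg
      obtain ⟨n0, hn0⟩ := sp_one g hg.1 hg.2.1 hg.2.2.1 (4 * l)
      refine ⟨n0, fun _ n hn => (hn0 n hn).trans ((sp_num l g.natDegree hl1 hg.2.2.1).trans hle)⟩
    · exact ⟨0, fun h => absurd h hgR⟩
  choose N hN using hx
  refine ⟨4 * l, R.sup N, fun n hn => ?_⟩
  calc pr (fun b : Edge n → Bool => ∃ g : (ZMod 2)[X], g.Monic ∧ Irreducible g ∧ g.natDegree ≤ D ∧
      g ^ (4 * l) ∣ (adj (ZMod 2) b).charpoly)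
      ≤ pr (fun b : Edge n → Bool => ∃ g ∈ R, g ^ (4 * l) ∣ (adj (ZMod 2) b).charpoly) := by
        refine pr_mono fun b hb => ?_
        obtain ⟨g, h1, h2, h3, h4⟩ := hb
        refine ⟨g, ?_, h4⟩
        rw [hR, mem_rr]
        exact ⟨h1, h2, h2.natDegree_pos, h3⟩
    _ ≤ ∑ g ∈ R, pr (fun b : Edge n → Bool => g ^ (4 * l) ∣ (adj (ZMod 2) b).charpoly) :=
        pr_exists_le R _
    _ ≤ ∑ _g ∈ R, e / (R.card + 1) := by
        refine Finset.sum_le_sum fun g hg => ?_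
        exact hN g hg n ((Finset.le_sup (f := N) hg).trans hn)
    _ = R.card * (e / (R.card + 1)) := by
        rw [Finset.sum_const, nsmul_eq_mul]
    _ ≤ e := by
        rw [mul_div_assoc', div_le_iff₀ hc]
        nlinarith

end Pool.H86.UD
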