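import Mathlib
import Pool.Agent.H86.UD.FmoM
import Pool.Agent.H86.UD.AnaS

/-! MODULE UniK (project UD of helper86, MP_a758cf_pr). Uses FmoM.fm_pr and AnaS.as_le.
Union bound for one degree k in [theta n, (1-theta) n], at most M factors, windows of width B.
For disjoint s, t in RR 2 D n (degrees > D >= 1): pr(all g in s ∪ t divide the charpoly) <= 2 bt(s ∪ t) = 2 bt s bt t, and if
|s| + |t| <= M this is <= 2 * 2^M * ((1/2)^|s| bt s) * ((1/2)^|t| bt t). Sum over the pairs, grouped by i = dg s and j = dg t: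
pr <= 2^(M+1) sum_{i : 2i <= k <= 2i+B} sum_{j : 2(i+j) <= n <= 2(i+j)+B} a_i a_j, a = aS D n (1/2). Each of the two index
sets has at most B + 1 elements. i >= (k-B)/2 >= theta n/4 and j >= (n-B)/2 - i >= (n-B-k)/2 >= theta n/4 (as 2B <= theta n). With
w = (1/2)(1 + 1/2^D) in [1/2, 3/4]: as_le: a_i <= w exp w i^(w-1) <= 2 (theta n/4)^(w-1) <= 4 (theta n)^(w-1) (w exp w <= 2,
4^(1-w) <= 2, w - 1 < 0); product of two: 16 (theta n)^(2w-2), 2w - 2 = 1/2^D - 1. -/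

set_option autoImplicit false

namespace Pool.H86.UD

open Finset Polynomial Pool.H64.IR

/-- the weight `(1/2)^|s| * bt s` -/
noncomputable def uk_w (s : Finset (ZMod 2)[X]) : ℝ := ((1 : ℝ) / 2) ^ s.card * bt s

theorem uk_w_nonneg (s : Finset (ZMod 2)[X]) : 0 ≤ uk_w s :=
  mul_nonneg (by positivity) (bt_nonneg s)

/-- one pair of disjoint sets -/
theorem uk_pair (D n M : ℕ) (hD : 1 ≤ D) (s t : Finset (ZMod 2)[X]) (hs : s ⊆ RR 2 D n) (ht : t ⊆ RR 2 D n)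
    (hd : Disjoint s t) (hM : s.card + t.card ≤ M) :
    pr (fun b : Edge n → Bool => ∀ g, g ∈ s ∨ g ∈ t → g ∣ (adj (ZMod 2) b).charpoly) ≤
      (2 : ℝ) ^ (M + 1) * (uk_w s * uk_w t) := by
  classical
  have h1 := fm_pr n (s ∪ t) (fun g hg => by
    have h6 := (mem_rr g).1 ((Finset.union_subset hs ht) hg)
    exact ⟨h6.1, h6.2.1, by omega⟩)
  have h2 : pr (fun b : Edge n → Bool => ∀ g, g ∈ s ∨ g ∈ t → g ∣ (adj (ZMod 2) b).charpoly) ≤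
      pr (fun b : Edge n → Bool => ∀ g ∈ s ∪ t, g ∣ (adj (ZMod 2) b).charpoly) :=
    pr_mono fun b hb g hg => hb g (Finset.mem_union.1 hg)
  have h3 : bt (s ∪ t) = bt s * bt t := by
    unfold bt
    exact Finset.prod_union hd
  have h4 : (1 : ℝ) ≤ 2 ^ M * (((1 : ℝ) / 2) ^ s.card * ((1 : ℝ) / 2) ^ t.card) := by
    rw [← pow_add]
    have h5 : ((1 : ℝ) / 2) ^ M ≤ ((1 : ℝ) / 2) ^ (s.card + t.card) :=
      pow_le_pow_of_le_one (by norm_num) (by norm_num) hM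
    calc (1 : ℝ) = 2 ^ M * ((1 : ℝ) / 2) ^ M := by rw [← mul_pow]; norm_num
      _ ≤ _ := mul_le_mul_of_nonneg_left h5 (by positivity)
  have h6 : 0 ≤ bt s * bt t := mul_nonneg (bt_nonneg s) (bt_nonneg t)
  calc pr (fun b : Edge n → Bool => ∀ g, g ∈ s ∨ g ∈ t → g ∣ (adj (ZMod 2) b).charpoly)
      ≤ 2 * (bt s * bt t) := by rw [← h3]; exact h2.trans h1
    _ ≤ 2 * ((2 ^ M * (((1 : ℝ) / 2) ^ s.card * ((1 : ℝ) / 2) ^ t.card)) * (bt s * bt t)) := by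
        nlinarith [mul_le_mul_of_nonneg_right h4 h6]
    _ = (2 : ℝ) ^ (M + 1) * (uk_w s * uk_w t) := by
        unfold uk_w
        rw [pow_succ]
        ring

/-- the sum over all pairs with given degrees -/
theorem uk_fib (D n i j : ℕ) (P : Finset (Finset (ZMod 2)[X] × Finset (ZMod 2)[X]))
    (hP : ∀ p ∈ P, p.1 ⊆ RR 2 D n ∧ p.2 ⊆ RR 2 D n ∧ dg p.1 = i ∧ dg p.2 = j) :
    ∑ p ∈ P, uk_w p.1 * uk_w p.2 ≤ aS D n (1 / 2) i * aS D n (1 / 2) j := by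
  classical
  have h1 : aS D n (1 / 2) i * aS D n (1 / 2) j =
      ∑ p ∈ ((RR 2 D n).powerset.filter (fun s => dg s = i)) ×ˢ ((RR 2 D n).powerset.filter (fun s => dg s = j)),
        uk_w p.1 * uk_w p.2 := by
    unfold aS uk_w
    rw [Finset.sum_mul_sum, ← Finset.sum_product']
  rw [h1]
  refine Finset.sum_le_sum_of_subset_of_nonneg (fun p hp => ?_) (fun p _ _ => mul_nonneg (uk_w_nonneg _) (uk_w_nonneg _))
  obtain ⟨a1, a2, a3, a4⟩ := hP p hp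
  rw [Finset.mem_product, Finset.mem_filter, Finset.mem_filter, Finset.mem_powerset, Finset.mem_powerset]
  exact ⟨⟨a1, a3⟩, ⟨a2, a4⟩⟩

/-- the number of pairs of windows -/
theorem uk_card (B n k : ℕ) (S : Finset (ℕ × ℕ))
    (hS : ∀ q ∈ S, 2 * q.1 ≤ k ∧ k ≤ 2 * q.1 + B ∧ 2 * (q.1 + q.2) ≤ n ∧ n ≤ 2 * (q.1 + q.2) + B) :
    (S.card : ℝ) ≤ ((B : ℝ) + 1) ^ 2 := by
  classical
  have h1 : S.card ≤ ((Finset.range (B + 1)) ×ˢ (Finset.range (B + 1))).card := by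
    refine Finset.card_le_card_of_injOn (fun q => (k - 2 * q.1, n - 2 * (q.1 + q.2))) ?_ ?_
    · intro q hq
      have := hS q hq
      simp only [Finset.coe_product, Finset.coe_range, Set.mem_prod, Set.mem_Iio]
      constructor <;> omega
    · intro q hq q' hq' h
      have a := hS q hq
      have a' := hS q' hq'
      simp only [Prod.mk.injEq] at h
      obtain ⟨x, y⟩ := q
      obtain ⟨x', y'⟩ := q'
      simp only at a a' h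
      have h2 : x = x' := by omega
      have h3 : y = y' := by omega
      rw [h2, h3]
  rw [Finset.card_product, Finset.card_range] at h1
  have h2 : (S.card : ℝ) ≤ (((B + 1) * (B + 1) : ℕ) : ℝ) := by exact_mod_cast h1
  refine h2.trans (le_of_eq ?_)
  push_cast
  ring

/-- one coefficient -/
theorem uk_coef (D n i : ℕ) (θ : ℝ) (hD : 1 ≤ D) (hn : 1 ≤ n) (hθ : 0 < θ) (hi : θ * n / 4 ≤ i) :
    aS D n (1 / 2) i ≤ 4 * (θ * n) ^ ((1 : ℝ) / 2 * (1 + 1 / 2 ^ D) - 1) := by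
  have hn0 : (0 : ℝ) < n := by exact_mod_cast hn
  have hx : 0 < θ * n := mul_pos hθ hn0
  have hi0 : (0 : ℝ) < i := lt_of_lt_of_le (by positivity) hi
  have hi1 : 1 ≤ i := by
    have : 0 < i := by exact_mod_cast hi0
    omega
  have h1 := as_le D n (1 / 2) (by norm_num) i hi1
  obtain ⟨w, hw⟩ : ∃ w : ℝ, w = (1 : ℝ) / 2 * (1 + 1 / 2 ^ D) := ⟨_, rfl⟩
  rw [← hw] at h1 ⊢
  have h2D : (2 : ℝ) ≤ 2 ^ D := by
    calc (2 : ℝ) = 2 ^ 1 := by norm_num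
      _ ≤ 2 ^ D := pow_le_pow_right₀ (by norm_num) hD
  have hd0 : (0 : ℝ) < 1 / 2 ^ D := by positivity
  have hd1 : (1 : ℝ) / 2 ^ D ≤ 1 / 2 := one_div_le_one_div_of_le (by norm_num) h2D
  have hw1 : 1 / 2 ≤ w := by rw [hw]; linarith
  have hw2 : w ≤ 3 / 4 := by rw [hw]; linarith
  have he : Real.exp w ≤ 8 / 3 := by
    have h3 : Real.exp (3 / 4) ^ 4 = Real.exp 1 ^ 3 := by
      rw [← Real.exp_nat_mul, ← Real.exp_nat_mul]
      congr 1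
      norm_num
    have h4 : Real.exp 1 < 2.7182818286 := Real.exp_one_lt_d9
    have h5 : Real.exp 1 ^ 3 ≤ 2.7182818286 ^ 3 := pow_le_pow_left₀ (Real.exp_pos 1).le h4.le 3
    have h6 : Real.exp (3 / 4) ≤ 8 / 3 := by
      by_contra hcon
      push Not at hcon
      have h7 : ((8 : ℝ) / 3) ^ 4 ≤ Real.exp (3 / 4) ^ 4 := pow_le_pow_left₀ (by norm_num) hcon.le 4
      rw [h3] at h7
      have h8 := h7.trans h5
      norm_num at h8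
    exact (Real.exp_le_exp.2 hw2).trans h6
  have h3 : w * Real.exp w ≤ 2 := by
    calc w * Real.exp w ≤ (3 / 4) * (8 / 3) := mul_le_mul hw2 he (Real.exp_pos w).le (by norm_num)
      _ = 2 := by norm_num
  have h4 : (i : ℝ) ^ (w - 1) ≤ (θ * n / 4) ^ (w - 1) :=
    Real.rpow_le_rpow_of_nonpos (by positivity) hi (by linarith)
  have h5 : (θ * n / 4) ^ (w - 1) ≤ 2 * (θ * n) ^ (w - 1) := by
    rw [Real.div_rpow hx.le (by norm_num)]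
    have h6 : (1 : ℝ) / 2 ≤ 4 ^ (w - 1) := by
      have h7 : (4 : ℝ) ^ (-(1 : ℝ) / 2) ≤ 4 ^ (w - 1) :=
        Real.rpow_le_rpow_of_exponent_le (by norm_num) (by linarith)
      have h8 : (4 : ℝ) ^ (-(1 : ℝ) / 2) = 1 / 2 := by
        have h9 : (4 : ℝ) = 2 ^ (2 : ℝ) := by norm_num
        rw [h9, ← Real.rpow_mul (by norm_num)]
        norm_num
      rw [← h8]
      exact h7
    have h10 : (0 : ℝ) < 4 ^ (w - 1) := Real.rpow_pos_of_pos (by norm_num) _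
    rw [div_le_iff₀ h10]
    have h11 : 0 ≤ (θ * n) ^ (w - 1) := (Real.rpow_pos_of_pos hx _).le
    nlinarith
  have h6 : 0 ≤ (i : ℝ) ^ (w - 1) := (Real.rpow_pos_of_pos hi0 _).le
  calc aS D n (1 / 2) i ≤ w * Real.exp w * (i : ℝ) ^ (w - 1) := h1
    _ ≤ 2 * (i : ℝ) ^ (w - 1) := mul_le_mul_of_nonneg_right h3 h6
    _ ≤ 2 * (2 * (θ * n) ^ (w - 1)) := mul_le_mul_of_nonneg_left (h4.trans h5) (by norm_num)
    _ = 4 * (θ * n) ^ (w - 1) := by ring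

theorem uni_k (D B n k M : ℕ) (θ : ℝ) (hD : 1 ≤ D) (hn : 1 ≤ n) (hθ : 0 < θ) (hk1 : θ * n ≤ k)
    (hk2 : (k : ℝ) ≤ (1 - θ) * n) (hB : (2 * B : ℝ) ≤ θ * n) :
    pr (fun b : Edge n → Bool => ∃ s t : Finset (ZMod 2)[X], s ⊆ RR 2 D n ∧ t ⊆ RR 2 D n ∧ Disjoint s t ∧
      (∀ g, g ∈ RF D n b ↔ g ∈ s ∨ g ∈ t) ∧ s.card + t.card ≤ M ∧
      2 * dg s ≤ k ∧ k ≤ 2 * dg s + B ∧ 2 * (dg s + dg t) ≤ n ∧ n ≤ 2 * (dg s + dg t) + B) ≤
      (2 : ℝ) ^ (M + 1) * ((B : ℝ) + 1) ^ 2 * (16 * (θ * n) ^ ((1 : ℝ) / 2 ^ D - 1)) := by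
  classical
  have hn0 : (0 : ℝ) < n := by exact_mod_cast hn
  have hx : 0 < θ * n := mul_pos hθ hn0
  set P : Finset (Finset (ZMod 2)[X] × Finset (ZMod 2)[X]) :=
    ((RR 2 D n).powerset ×ˢ (RR 2 D n).powerset).filter (fun p => Disjoint p.1 p.2 ∧ p.1.card + p.2.card ≤ M ∧
      2 * dg p.1 ≤ k ∧ k ≤ 2 * dg p.1 + B ∧ 2 * (dg p.1 + dg p.2) ≤ n ∧ n ≤ 2 * (dg p.1 + dg p.2) + B) with hPdef
  have hP : ∀ p, p ∈ P ↔ (p.1 ⊆ RR 2 D n ∧ p.2 ⊆ RR 2 D n) ∧ (Disjoint p.1 p.2 ∧ p.1.card + p.2.card ≤ M ∧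
      2 * dg p.1 ≤ k ∧ k ≤ 2 * dg p.1 + B ∧ 2 * (dg p.1 + dg p.2) ≤ n ∧ n ≤ 2 * (dg p.1 + dg p.2) + B) := by
    intro p
    rw [hPdef, Finset.mem_filter, Finset.mem_product, Finset.mem_powerset, Finset.mem_powerset]
  have h1 : pr (fun b : Edge n → Bool => ∃ s t : Finset (ZMod 2)[X], s ⊆ RR 2 D n ∧ t ⊆ RR 2 D n ∧ Disjoint s t ∧
      (∀ g, g ∈ RF D n b ↔ g ∈ s ∨ g ∈ t) ∧ s.card + t.card ≤ M ∧
      2 * dg s ≤ k ∧ k ≤ 2 * dg s + B ∧ 2 * (dg s + dg t) ≤ n ∧ n ≤ 2 * (dg s + dg t) + B) ≤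
      pr (fun b : Edge n → Bool => ∃ p ∈ P, ∀ g, g ∈ p.1 ∨ g ∈ p.2 → g ∣ (adj (ZMod 2) b).charpoly) := by
    refine pr_mono fun b hb => ?_
    obtain ⟨s, t, hs, ht, hd, hRF, hc, a1, a2, a3, a4⟩ := hb
    exact ⟨(s, t), (hP (s, t)).2 ⟨⟨hs, ht⟩, hd, hc, a1, a2, a3, a4⟩, fun g hg => (mem_rf.1 ((hRF g).2 hg)).2⟩
  have h2 : pr (fun b : Edge n → Bool => ∃ p ∈ P, ∀ g, g ∈ p.1 ∨ g ∈ p.2 → g ∣ (adj (ZMod 2) b).charpoly) ≤
      ∑ p ∈ P, (2 : ℝ) ^ (M + 1) * (uk_w p.1 * uk_w p.2) := by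
    refine (pr_exists_le P (fun p (b : Edge n → Bool) =>
      ∀ g, g ∈ p.1 ∨ g ∈ p.2 → g ∣ (adj (ZMod 2) b).charpoly)).trans (Finset.sum_le_sum fun p hp => ?_)
    obtain ⟨⟨hs, ht⟩, hd, hc, -⟩ := (hP p).1 hp
    exact uk_pair D n M hD p.1 p.2 hs ht hd hc
  set S : Finset (ℕ × ℕ) := P.image (fun p => (dg p.1, dg p.2)) with hSdef
  have hS : ∀ q ∈ S, 2 * q.1 ≤ k ∧ k ≤ 2 * q.1 + B ∧ 2 * (q.1 + q.2) ≤ n ∧ n ≤ 2 * (q.1 + q.2) + B := by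
    intro q hq
    rw [hSdef, Finset.mem_image] at hq
    obtain ⟨p, hp, rfl⟩ := hq
    exact ((hP p).1 hp).2.2.2
  have h3 : ∑ p ∈ P, uk_w p.1 * uk_w p.2 ≤ ∑ q ∈ S, aS D n (1 / 2) q.1 * aS D n (1 / 2) q.2 := by
    have h4 : ∑ p ∈ P, uk_w p.1 * uk_w p.2 =
        ∑ q ∈ S, ∑ p ∈ P.filter (fun p => (dg p.1, dg p.2) = q), uk_w p.1 * uk_w p.2 := by
      rw [Finset.sum_fiberwise_of_maps_to]
      intro p hp
      exact Finset.mem_image_of_mem _ hp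
    rw [h4]
    refine Finset.sum_le_sum fun q _ => uk_fib D n q.1 q.2 _ fun p hp => ?_
    rw [Finset.mem_filter] at hp
    obtain ⟨hp1, hp2⟩ := hp
    have h5 := ((hP p).1 hp1).1
    exact ⟨h5.1, h5.2, by rw [← hp2], by rw [← hp2]⟩
  have h4 : ∀ q ∈ S, aS D n (1 / 2) q.1 * aS D n (1 / 2) q.2 ≤ 16 * (θ * n) ^ ((1 : ℝ) / 2 ^ D - 1) := by
    intro q hq
    obtain ⟨a1, a2, a3, a4⟩ := hS q hq
    have b1 : (2 * (q.1 : ℝ)) ≤ k := by exact_mod_cast a1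
    have b2 : (k : ℝ) ≤ 2 * q.1 + B := by exact_mod_cast a2
    have b4 : (n : ℝ) ≤ 2 * (q.1 + q.2) + B := by exact_mod_cast a4
    have c1 := uk_coef D n q.1 θ hD hn hθ (by linarith)
    have c2 := uk_coef D n q.2 θ hD hn hθ (by linarith)
    refine (mul_le_mul c1 c2 (as_nonneg D n _ (by norm_num) _) ?_).trans (le_of_eq ?_)
    · have := (Real.rpow_pos_of_pos hx ((1 : ℝ) / 2 * (1 + 1 / 2 ^ D) - 1)).le
      positivity
    · rw [show (4 * (θ * (n : ℝ)) ^ ((1 : ℝ) / 2 * (1 + 1 / 2 ^ D) - 1)) * (4 * (θ * (n : ℝ)) ^ ((1 : ℝ) / 2 * (1 + 1 / 2 ^ D) - 1)) =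
        16 * ((θ * (n : ℝ)) ^ ((1 : ℝ) / 2 * (1 + 1 / 2 ^ D) - 1) * (θ * (n : ℝ)) ^ ((1 : ℝ) / 2 * (1 + 1 / 2 ^ D) - 1)) by ring,
        ← Real.rpow_add hx]
      congr 2
      ring
  have h5 : 0 ≤ 16 * (θ * n) ^ ((1 : ℝ) / 2 ^ D - 1) := by
    have := (Real.rpow_pos_of_pos hx ((1 : ℝ) / 2 ^ D - 1)).le
    positivity
  have h6 : ∑ q ∈ S, aS D n (1 / 2) q.1 * aS D n (1 / 2) q.2 ≤
      ((B : ℝ) + 1) ^ 2 * (16 * (θ * n) ^ ((1 : ℝ) / 2 ^ D - 1)) := by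
    calc ∑ q ∈ S, aS D n (1 / 2) q.1 * aS D n (1 / 2) q.2 ≤ ∑ q ∈ S, 16 * (θ * n) ^ ((1 : ℝ) / 2 ^ D - 1) :=
          Finset.sum_le_sum h4
      _ = S.card * (16 * (θ * n) ^ ((1 : ℝ) / 2 ^ D - 1)) := by rw [Finset.sum_const, nsmul_eq_mul]
      _ ≤ _ := mul_le_mul_of_nonneg_right (uk_card B n k S hS) h5
  calc _ ≤ ∑ p ∈ P, (2 : ℝ) ^ (M + 1) * (uk_w p.1 * uk_w p.2) := h1.trans h2
    _ = (2 : ℝ) ^ (M + 1) * ∑ p ∈ P, uk_w p.1 * uk_w p.2 := by rw [Finset.mul_sum]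
    _ ≤ (2 : ℝ) ^ (M + 1) * (((B : ℝ) + 1) ^ 2 * (16 * (θ * n) ^ ((1 : ℝ) / 2 ^ D - 1))) :=
        mul_le_mul_of_nonneg_left (h3.trans h6) (by positivity)
    _ = (2 : ℝ) ^ (M + 1) * ((B : ℝ) + 1) ^ 2 * (16 * (θ * n) ^ ((1 : ℝ) / 2 ^ D - 1)) := by ring

end Pool.H86.UD
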