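import Mathlib
import Pool.Agent.H86.UD.SmoP
import Pool.Agent.H86.UD.BadS
import Pool.Agent.H86.UD.DetS
import Pool.Agent.H86.UD.UniK

/-! MODULE Asm (project UD of helper86, MP_a758cf_pr): the final assembly. -/

set_option autoImplicit false

namespace Pool.H86.UD

open Finset Polynomial Pool.H64.IR

theorem asm_dec (C κ e : ℝ) (hκ : 0 < κ) (he : 0 < e) :
    ∃ n0 : ℕ, ∀ n : ℕ, n0 ≤ n → C * Real.exp (-(κ * Real.log n)) ≤ e := by
  have h1 : Filter.Tendsto (fun n : ℕ => C * Real.exp (-(κ * Real.log n))) Filter.atTop (nhds (C * 0)) := by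
    refine Filter.Tendsto.const_mul C ?_
    refine Real.tendsto_exp_neg_atTop_nhds_zero.comp ?_
    exact Filter.Tendsto.const_mul_atTop hκ (Real.tendsto_log_atTop.comp tendsto_natCast_atTop_atTop)
  rw [mul_zero] at h1
  obtain ⟨n0, hn0⟩ := Filter.eventually_atTop.1 (h1.eventually_lt_const he)
  exact ⟨n0, fun n hn => (hn0 n hn).le⟩

theorem asm_term2 (t : ℝ) (ht : 0 < t) (D : ℕ) (hD : t * (1 + 1 / 2 ^ D) < (1 + t) * Real.log (1 + t)) (e : ℝ)
    (he : 0 < e) : ∃ n0 : ℕ, ∀ n : ℕ, n0 ≤ n →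
      2 * Real.exp (t * (1 + 1 / 2 ^ D) * (1 + Real.log n)) / (1 + t) ^ ⌊(1 + t) * Real.log n⌋₊ ≤ e := by
  obtain ⟨n0, hn0⟩ := asm_dec (2 * Real.exp (t * (1 + 1 / 2 ^ D) + Real.log (1 + t)))
    ((1 + t) * Real.log (1 + t) - t * (1 + 1 / 2 ^ D)) e (by linarith) he
  refine ⟨n0, fun n hn => le_trans ?_ (hn0 n hn)⟩
  have h1t : (0 : ℝ) < 1 + t := by linarith
  have hlt : 0 < Real.log (1 + t) := Real.log_pos (by linarith)
  have h1 : Real.exp (Real.log (1 + t) * ((1 + t) * Real.log n - 1)) ≤ (1 + t) ^ ⌊(1 + t) * Real.log n⌋₊ := by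
    rw [← Real.rpow_natCast, Real.rpow_def_of_pos h1t]
    apply Real.exp_le_exp.2
    apply mul_le_mul_of_nonneg_left _ hlt.le
    have := Nat.lt_floor_add_one ((1 + t) * Real.log n)
    linarith
  rw [div_le_iff₀ (by positivity)]
  calc 2 * Real.exp (t * (1 + 1 / 2 ^ D) * (1 + Real.log n))
      = 2 * Real.exp (t * (1 + 1 / 2 ^ D) + Real.log (1 + t)) *
        Real.exp (-(((1 + t) * Real.log (1 + t) - t * (1 + 1 / 2 ^ D)) * Real.log n)) *
        Real.exp (Real.log (1 + t) * ((1 + t) * Real.log n - 1)) := by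
        have h5 : t * (1 + 1 / 2 ^ D) * (1 + Real.log n) = (t * (1 + 1 / 2 ^ D) + Real.log (1 + t)) +
            (-(((1 + t) * Real.log (1 + t) - t * (1 + 1 / 2 ^ D)) * Real.log n)) +
            Real.log (1 + t) * ((1 + t) * Real.log n - 1) := by ring
        rw [h5, Real.exp_add, Real.exp_add]
        ring
    _ ≤ _ := mul_le_mul_of_nonneg_left h1 (by positivity)

theorem asm_term1 (c t θ : ℝ) (D B : ℕ) (ht : 0 < t) (hθ : 0 < θ) (h : c + (1 + t) * Real.log 2 + 1 / 2 ^ D < 1) (e : ℝ)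
    (he : 0 < e) : ∃ n0 : ℕ, ∀ n : ℕ, n0 ≤ n →
      (n : ℝ) ^ c * ((2 : ℝ) ^ (⌊(1 + t) * Real.log n⌋₊ + 1) * ((B : ℝ) + 1) ^ 2 *
        (16 * (θ * n) ^ ((1 : ℝ) / 2 ^ D - 1))) ≤ e := by
  obtain ⟨n0, hn0⟩ := asm_dec (2 * ((B : ℝ) + 1) ^ 2 * (16 * θ ^ ((1 : ℝ) / 2 ^ D - 1)))
    (1 - (c + (1 + t) * Real.log 2 + 1 / 2 ^ D)) e (by linarith) he
  refine ⟨max n0 1, fun n hn => le_trans ?_ (hn0 n (le_trans (le_max_left _ _) hn))⟩
  have hn1 : 1 ≤ n := le_trans (le_max_right _ _) hn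
  have hnr : (0 : ℝ) < n := by exact_mod_cast hn1
  have hL : 0 ≤ Real.log n := Real.log_nonneg (by exact_mod_cast hn1)
  have h2 : (2 : ℝ) ^ (⌊(1 + t) * Real.log n⌋₊ + 1) ≤ 2 * Real.exp (Real.log 2 * ((1 + t) * Real.log n)) := by
    rw [pow_succ, mul_comm]
    apply mul_le_mul_of_nonneg_left _ (by norm_num)
    rw [← Real.rpow_natCast, Real.rpow_def_of_pos (by norm_num)]
    apply Real.exp_le_exp.2
    apply mul_le_mul_of_nonneg_left _ (Real.log_nonneg (by norm_num))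
    exact Nat.floor_le (by positivity)
  have h3 : (n : ℝ) ^ c = Real.exp (Real.log n * c) := Real.rpow_def_of_pos hnr c
  have h4 : (θ * n : ℝ) ^ ((1 : ℝ) / 2 ^ D - 1) = θ ^ ((1 : ℝ) / 2 ^ D - 1) *
      Real.exp (Real.log n * ((1 : ℝ) / 2 ^ D - 1)) := by
    rw [Real.mul_rpow hθ.le hnr.le, Real.rpow_def_of_pos hnr]
  rw [h3, h4]
  have hθp : 0 < θ ^ ((1 : ℝ) / 2 ^ D - 1) := Real.rpow_pos_of_pos hθ _
  calc Real.exp (Real.log n * c) * ((2 : ℝ) ^ (⌊(1 + t) * Real.log n⌋₊ + 1) * ((B : ℝ) + 1) ^ 2 *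
        (16 * (θ ^ ((1 : ℝ) / 2 ^ D - 1) * Real.exp (Real.log n * ((1 : ℝ) / 2 ^ D - 1)))))
      ≤ Real.exp (Real.log n * c) * ((2 * Real.exp (Real.log 2 * ((1 + t) * Real.log n))) * ((B : ℝ) + 1) ^ 2 *
        (16 * (θ ^ ((1 : ℝ) / 2 ^ D - 1) * Real.exp (Real.log n * ((1 : ℝ) / 2 ^ D - 1))))) := by
        gcongr
    _ = 2 * ((B : ℝ) + 1) ^ 2 * (16 * θ ^ ((1 : ℝ) / 2 ^ D - 1)) *
        (Real.exp (Real.log n * c) * Real.exp (Real.log 2 * ((1 + t) * Real.log n)) *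
          Real.exp (Real.log n * ((1 : ℝ) / 2 ^ D - 1))) := by ring
    _ = _ := by
        rw [← Real.exp_add, ← Real.exp_add]
        congr 2
        ring

theorem ud_bits (c ε : ℝ) (hc : c < 1 - Real.log 2) (hε : 0 < ε) : ∃ n0 : ℕ, ∀ n : ℕ, n0 ≤ n →
    ∀ K : Finset ℕ, (∀ k ∈ K, 1 ≤ k ∧ k < n) → (K.card : ℝ) ≤ (n : ℝ) ^ c →
    pr (fun b : Edge n → Bool => ∃ f : ℚ[X], f ∣ (adj ℚ b).charpoly ∧ f.natDegree ∈ K) ≤ ε := by
  classical
  -- parameters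
  obtain ⟨s0, hs0⟩ : ∃ s0, s0 = 1 - Real.log 2 - c := ⟨_, rfl⟩
  have hs0p : 0 < s0 := by linarith
  have hl2 : 0 < Real.log 2 := Real.log_pos (by norm_num)
  have hl21 : Real.log 2 < 1 := by
    have := Real.log_two_lt_d9
    linarith
  obtain ⟨t, ht⟩ : ∃ t, t = min 1 (s0 / 4) := ⟨_, rfl⟩
  have ht0 : 0 < t := by rw [ht]; exact lt_min (by norm_num) (by linarith)
  have ht1 : t ≤ 1 := by rw [ht]; exact min_le_left _ _
  have hts : t ≤ s0 / 4 := by rw [ht]; exact min_le_right _ _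
  have hkap : t < (1 + t) * Real.log (1 + t) := by
    have h1 : 1 - (1 + t)⁻¹ < Real.log (1 + t) := by
      have h2 := Real.add_one_lt_exp (x := -Real.log (1 + t)) (by
        have : 0 < Real.log (1 + t) := Real.log_pos (by linarith)
        linarith)
      rw [Real.exp_neg, Real.exp_log (by linarith)] at h2
      linarith
    have h3 : (1 + t) * (1 - (1 + t)⁻¹) < (1 + t) * Real.log (1 + t) :=
      mul_lt_mul_of_pos_left h1 (by linarith)
    have h4 : (1 + t) * (1 - (1 + t)⁻¹) = t := by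
      have : (1 + t) ≠ 0 := by linarith
      field_simp
      ring
    linarith
  obtain ⟨κ, hκ⟩ : ∃ κ, κ = (1 + t) * Real.log (1 + t) - t := ⟨_, rfl⟩
  have hκ0 : 0 < κ := by linarith
  -- D
  obtain ⟨D, hD1, hDs, hDk, hDe⟩ : ∃ D : ℕ, 1 ≤ D ∧ (1 : ℝ) / 2 ^ D < s0 / 4 ∧ (1 : ℝ) / 2 ^ D < κ ∧
      20 / (2 : ℝ) ^ D ≤ ε / 10 := by
    have hlim : Filter.Tendsto (fun D : ℕ => (1 : ℝ) / 2 ^ D) Filter.atTop (nhds 0) := by
      have := tendsto_pow_atTop_nhds_zero_of_lt_one (r := (1 / 2 : ℝ)) (by norm_num) (by norm_num)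
      refine this.congr fun D => ?_
      rw [one_div_pow]
    have hev := (hlim.eventually_lt_const (by linarith : (0 : ℝ) < s0 / 4)).and
      ((hlim.eventually_lt_const hκ0).and ((hlim.eventually_lt_const (by positivity : (0 : ℝ) < ε / 200)).and
        (Filter.eventually_ge_atTop 1)))
    obtain ⟨D, h1, h2, h3, h4⟩ := hev.exists
    refine ⟨D, h4, h1, h2, ?_⟩
    have : 20 / (2 : ℝ) ^ D = 20 * (1 / 2 ^ D) := by ring
    rw [this]
    linarith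
  obtain ⟨d, hd⟩ : ∃ d, d = min (1 / 2) (ε / 160) := ⟨_, rfl⟩
  have hd0 : 0 < d := by rw [hd]; exact lt_min (by norm_num) (by positivity)
  have hd1 : d ≤ 1 / 2 := by rw [hd]; exact min_le_left _ _
  have hde : 16 * d ≤ ε / 10 := by
    have : d ≤ ε / 160 := by rw [hd]; exact min_le_right _ _
    linarith
  obtain ⟨m, n1, hn1⟩ := smooth D (ε / 10) (by positivity)
  obtain ⟨θ, hθ, hta⟩ := ta_bits
  obtain ⟨n2, hn2⟩ := hta (ε / 10) (by positivity)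
  obtain ⟨n3, hn3⟩ := bad_sum D hD1 d (ε / 10) hd0 hd1 (by positivity)
  obtain ⟨n4, hn4⟩ := asm_term2 t ht0 D (by
    have : t * (1 / 2 ^ D) ≤ 1 * (1 / 2 ^ D) := mul_le_mul_of_nonneg_right ht1 (by positivity)
    linarith) (ε / 10) (by positivity)
  obtain ⟨n5, hn5⟩ := asm_term1 c t θ D (smB D m) ht0 hθ (by
    have : t * Real.log 2 ≤ t * 1 := mul_le_mul_of_nonneg_left hl21.le ht0.le
    linarith) (ε / 10) (by positivity)
  obtain ⟨n6, hn6⟩ := exists_nat_ge (2 * (smB D m : ℝ) / θ)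
  refine ⟨max n1 (max n2 (max n3 (max n4 (max n5 (max n6 1))))), fun n hn K hK hKc => ?_⟩
  simp only [max_le_iff] at hn
  obtain ⟨m1, m2, m3, m4, m5, m6, m7⟩ := hn
  have hnr : (0 : ℝ) < n := by exact_mod_cast m7
  have hB : (2 * (smB D m : ℝ) : ℝ) ≤ θ * n := by
    have h1 : 2 * (smB D m : ℝ) / θ ≤ n := hn6.trans (by exact_mod_cast m6)
    rw [div_le_iff₀ hθ] at h1
    linarith
  obtain ⟨M, hM⟩ : ∃ M, M = ⌊(1 + t) * Real.log n⌋₊ := ⟨_, rfl⟩
  have e1 := hn1 n m1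
  have e2 := hn2 n m2
  have e3 := hn3 n m3
  have e4 : pr (fun b : Edge n → Bool => M < (RF D n b).card) ≤ ε / 10 := by
    refine (rf_card D n M hD1 m7 t ht0.le).trans ?_
    rw [hM]
    exact hn4 n m4
  have e5 := hn5 n m5
  rw [← hM] at e5
  -- the union over the middle degrees
  let Q : ℕ → (Edge n → Bool) → Prop := fun k b => ∃ s t : Finset (ZMod 2)[X], s ⊆ RR 2 D n ∧ t ⊆ RR 2 D n ∧
      Disjoint s t ∧ (∀ g, g ∈ RF D n b ↔ g ∈ s ∨ g ∈ t) ∧ s.card + t.card ≤ M ∧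
      2 * dg s ≤ k ∧ k ≤ 2 * dg s + smB D m ∧ 2 * (dg s + dg t) ≤ n ∧ n ≤ 2 * (dg s + dg t) + smB D m
  let K' : Finset ℕ := K.filter fun k => θ * n ≤ k ∧ (k : ℝ) ≤ (1 - θ) * n
  have e6 : pr (fun b : Edge n → Bool => ∃ k ∈ K', Q k b) ≤ ε / 10 := by
    refine (pr_exists_le K' Q).trans ?_
    have h1 : ∀ k ∈ K', pr (Q k) ≤ (2 : ℝ) ^ (M + 1) * ((smB D m : ℝ) + 1) ^ 2 *
        (16 * (θ * n) ^ ((1 : ℝ) / 2 ^ D - 1)) := by
      intro k hk
      obtain ⟨-, hk1, hk2⟩ := Finset.mem_filter.1 hk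
      exact uni_k D (smB D m) n k M θ hD1 m7 hθ hk1 hk2 hB
    refine (Finset.sum_le_sum h1).trans ?_
    rw [Finset.sum_const, nsmul_eq_mul]
    refine le_trans ?_ e5
    have h2 : (K'.card : ℝ) ≤ (n : ℝ) ^ c := le_trans (by exact_mod_cast Finset.card_filter_le _ _) hKc
    exact mul_le_mul_of_nonneg_right h2 (by positivity)
  -- the inclusion
  have hmain : pr (fun b : Edge n → Bool => ∃ f : ℚ[X], f ∣ (adj ℚ b).charpoly ∧ f.natDegree ∈ K) ≤
      pr (fun b : Edge n → Bool => ∃ g : (ZMod 2)[X], g.Monic ∧ Irreducible g ∧ g.natDegree ≤ D ∧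
        g ^ m ∣ (adj (ZMod 2) b).charpoly) +
      pr (fun b : Edge n → Bool => ∃ g : ℚ[X], g ∣ (adj ℚ b).charpoly ∧ 1 ≤ g.natDegree ∧
        (g.natDegree : ℝ) ≤ θ * n) +
      pr (fun b : Edge n → Bool => ∃ g ∈ RF D n b, (g ^ 4 ∣ (adj (ZMod 2) b).charpoly ∨ Bad4 g b)) +
      pr (fun b : Edge n → Bool => M < (RF D n b).card) +
      pr (fun b : Edge n → Bool => ∃ k ∈ K', Q k b) := by
    unfold pr
    rw [← avg_add, ← avg_add, ← avg_add, ← avg_add]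
    refine avg_mono fun b => ?_
    have i1 := ind_nonneg (∃ g : (ZMod 2)[X], g.Monic ∧ Irreducible g ∧ g.natDegree ≤ D ∧
        g ^ m ∣ (adj (ZMod 2) b).charpoly)
    have i2 := ind_nonneg (∃ g : ℚ[X], g ∣ (adj ℚ b).charpoly ∧ 1 ≤ g.natDegree ∧ (g.natDegree : ℝ) ≤ θ * n)
    have i3 := ind_nonneg (∃ g ∈ RF D n b, (g ^ 4 ∣ (adj (ZMod 2) b).charpoly ∨ Bad4 g b))
    have i4 := ind_nonneg (M < (RF D n b).card)
    have i5 := ind_nonneg (∃ k ∈ K', Q k b)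
    by_cases hex : ∃ f : ℚ[X], f ∣ (adj ℚ b).charpoly ∧ f.natDegree ∈ K
    swap
    · rw [ind_false hex]; linarith
    rw [ind_true hex]
    obtain ⟨f, hf, hfK⟩ := hex
    by_cases c1 : ∃ g : (ZMod 2)[X], g.Monic ∧ Irreducible g ∧ g.natDegree ≤ D ∧
        g ^ m ∣ (adj (ZMod 2) b).charpoly
    · rw [ind_true c1]; linarith
    by_cases c2 : ∃ g : ℚ[X], g ∣ (adj ℚ b).charpoly ∧ 1 ≤ g.natDegree ∧ (g.natDegree : ℝ) ≤ θ * n
    · rw [ind_true c2]; linarith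
    by_cases c3 : ∃ g ∈ RF D n b, (g ^ 4 ∣ (adj (ZMod 2) b).charpoly ∨ Bad4 g b)
    · rw [ind_true c3]; linarith
    by_cases c4 : M < (RF D n b).card
    · rw [ind_true c4]; linarith
    have c5 : ∃ k ∈ K', Q k b := by
      obtain ⟨hk1, hk2⟩ := hK _ hfK
      have hkθ : θ * n < f.natDegree := by
        by_contra hcon
        exact c2 ⟨f, hf, hk1, not_lt.1 hcon⟩
      have hkθ2 : (f.natDegree : ℝ) < (1 - θ) * n := by
        by_contra hcon
        push Not at hcon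
        obtain ⟨f', hf'⟩ := hf
        have hne : (adj ℚ b).charpoly ≠ 0 := (Matrix.charpoly_monic _).ne_zero
        rw [hf'] at hne
        have hdeg : f.natDegree + f'.natDegree = n := by
          rw [← Polynomial.natDegree_mul (left_ne_zero_of_mul hne) (right_ne_zero_of_mul hne), ← hf',
            Matrix.charpoly_natDegree_eq_dim, Fintype.card_fin]
        refine c2 ⟨f', ⟨f, by rw [hf']; ring⟩, by omega, ?_⟩
        have h7 : (f.natDegree : ℝ) + f'.natDegree = n := by exact_mod_cast hdeg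
        linarith
      obtain ⟨s, t', a1, a2, a3, a4, a5, a6, a7, a8, a9⟩ := det_side D m n b hD1
        (fun g hg hi hgD hdvd => c1 ⟨g, hg, hi, hgD, hdvd⟩)
        (fun g hg hg4 => c3 ⟨g, hg, Or.inl hg4⟩) (fun g hg hB => c3 ⟨g, hg, Or.inr hB⟩) f hf
      refine ⟨f.natDegree, Finset.mem_filter.2 ⟨hfK, hkθ.le, hkθ2.le⟩, s, t', a1, a2, a3, a4, ?_, a6, a7, a8, a9⟩
      rw [a5]
      exact not_lt.1 c4
    rw [ind_true c5]; linarith
  linarith

end Pool.H86.UD
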