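import Mathlib
import Pool.Agent.H86.UD.MgfS

/-! MODULE MgfT (project UD of helper86, MP_a758cf_pr): versions of `mgf` and `rf_card` (MgfS.lean, done) for a large
roughness threshold D: the only change is sum_{m in Ioc D n} 1/m <= log(n/D) (1/m <= log(m/(m-1)) for m >= 2).
(c) wid: for 1 <= D0 <= D, the expectation of dg of the set of g in RF D0 n b with deg g <= D is
sum_{g in RR 2 D0 n, deg g <= D} deg g pr(g | charpoly) <= sum_{m in Ioc D0 D} m * 2 * sum_{Irr 2 m} beta
(`fm_pr` with s = {g}) <= sum_{m in Ioc D0 D} 2 (1 + 1/2^D0) <= 3 D (`beta_sum`); Markov (`pr_markov`). -/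

set_option autoImplicit false

namespace Pool.H86.UD

open Finset Polynomial Pool.H64.IR

theorem mgf2_harm (D n : ℕ) (hD : 1 ≤ D) (hDn : D ≤ n) :
    ∑ m ∈ Finset.Ioc D n, ((m : ℝ))⁻¹ ≤ Real.log ((n : ℝ) / D) := by
  have hD0 : (0 : ℝ) < D := by exact_mod_cast hD
  induction n, hDn using Nat.le_induction with
  | base => simp
  | succ n hn ih =>
    have hn0 : (0 : ℝ) < n := by
      have : 0 < n := by omega
      exact_mod_cast this
    rw [← Finset.insert_Ioc_right_eq_Ioc_add_one (by omega), Finset.sum_insert (by simp)]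
    have h1 : (((n + 1 : ℕ) : ℝ))⁻¹ ≤ Real.log (((n + 1 : ℕ) : ℝ) / n) := by
      have h2 := Real.one_sub_inv_le_log_of_pos (x := ((n + 1 : ℕ) : ℝ) / n) (by positivity)
      refine le_trans (le_of_eq ?_) h2
      push_cast
      field_simp
      ring
    have h3 : Real.log (((n + 1 : ℕ) : ℝ) / D) = Real.log (((n + 1 : ℕ) : ℝ) / n) + Real.log ((n : ℝ) / D) := by
      rw [← Real.log_mul (by positivity) (by positivity)]
      congr 1
      field_simp
    rw [h3]
    exact add_le_add h1 ih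

theorem mgf2_beta_sum (D n : ℕ) (hD : 1 ≤ D) (hDn : D ≤ n) :
    ∑ g ∈ RR 2 D n, beta g ≤ (1 + 1 / 2 ^ D) * Real.log ((n : ℝ) / D) := by
  rw [sum_rr]
  have h1 : ∑ m ∈ Finset.Ioc D n, ∑ g ∈ Irr 2 m, beta g ≤ ∑ m ∈ Finset.Ioc D n, (1 + 1 / 2 ^ D) * ((m : ℝ))⁻¹ := by
    refine Finset.sum_le_sum fun m hm => ?_
    have := beta_sum D m (Finset.mem_Ioc.1 hm).1
    rwa [div_eq_mul_inv] at this
  refine h1.trans ?_
  rw [← Finset.mul_sum]
  exact mul_le_mul_of_nonneg_left (mgf2_harm D n hD hDn) (by positivity)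

theorem mgf2 (D n : ℕ) (hD : 1 ≤ D) (hDn : D ≤ n) (t : ℝ) (ht : 0 ≤ t) :
    ∑ s ∈ (RR 2 D n).powerset, t ^ s.card * bt s ≤ Real.exp (t * (1 + 1 / 2 ^ D) * Real.log ((n : ℝ) / D)) := by
  classical
  have h1 : ∑ s ∈ (RR 2 D n).powerset, t ^ s.card * bt s = ∏ g ∈ RR 2 D n, (1 + t * beta g) := by
    rw [Finset.prod_one_add]
    refine Finset.sum_congr rfl fun s _ => ?_
    rw [Finset.prod_mul_distrib, Finset.prod_const]
    rfl
  rw [h1]
  have h2 : ∏ g ∈ RR 2 D n, (1 + t * beta g) ≤ ∏ g ∈ RR 2 D n, Real.exp (t * beta g) := by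
    refine Finset.prod_le_prod (fun g _ => ?_) (fun g _ => ?_)
    · have := mul_nonneg ht (beta_nonneg g)
      linarith
    · have := Real.add_one_le_exp (t * beta g)
      linarith
  refine h2.trans ?_
  rw [← Real.exp_sum, Real.exp_le_exp, ← Finset.mul_sum, mul_assoc]
  exact mul_le_mul_of_nonneg_left (mgf2_beta_sum D n hD hDn) ht

theorem rf_card2 (D n M : ℕ) (hD : 1 ≤ D) (hDn : D ≤ n) (t : ℝ) (ht : 0 ≤ t) :
    pr (fun b : Edge n → Bool => M < (RF D n b).card) ≤
      2 * Real.exp (t * (1 + 1 / 2 ^ D) * Real.log ((n : ℝ) / D)) / (1 + t) ^ M := by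
  classical
  have h0 : ∀ b : Edge n → Bool, (1 + t) ^ (RF D n b).card =
      ∑ s ∈ (RR 2 D n).powerset, t ^ s.card * ∏ g ∈ s, BB g (adj (ZMod 2) b) := by
    intro b
    have h1 : (1 + t) ^ (RF D n b).card = ∏ g ∈ RR 2 D n, (1 + t * BB g (adj (ZMod 2) b)) := by
      unfold RF
      rw [← Finset.prod_const, Finset.prod_filter]
      refine Finset.prod_congr rfl fun g _ => ?_
      by_cases h : g ∣ (adj (ZMod 2) b).charpoly
      · rw [if_pos h]
        unfold BB
        rw [ind_true h, mul_one]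
      · rw [if_neg h]
        unfold BB
        rw [ind_false h, mul_zero, add_zero]
    rw [h1, Finset.prod_one_add]
    refine Finset.sum_congr rfl fun s _ => ?_
    rw [Finset.prod_mul_distrib, Finset.prod_const]
  have h1t : (1 : ℝ) ≤ 1 + t := by linarith
  have h2 : pr (fun b : Edge n → Bool => M < (RF D n b).card) ≤
      avg (fun b : Edge n → Bool => (1 + t) ^ (RF D n b).card) / (1 + t) ^ M := by
    refine pr_markov _ _ (fun b => by positivity) _ (by positivity) (fun b hb => ?_)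
    exact pow_le_pow_right₀ h1t hb.le
  refine h2.trans (div_le_div_of_nonneg_right ?_ (by positivity))
  have h3 : (fun b : Edge n → Bool => (1 + t) ^ (RF D n b).card) =
      fun b => ∑ s ∈ (RR 2 D n).powerset, t ^ s.card * ∏ g ∈ s, BB g (adj (ZMod 2) b) := funext h0
  rw [h3, avg_sum (RR 2 D n).powerset
    (fun s (b : Edge n → Bool) => t ^ s.card * ∏ g ∈ s, BB g (adj (ZMod 2) b))]
  have h4 : ∑ s ∈ (RR 2 D n).powerset,
      avg (fun b : Edge n → Bool => t ^ s.card * ∏ g ∈ s, BB g (adj (ZMod 2) b)) ≤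
      ∑ s ∈ (RR 2 D n).powerset, 2 * (t ^ s.card * bt s) := by
    refine Finset.sum_le_sum fun s hs => ?_
    rw [avg_const_mul]
    have h5 := fm n s (fun g hg => by
      have h6 := (mem_rr g).1 ((Finset.mem_powerset.1 hs) hg)
      exact ⟨h6.1, h6.2.1, by omega⟩)
    have h7 : (0 : ℝ) ≤ t ^ s.card := by positivity
    calc t ^ s.card * avg (fun b : Edge n → Bool => ∏ g ∈ s, BB g (adj (ZMod 2) b))
        ≤ t ^ s.card * (2 * bt s) := mul_le_mul_of_nonneg_left h5 h7
      _ = 2 * (t ^ s.card * bt s) := by ring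
  refine h4.trans ?_
  rw [← Finset.mul_sum]
  exact mul_le_mul_of_nonneg_left (mgf2 D n hD hDn t ht) (by norm_num)

open Classical in
theorem wid (D0 D n : ℕ) (hD0 : 1 ≤ D0) (hD : D0 ≤ D) (x : ℝ) (hx : 0 < x) :
    pr (fun b : Edge n → Bool => x * D < (dg ((RF D0 n b).filter fun g => g.natDegree ≤ D) : ℝ)) ≤ 4 / x := by
  have hD1 : 1 ≤ D := hD0.trans hD
  have hDr : (0 : ℝ) < D := by exact_mod_cast hD1
  have h0 : ∀ b : Edge n → Bool, (dg ((RF D0 n b).filter fun g => g.natDegree ≤ D) : ℝ) =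
      ∑ g ∈ (RR 2 D0 n).filter (fun g => g.natDegree ≤ D), (g.natDegree : ℝ) * BB g (adj (ZMod 2) b) := by
    intro b
    unfold dg RF
    rw [Finset.filter_filter, Nat.cast_sum, Finset.sum_filter, Finset.sum_filter]
    refine Finset.sum_congr rfl fun g _ => ?_
    unfold BB
    by_cases h1 : g ∣ (adj (ZMod 2) b).charpoly
    · by_cases h2 : g.natDegree ≤ D
      · rw [if_pos ⟨h1, h2⟩, if_pos h2, ind_true h1, mul_one]
      · rw [if_neg (fun h => h2 h.2), if_neg h2]
    · rw [if_neg (fun h => h1 h.1), ind_false h1, mul_zero]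
      split_ifs <;> rfl
  have h1 := pr_markov (fun b : Edge n → Bool => x * D < (dg ((RF D0 n b).filter fun g => g.natDegree ≤ D) : ℝ))
    (fun b : Edge n → Bool => (dg ((RF D0 n b).filter fun g => g.natDegree ≤ D) : ℝ))
    (fun b => Nat.cast_nonneg _) (x * D) (by positivity) (fun b hb => hb.le)
  refine h1.trans ?_
  have h2 : avg (fun b : Edge n → Bool => (dg ((RF D0 n b).filter fun g => g.natDegree ≤ D) : ℝ)) ≤ 3 * D := by
    have h3 : (fun b : Edge n → Bool => (dg ((RF D0 n b).filter fun g => g.natDegree ≤ D) : ℝ)) =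
        fun b => ∑ g ∈ (RR 2 D0 n).filter (fun g => g.natDegree ≤ D),
          (g.natDegree : ℝ) * BB g (adj (ZMod 2) b) := funext h0
    rw [h3, avg_sum ((RR 2 D0 n).filter (fun g => g.natDegree ≤ D))
      (fun g (b : Edge n → Bool) => (g.natDegree : ℝ) * BB g (adj (ZMod 2) b))]
    have h4 : ∑ g ∈ (RR 2 D0 n).filter (fun g => g.natDegree ≤ D),
        avg (fun b : Edge n → Bool => (g.natDegree : ℝ) * BB g (adj (ZMod 2) b)) ≤
        ∑ g ∈ (RR 2 D0 n).filter (fun g => g.natDegree ≤ D), (g.natDegree : ℝ) * (2 * beta g) := by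
      refine Finset.sum_le_sum fun g hg => ?_
      rw [avg_const_mul]
      have h5 := (mem_rr g).1 (Finset.mem_filter.1 hg).1
      have h6 := fm_pr n {g} (fun g' hg' => by
        rw [Finset.mem_singleton] at hg'
        subst hg'
        exact ⟨h5.1, h5.2.1, by omega⟩)
      unfold bt at h6
      rw [Finset.prod_singleton] at h6
      refine mul_le_mul_of_nonneg_left (le_trans ?_ h6) (Nat.cast_nonneg _)
      refine pr_mono fun b hb g' hg' => ?_
      rw [Finset.mem_singleton] at hg'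
      subst hg'
      exact hb
    refine h4.trans ?_
    rw [Finset.sum_filter, sum_rr]
    have h7 : ∀ m ∈ Finset.Ioc D0 n,
        ∑ g ∈ Irr 2 m, (if g.natDegree ≤ D then (g.natDegree : ℝ) * (2 * beta g) else 0) ≤
        if m ≤ D then 3 else 0 := by
      intro m hm
      rw [Finset.mem_Ioc] at hm
      have h8 : ∑ g ∈ Irr 2 m, (if g.natDegree ≤ D then (g.natDegree : ℝ) * (2 * beta g) else 0) =
          if m ≤ D then (m : ℝ) * (2 * ∑ g ∈ Irr 2 m, beta g) else 0 := by
        rw [Finset.mul_sum]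
        split_ifs with h9
        · rw [Finset.mul_sum]
          refine Finset.sum_congr rfl fun g hg => ?_
          rw [((mem_irr g).1 hg).2.2, if_pos h9]
        · refine Finset.sum_eq_zero fun g hg => ?_
          rw [((mem_irr g).1 hg).2.2, if_neg h9]
      rw [h8]
      split_ifs with h9
      · have h10 := beta_sum D0 m hm.1
        have hm0 : (0 : ℝ) < m := by
          have : 0 < m := by omega
          exact_mod_cast this
        have h11 : (1 : ℝ) / 2 ^ D0 ≤ 1 / 2 := by
          apply one_div_le_one_div_of_le (by norm_num)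
          calc (2 : ℝ) = 2 ^ 1 := by norm_num
            _ ≤ 2 ^ D0 := pow_le_pow_right₀ (by norm_num) hD0
        calc (m : ℝ) * (2 * ∑ g ∈ Irr 2 m, beta g) ≤ m * (2 * ((1 + 1 / 2 ^ D0) / m)) := by
              refine mul_le_mul_of_nonneg_left (mul_le_mul_of_nonneg_left h10 (by norm_num)) hm0.le
          _ = 2 * (1 + 1 / 2 ^ D0) := by field_simp
          _ ≤ 3 := by linarith
      · exact le_rfl
    refine (Finset.sum_le_sum h7).trans ?_
    rw [← Finset.sum_filter, Finset.sum_const, nsmul_eq_mul]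
    have h12 : ((Finset.Ioc D0 n).filter fun m => m ≤ D).card ≤ D := by
      have h13 : ((Finset.Ioc D0 n).filter fun m => m ≤ D) ⊆ Finset.Ioc 0 D := by
        intro m hm
        rw [Finset.mem_filter, Finset.mem_Ioc] at hm
        rw [Finset.mem_Ioc]
        omega
      have h14 := Finset.card_le_card h13
      rwa [Nat.card_Ioc, Nat.sub_zero] at h14
    have h15 : (((Finset.Ioc D0 n).filter fun m => m ≤ D).card : ℝ) ≤ D := by exact_mod_cast h12
    linarith
  calc avg (fun b : Edge n → Bool => (dg ((RF D0 n b).filter fun g => g.natDegree ≤ D) : ℝ)) / (x * D)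
      ≤ 3 * D / (x * D) := div_le_div_of_nonneg_right h2 (by positivity)
    _ = 3 / x := by field_simp
    _ ≤ 4 / x := div_le_div_of_nonneg_right (by norm_num) hx.le

end Pool.H86.UD
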