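import Mathlib
import Pool.Agent.H86.UD.FmoM
import Pool.Agent.H86.UD.AnaT

/-! MODULE UniL (project UD of helper86, MP_a758cf_pr). Uses FmoM.fm_pr and AnaT.as_le2 (cite it; it may still be sorry).
Union bound for the degrees in an interval [a, a+L], at most M factors of degree > D, windows of width W. Same proof as
`uni_k` (UniK.lean; look there first), D may be large.
For disjoint s, t in RR 2 D n (degrees > D >= 1): pr(all g in s ∪ t divide the charpoly) <= 2 bt(s ∪ t) = 2 bt s bt t, and if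
|s| + |t| <= M this is <= 2 * 2^M * ((1/2)^|s| bt s) * ((1/2)^|t| bt t). Sum over the pairs, grouped by i = dg s and j = dg t:
pr <= 2^(M+1) sum_i sum_j a_i a_j, a = aS D n (1/2), over i with a - W <= 2i <= a + L and theta n - W <= 2i <= (1-theta) n (some
k in [a,a+L] with theta n <= k <= (1-theta) n has 2i <= k <= 2i+W) and j with 2(i+j) <= n <= 2(i+j)+W. The number of i is at
most W + L + 1, the number of j is at most W + 1. i >= (theta n - W)/2 >= theta n/4 and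
j >= (n-W)/2 - i >= (n - W - (1-theta) n)/2 >= theta n/4 (as 2W <= theta n). With w = (1/2)(1 + 1/2^D) in [1/2, 3/4]:
as_le2: a_i <= w i^(w-1) D^(-w) <= (theta n/4)^(w-1) D^(-w) <= 2 (theta n)^(w-1) D^(-w) (4^(1-w) <= 2, w - 1 < 0); product of two:
4 (theta n)^(2w-2) D^(-2w), 2w - 2 = 1/2^D - 1, 2w = 1 + 1/2^D. -/

set_option autoImplicit false

namespace Pool.H86.UD

open Finset Polynomial Pool.H64.IR

/-- the numerical condition on the two degrees -/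
def UniL_nc (W L n a : ℕ) (θ : ℝ) (i j : ℕ) : Prop :=
  ∃ k : ℕ, a ≤ k ∧ k ≤ a + L ∧ θ * n ≤ k ∧ (k : ℝ) ≤ (1 - θ) * n ∧
    2 * i ≤ k ∧ k ≤ 2 * i + W ∧ 2 * (i + j) ≤ n ∧ n ≤ 2 * (i + j) + W

theorem UniL_lower (W L n a : ℕ) (θ : ℝ) (hW : (2 * W : ℝ) ≤ θ * n) (i j : ℕ)
    (h : UniL_nc W L n a θ i j) : θ * n / 4 ≤ i ∧ θ * n / 4 ≤ j := by
  obtain ⟨k, -, -, h3, h4, h5, h6, h7, h8⟩ := h
  have e6 : (k : ℝ) ≤ 2 * i + W := by exact_mod_cast h6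
  have e5 : (2 : ℝ) * i ≤ k := by exact_mod_cast h5
  have e8 : (n : ℝ) ≤ 2 * (i + j) + W := by exact_mod_cast h8
  constructor
  · linarith
  · linarith

open Classical in
/-- the set of the pairs of degrees -/
noncomputable def UniL_S (W L n a : ℕ) (θ : ℝ) : Finset (ℕ × ℕ) :=
  (Finset.range (n + 1) ×ˢ Finset.range (n + 1)).filter fun p => UniL_nc W L n a θ p.1 p.2

theorem UniL_card (W L n a : ℕ) (θ : ℝ) :
    ((UniL_S W L n a θ).card : ℝ) ≤ ((W : ℝ) + L + 1) ^ 2 := by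
  classical
  have h1 : (UniL_S W L n a θ).card ≤
      (Finset.Icc a (a + L + W) ×ˢ Finset.Icc n (n + W)).card := by
    refine Finset.card_le_card_of_injOn (fun p => (2 * p.1 + W, 2 * (p.1 + p.2) + W)) ?_ ?_
    · intro p hp
      have hp2 := (Finset.mem_filter.1 (Finset.mem_coe.1 hp)).2
      obtain ⟨k, h1, h2, -, -, h5, h6, h7, h8⟩ := hp2
      refine Finset.mem_coe.2 (Finset.mem_product.2 ⟨?_, ?_⟩)
      · rw [Finset.mem_Icc]; constructor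
        · simp only; omega
        · simp only; omega
      · rw [Finset.mem_Icc]; constructor
        · simp only; omega
        · simp only; omega
    · rintro ⟨p1, p2⟩ _ ⟨q1, q2⟩ _ hpq
      simp only [Prod.mk.injEq] at hpq ⊢
      omega
  rw [Finset.card_product, Nat.card_Icc, Nat.card_Icc] at h1
  have h2 : (a + L + W + 1 - a) * (n + W + 1 - n) ≤ (W + L + 1) ^ 2 := by
    have e1 : a + L + W + 1 - a = W + L + 1 := by omega
    have e2 : n + W + 1 - n = W + 1 := by omega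
    rw [e1, e2, pow_two]
    exact Nat.mul_le_mul_left _ (by omega)
  have h3 : (UniL_S W L n a θ).card ≤ (W + L + 1) ^ 2 := h1.trans h2
  have h4 : ((UniL_S W L n a θ).card : ℝ) ≤ (((W + L + 1) ^ 2 : ℕ) : ℝ) := by exact_mod_cast h3
  refine h4.trans (le_of_eq ?_)
  push_cast
  ring

theorem UniL_as (D n : ℕ) (hD : 1 ≤ D) (y : ℝ) (hy : 0 < y) (i : ℕ) (hi : y / 4 ≤ i) :
    aS D n (1 / 2) i ≤ 2 * y ^ ((1 / 2) * (1 + (1 : ℝ) / 2 ^ D) - 1) *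
      (D : ℝ) ^ (-((1 / 2) * (1 + (1 : ℝ) / 2 ^ D))) := by
  have hi0 : (0 : ℝ) < i := lt_of_lt_of_le (by positivity) hi
  have hi1 : 1 ≤ i := by
    have : (0 : ℝ) < i := hi0
    have h0 : 0 < i := by exact_mod_cast this
    exact h0
  have h := as_le2 D n hD (1 / 2) (by norm_num) i hi1
  set w : ℝ := (1 / 2) * (1 + (1 : ℝ) / 2 ^ D) with hw
  have hp : (2 : ℝ) ≤ 2 ^ D := by
    calc (2 : ℝ) = 2 ^ 1 := (pow_one 2).symm
      _ ≤ 2 ^ D := pow_le_pow_right₀ (by norm_num) hD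
  have hq : (1 : ℝ) / 2 ^ D ≤ 1 / 2 := one_div_le_one_div_of_le (by norm_num) hp
  have hq0 : (0 : ℝ) ≤ 1 / 2 ^ D := by positivity
  have hw1 : 1 / 2 ≤ w := by rw [hw]; linarith
  have hw2 : w ≤ 3 / 4 := by rw [hw]; linarith
  have hDr : (0 : ℝ) ≤ (D : ℝ) ^ (-w) := Real.rpow_nonneg (Nat.cast_nonneg _) _
  have h1 : (i : ℝ) ^ (w - 1) ≤ (y / 4) ^ (w - 1) :=
    Real.rpow_le_rpow_of_nonpos (by positivity) hi (by linarith)
  have h2 : (y / 4) ^ (w - 1) = y ^ (w - 1) * 4 ^ (1 - w) := by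
    rw [Real.div_rpow hy.le (by norm_num), div_eq_mul_inv, ← Real.rpow_neg (by norm_num), neg_sub]
  have h3 : (4 : ℝ) ^ (1 - w) ≤ 2 := by
    calc (4 : ℝ) ^ (1 - w) ≤ 4 ^ ((1 : ℝ) / 2) :=
          Real.rpow_le_rpow_of_exponent_le (by norm_num) (by linarith)
      _ = 2 := by
          rw [show (4 : ℝ) = 2 ^ (2 : ℝ) by norm_num, ← Real.rpow_mul (by norm_num)]
          norm_num
  have hy0 : 0 ≤ y ^ (w - 1) := Real.rpow_nonneg hy.le _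
  calc aS D n (1 / 2) i ≤ w * (i : ℝ) ^ (w - 1) * (D : ℝ) ^ (-w) := h
    _ ≤ 1 * (y ^ (w - 1) * 2) * (D : ℝ) ^ (-w) := by
        refine mul_le_mul_of_nonneg_right ?_ hDr
        refine mul_le_mul (by linarith) ?_ (Real.rpow_nonneg hi0.le _) (by norm_num)
        rw [h2] at h1
        exact h1.trans (mul_le_mul_of_nonneg_left h3 hy0)
    _ = 2 * y ^ (w - 1) * (D : ℝ) ^ (-w) := by ring

theorem UniL_prod (D n : ℕ) (hD : 1 ≤ D) (y : ℝ) (hy : 0 < y) (i j : ℕ) (hi : y / 4 ≤ i)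
    (hj : y / 4 ≤ j) : aS D n (1 / 2) i * aS D n (1 / 2) j ≤
      4 * y ^ ((1 : ℝ) / 2 ^ D - 1) * (D : ℝ) ^ (-(1 + (1 : ℝ) / 2 ^ D)) := by
  have h1 := UniL_as D n hD y hy i hi
  have h2 := UniL_as D n hD y hy j hj
  have hD0 : (0 : ℝ) < D := by
    have : 0 < D := hD
    exact_mod_cast this
  have h0 : ∀ l, 0 ≤ aS D n (1 / 2) l := fun l => as_nonneg D n (1 / 2) (by norm_num) l
  have h3 := mul_le_mul h1 h2 (h0 j) ((h0 i).trans h1)
  refine h3.trans (le_of_eq ?_)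
  have e1 : y ^ ((1 / 2) * (1 + (1 : ℝ) / 2 ^ D) - 1) * y ^ ((1 / 2) * (1 + (1 : ℝ) / 2 ^ D) - 1) =
      y ^ ((1 : ℝ) / 2 ^ D - 1) := by
    rw [← Real.rpow_add hy]
    congr 1
    ring
  have e2 : (D : ℝ) ^ (-((1 / 2) * (1 + (1 : ℝ) / 2 ^ D))) *
      (D : ℝ) ^ (-((1 / 2) * (1 + (1 : ℝ) / 2 ^ D))) = (D : ℝ) ^ (-(1 + (1 : ℝ) / 2 ^ D)) := by
    rw [← Real.rpow_add hD0]
    congr 1
    ring
  rw [← e1, ← e2]
  ring

theorem uni_l (D W L n a M : ℕ) (θ : ℝ) (hD : 1 ≤ D) (hn : 1 ≤ n) (hθ : 0 < θ) (hW : (2 * W : ℝ) ≤ θ * n) :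
    pr (fun b : Edge n → Bool => ∃ k : ℕ, a ≤ k ∧ k ≤ a + L ∧ θ * n ≤ k ∧ (k : ℝ) ≤ (1 - θ) * n ∧
      ∃ s t : Finset (ZMod 2)[X], s ⊆ RR 2 D n ∧ t ⊆ RR 2 D n ∧ Disjoint s t ∧
      (∀ g, g ∈ RF D n b ↔ g ∈ s ∨ g ∈ t) ∧ s.card + t.card ≤ M ∧
      2 * dg s ≤ k ∧ k ≤ 2 * dg s + W ∧ 2 * (dg s + dg t) ≤ n ∧ n ≤ 2 * (dg s + dg t) + W) ≤
      (2 : ℝ) ^ (M + 1) * ((W : ℝ) + L + 1) ^ 2 * (4 * (θ * n) ^ ((1 : ℝ) / 2 ^ D - 1) *
        (D : ℝ) ^ (-(1 + (1 : ℝ) / 2 ^ D))) := by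
  classical
  have hn0 : (0 : ℝ) < n := by
    have : 0 < n := hn
    exact_mod_cast this
  have hy : 0 < θ * n := mul_pos hθ hn0
  obtain ⟨R, hR⟩ : ∃ R : Finset (Finset (ZMod 2)[X]), R = (RR 2 D n).powerset := ⟨_, rfl⟩
  obtain ⟨P, hP⟩ : ∃ P : Finset (Finset (ZMod 2)[X] × Finset (ZMod 2)[X]),
      P = (R ×ˢ R).filter fun p => Disjoint p.1 p.2 ∧ p.1.card + p.2.card ≤ M ∧
        UniL_nc W L n a θ (dg p.1) (dg p.2) := ⟨_, rfl⟩
  obtain ⟨F, hF⟩ : ∃ F : Finset (ZMod 2)[X] → ℝ, F = fun s => (1 / 2 : ℝ) ^ s.card * bt s :=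
    ⟨_, rfl⟩
  have hF0 : ∀ s, 0 ≤ F s := by
    intro s
    rw [hF]
    exact mul_nonneg (by positivity) (bt_nonneg s)
  have hmemP : ∀ p ∈ P, p.1 ⊆ RR 2 D n ∧ p.2 ⊆ RR 2 D n ∧ Disjoint p.1 p.2 ∧
      p.1.card + p.2.card ≤ M ∧ UniL_nc W L n a θ (dg p.1) (dg p.2) := by
    intro p hp
    rw [hP, Finset.mem_filter, Finset.mem_product, hR, Finset.mem_powerset, Finset.mem_powerset] at hp
    exact ⟨hp.1.1, hp.1.2, hp.2.1, hp.2.2.1, hp.2.2.2⟩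
  -- step 1: union bound
  have s1 : pr (fun b : Edge n → Bool => ∃ k : ℕ, a ≤ k ∧ k ≤ a + L ∧ θ * n ≤ k ∧ (k : ℝ) ≤ (1 - θ) * n ∧
      ∃ s t : Finset (ZMod 2)[X], s ⊆ RR 2 D n ∧ t ⊆ RR 2 D n ∧ Disjoint s t ∧
      (∀ g, g ∈ RF D n b ↔ g ∈ s ∨ g ∈ t) ∧ s.card + t.card ≤ M ∧
      2 * dg s ≤ k ∧ k ≤ 2 * dg s + W ∧ 2 * (dg s + dg t) ≤ n ∧ n ≤ 2 * (dg s + dg t) + W) ≤
      ∑ p ∈ P, pr (fun b : Edge n → Bool => ∀ g ∈ p.1 ∪ p.2, g ∣ (adj (ZMod 2) b).charpoly) := by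
    refine le_trans (pr_mono ?_) (pr_exists_le P
      (fun p (b : Edge n → Bool) => ∀ g ∈ p.1 ∪ p.2, g ∣ (adj (ZMod 2) b).charpoly))
    rintro b ⟨k, h1, h2, h3, h4, s, t, hs, ht, hd, hg, hc, h5, h6, h7, h8⟩
    refine ⟨(s, t), ?_, ?_⟩
    · rw [hP, Finset.mem_filter, Finset.mem_product, hR, Finset.mem_powerset, Finset.mem_powerset]
      exact ⟨⟨hs, ht⟩, hd, hc, k, h1, h2, h3, h4, h5, h6, h7, h8⟩
    · intro g hgm
      have : g ∈ s ∨ g ∈ t := Finset.mem_union.1 hgm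
      exact (mem_rf.1 ((hg g).2 this)).2
  -- step 2: each term
  have s2 : ∀ p ∈ P, pr (fun b : Edge n → Bool => ∀ g ∈ p.1 ∪ p.2, g ∣ (adj (ZMod 2) b).charpoly) ≤
      (2 : ℝ) ^ (M + 1) * (F p.1 * F p.2) := by
    intro p hp
    obtain ⟨h1, h2, h3, h4, -⟩ := hmemP p hp
    have hdeg : ∀ g ∈ p.1 ∪ p.2, g.Monic ∧ Irreducible g ∧ 2 ≤ g.natDegree := by
      intro g hg
      have hg' : g ∈ RR 2 D n := (Finset.mem_union.1 hg).elim (fun h => h1 h) (fun h => h2 h)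
      rw [mem_rr] at hg'
      exact ⟨hg'.1, hg'.2.1, by omega⟩
    have h5 := fm_pr n (p.1 ∪ p.2) hdeg
    have h6 : bt (p.1 ∪ p.2) = bt p.1 * bt p.2 := by
      unfold bt
      exact Finset.prod_union h3
    rw [h6] at h5
    refine h5.trans ?_
    have h7 : (1 : ℝ) ≤ 2 ^ M * ((1 / 2) ^ p.1.card * (1 / 2) ^ p.2.card) := by
      rw [← pow_add]
      have e1 : (2 : ℝ) ^ M = 2 ^ (M - (p.1.card + p.2.card)) * 2 ^ (p.1.card + p.2.card) := by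
        rw [← pow_add]
        congr 1
        omega
      rw [e1, mul_assoc, ← mul_pow]
      norm_num
      exact one_le_pow₀ (by norm_num)
    have h8 : 0 ≤ bt p.1 * bt p.2 := mul_nonneg (bt_nonneg _) (bt_nonneg _)
    have h9 : 2 * (bt p.1 * bt p.2) * 1 ≤
        2 * (bt p.1 * bt p.2) * (2 ^ M * ((1 / 2) ^ p.1.card * (1 / 2) ^ p.2.card)) :=
      mul_le_mul_of_nonneg_left h7 (by positivity)
    rw [mul_one] at h9
    refine h9.trans (le_of_eq ?_)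
    rw [hF, pow_succ]
    ring
  -- step 3: grouping
  have s3 : ∑ p ∈ P, F p.1 * F p.2 ≤
      ∑ q ∈ UniL_S W L n a θ, aS D n (1 / 2) q.1 * aS D n (1 / 2) q.2 := by
    have hmap : ∀ p ∈ P, (dg p.1, dg p.2) ∈ UniL_S W L n a θ := by
      intro p hp
      obtain ⟨-, -, -, -, h5⟩ := hmemP p hp
      unfold UniL_S
      rw [Finset.mem_filter, Finset.mem_product, Finset.mem_range, Finset.mem_range]
      refine ⟨?_, h5⟩
      obtain ⟨k, -, -, -, -, -, -, h7, -⟩ := h5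
      constructor
      · simp only; omega
      · simp only; omega
    rw [← Finset.sum_fiberwise_of_maps_to hmap]
    refine Finset.sum_le_sum fun q _ => ?_
    have h1 : aS D n (1 / 2) q.1 * aS D n (1 / 2) q.2 =
        ∑ p ∈ (R.filter (fun s => dg s = q.1)) ×ˢ (R.filter (fun s => dg s = q.2)), F p.1 * F p.2 := by
      rw [Finset.sum_product, ← Finset.sum_mul_sum, hF, hR]
      rfl
    rw [h1]
    refine Finset.sum_le_sum_of_subset_of_nonneg ?_ (fun p _ _ => mul_nonneg (hF0 _) (hF0 _))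
    intro p hp
    rw [Finset.mem_filter] at hp
    obtain ⟨h2, h3, -⟩ := hmemP p hp.1
    have h4 := hp.2
    rw [Finset.mem_product, Finset.mem_filter, Finset.mem_filter, hR, Finset.mem_powerset,
      Finset.mem_powerset]
    exact ⟨⟨h2, congrArg Prod.fst h4⟩, ⟨h3, congrArg Prod.snd h4⟩⟩
  -- step 4: bound of the sum
  obtain ⟨Q, hQ⟩ : ∃ Q : ℝ, Q = 4 * (θ * n) ^ ((1 : ℝ) / 2 ^ D - 1) *
      (D : ℝ) ^ (-(1 + (1 : ℝ) / 2 ^ D)) := ⟨_, rfl⟩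
  have hQ0 : 0 ≤ Q := by
    rw [hQ]
    have := Real.rpow_nonneg hy.le ((1 : ℝ) / 2 ^ D - 1)
    have := Real.rpow_nonneg (Nat.cast_nonneg (α := ℝ) D) (-(1 + (1 : ℝ) / 2 ^ D))
    positivity
  have s4 : ∑ q ∈ UniL_S W L n a θ, aS D n (1 / 2) q.1 * aS D n (1 / 2) q.2 ≤
      ((W : ℝ) + L + 1) ^ 2 * Q := by
    calc ∑ q ∈ UniL_S W L n a θ, aS D n (1 / 2) q.1 * aS D n (1 / 2) q.2 ≤
          ∑ _q ∈ UniL_S W L n a θ, Q := by
          refine Finset.sum_le_sum fun q hq => ?_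
          have h1 : UniL_nc W L n a θ q.1 q.2 := (Finset.mem_filter.1 hq).2
          obtain ⟨h2, h3⟩ := UniL_lower W L n a θ hW q.1 q.2 h1
          rw [hQ]
          exact UniL_prod D n hD (θ * n) hy q.1 q.2 h2 h3
      _ = ((UniL_S W L n a θ).card : ℝ) * Q := by rw [Finset.sum_const, nsmul_eq_mul]
      _ ≤ ((W : ℝ) + L + 1) ^ 2 * Q := mul_le_mul_of_nonneg_right (UniL_card W L n a θ) hQ0
  rw [← hQ]
  calc _ ≤ ∑ p ∈ P, pr (fun b : Edge n → Bool => ∀ g ∈ p.1 ∪ p.2, g ∣ (adj (ZMod 2) b).charpoly) := s1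
    _ ≤ ∑ p ∈ P, (2 : ℝ) ^ (M + 1) * (F p.1 * F p.2) := Finset.sum_le_sum s2
    _ = (2 : ℝ) ^ (M + 1) * ∑ p ∈ P, F p.1 * F p.2 := by rw [Finset.mul_sum]
    _ ≤ (2 : ℝ) ^ (M + 1) * (((W : ℝ) + L + 1) ^ 2 * Q) :=
        mul_le_mul_of_nonneg_left (s3.trans s4) (by positivity)
    _ = (2 : ℝ) ^ (M + 1) * ((W : ℝ) + L + 1) ^ 2 * Q := by ring

end Pool.H86.UD
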