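import Mathlib
import Pool.Agent.H86.UD.SmoP
import Pool.Agent.H86.UD.BadS
import Pool.Agent.H86.UD.DetS
import Pool.Agent.H86.UD.UniL
import Pool.Agent.H86.UD.MgfT

/-! MODULE AsmL (project UD of helper86, MP_a758cf_pr): the final assembly, degrees in a union of at most (n/L)^c
intervals of length L <= delta n, c < 1 - log 2. -/

set_option autoImplicit false

namespace Pool.H86.UD

open Finset Polynomial Pool.H64.IR

theorem al_dec (C κ e : ℝ) (hκ : 0 < κ) (he : 0 < e) :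
    ∃ l0 : ℝ, 0 ≤ l0 ∧ ∀ l : ℝ, l0 ≤ l → C * Real.exp (-(κ * l)) ≤ e := by
  have h1 : Filter.Tendsto (fun l : ℝ => C * Real.exp (-(κ * l))) Filter.atTop (nhds (C * 0)) := by
    refine Filter.Tendsto.const_mul C ?_
    refine Real.tendsto_exp_neg_atTop_nhds_zero.comp ?_
    exact Filter.Tendsto.const_mul_atTop hκ Filter.tendsto_id
  rw [mul_zero] at h1
  obtain ⟨l0, hl0⟩ := Filter.eventually_atTop.1 (h1.eventually_lt_const he)
  exact ⟨max l0 0, le_max_right _ _, fun l hl => (hl0 l (le_trans (le_max_left _ _) hl)).le⟩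

theorem al_term2 (t η : ℝ) (ht : 0 < t) (hD : t * (1 + η) < (1 + t) * Real.log (1 + t)) (e : ℝ) (he : 0 < e) :
    ∃ l0 : ℝ, 0 ≤ l0 ∧ ∀ l : ℝ, l0 ≤ l →
      2 * Real.exp (t * (1 + η) * l) / (1 + t) ^ ⌊(1 + t) * l⌋₊ ≤ e := by
  obtain ⟨l0, hl0, hl1⟩ := al_dec (2 * Real.exp (Real.log (1 + t)))
    ((1 + t) * Real.log (1 + t) - t * (1 + η)) e (by linarith) he
  refine ⟨l0, hl0, fun l hl => le_trans ?_ (hl1 l hl)⟩
  have h1t : (0 : ℝ) < 1 + t := by linarith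
  have hlt : 0 < Real.log (1 + t) := Real.log_pos (by linarith)
  have h1 : Real.exp (Real.log (1 + t) * ((1 + t) * l - 1)) ≤ (1 + t) ^ ⌊(1 + t) * l⌋₊ := by
    rw [← Real.rpow_natCast, Real.rpow_def_of_pos h1t]
    apply Real.exp_le_exp.2
    apply mul_le_mul_of_nonneg_left _ hlt.le
    have := Nat.lt_floor_add_one ((1 + t) * l)
    linarith
  rw [div_le_iff₀ (by positivity)]
  calc 2 * Real.exp (t * (1 + η) * l)
      = 2 * Real.exp (Real.log (1 + t)) *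
        Real.exp (-(((1 + t) * Real.log (1 + t) - t * (1 + η)) * l)) *
        Real.exp (Real.log (1 + t) * ((1 + t) * l - 1)) := by
        have h5 : t * (1 + η) * l = Real.log (1 + t) +
            (-(((1 + t) * Real.log (1 + t) - t * (1 + η)) * l)) +
            Real.log (1 + t) * ((1 + t) * l - 1) := by ring
        rw [h5, Real.exp_add, Real.exp_add]
        ring
    _ ≤ _ := mul_le_mul_of_nonneg_left h1 (by positivity)

/-- the union bound over the intervals is small when `n / D` is large -/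
theorem al_term1 (c t θ η x η0 : ℝ) (D0 B : ℕ) (hc0 : 0 ≤ c) (ht : 0 < t) (hθ : 0 < θ) (hθ1 : θ ≤ 1) (hx : 0 < x)
    (hη : 0 ≤ η) (hη0 : η ≤ η0) (hη1 : η ≤ 1) (n D L W : ℕ) (hD0 : 1 ≤ D0) (hL : 1 ≤ L)
    (hDL : D = max D0 L) (hDn : D ≤ n) (hW : (W : ℝ) ≤ B + 2 * x * D + 1) (N : ℝ)
    (hN : N ≤ ((n : ℝ) / L) ^ c) :
    N * ((2 : ℝ) ^ (⌊(1 + t) * Real.log ((n : ℝ) / D)⌋₊ + 1) * ((W : ℝ) + L + 1) ^ 2 *
      (4 * (θ * n) ^ (η - 1) * (D : ℝ) ^ (-(1 + η)))) ≤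
    ((D0 : ℝ) ^ c * 8 * ((B : ℝ) + 2 * x + 3) ^ 2 * θ⁻¹) *
      Real.exp (-((1 - (c + (1 + t) * Real.log 2 + η0)) * Real.log ((n : ℝ) / D))) := by
  have hD1 : 1 ≤ D := by rw [hDL]; exact le_trans hD0 (le_max_left _ _)
  have hn1 : 1 ≤ n := le_trans hD1 hDn
  have hDr : (0 : ℝ) < D := by exact_mod_cast hD1
  have hDr1 : (1 : ℝ) ≤ D := by exact_mod_cast hD1
  have hnr : (0 : ℝ) < n := by exact_mod_cast hn1
  have hLr : (0 : ℝ) < L := by exact_mod_cast hL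
  have hD0r : (0 : ℝ) < D0 := by exact_mod_cast hD0
  have hq : 1 ≤ (n : ℝ) / D := by
    rw [le_div_iff₀ hDr, one_mul]
    exact_mod_cast hDn
  have hq0 : 0 < (n : ℝ) / D := by positivity
  obtain ⟨l, hl⟩ : ∃ l, l = Real.log ((n : ℝ) / D) := ⟨_, rfl⟩
  have hl0 : 0 ≤ l := by rw [hl]; exact Real.log_nonneg hq
  rw [← hl]
  -- N
  have h1 : N ≤ (D0 : ℝ) ^ c * Real.exp (l * c) := by
    have h2 : (n : ℝ) / L ≤ D0 * ((n : ℝ) / D) := by
      have h3 : (D : ℝ) ≤ D0 * L := by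
        have h4 : D ≤ D0 * L := by
          rw [hDL]
          exact max_le (Nat.le_mul_of_pos_right _ hL) (Nat.le_mul_of_pos_left _ hD0)
        exact_mod_cast h4
      rw [← mul_div_assoc, div_le_div_iff₀ hLr hDr]
      nlinarith
    calc N ≤ ((n : ℝ) / L) ^ c := hN
      _ ≤ (D0 * ((n : ℝ) / D)) ^ c := Real.rpow_le_rpow (by positivity) h2 hc0
      _ = (D0 : ℝ) ^ c * ((n : ℝ) / D) ^ c := Real.mul_rpow hD0r.le hq0.le
      _ = (D0 : ℝ) ^ c * Real.exp (l * c) := by rw [Real.rpow_def_of_pos hq0, hl]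
  -- 2^M
  have h2 : (2 : ℝ) ^ (⌊(1 + t) * l⌋₊ + 1) ≤ 2 * Real.exp (Real.log 2 * ((1 + t) * l)) := by
    rw [pow_succ, mul_comm]
    apply mul_le_mul_of_nonneg_left _ (by norm_num)
    rw [← Real.rpow_natCast, Real.rpow_def_of_pos (by norm_num)]
    apply Real.exp_le_exp.2
    apply mul_le_mul_of_nonneg_left _ (Real.log_nonneg (by norm_num))
    exact Nat.floor_le (by positivity)
  -- the window
  have h3 : (W : ℝ) + L + 1 ≤ ((B : ℝ) + 2 * x + 3) * D := by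
    have h4 : (L : ℝ) ≤ D := by
      have : L ≤ D := by rw [hDL]; exact le_max_right _ _
      exact_mod_cast this
    have h5 : (B : ℝ) ≤ B * D := le_mul_of_one_le_right (Nat.cast_nonneg _) hDr1
    nlinarith
  have h3' : ((W : ℝ) + L + 1) ^ 2 ≤ (((B : ℝ) + 2 * x + 3) * D) ^ 2 :=
    pow_le_pow_left₀ (by positivity) h3 2
  -- the power
  have h4 : (θ * n : ℝ) ^ (η - 1) ≤ θ⁻¹ * (n : ℝ) ^ (η - 1) := by
    rw [Real.mul_rpow hθ.le hnr.le]
    apply mul_le_mul_of_nonneg_right _ (Real.rpow_nonneg hnr.le _)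
    rw [← Real.rpow_neg_one]
    exact Real.rpow_le_rpow_of_exponent_ge hθ hθ1 (by linarith)
  have h5 : (n : ℝ) ^ (η - 1) * (D : ℝ) ^ (-(1 + η)) * (D : ℝ) ^ 2 = Real.exp (l * (η - 1)) := by
    have h6 : (D : ℝ) ^ (-(1 + η)) * (D : ℝ) ^ 2 = ((D : ℝ) ^ (η - 1))⁻¹ := by
      rw [← Real.rpow_natCast, ← Real.rpow_add hDr, ← Real.rpow_neg hDr.le]
      congr 1
      push_cast
      ring
    rw [mul_assoc, h6, ← div_eq_mul_inv, ← Real.div_rpow hnr.le hDr.le, Real.rpow_def_of_pos hq0, hl]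
  have hNn : 0 ≤ (D0 : ℝ) ^ c * Real.exp (l * c) := by positivity
  calc N * ((2 : ℝ) ^ (⌊(1 + t) * l⌋₊ + 1) * ((W : ℝ) + L + 1) ^ 2 *
      (4 * (θ * n) ^ (η - 1) * (D : ℝ) ^ (-(1 + η))))
      ≤ ((D0 : ℝ) ^ c * Real.exp (l * c)) * ((2 * Real.exp (Real.log 2 * ((1 + t) * l))) *
        (((B : ℝ) + 2 * x + 3) * D) ^ 2 *
      (4 * (θ⁻¹ * (n : ℝ) ^ (η - 1)) * (D : ℝ) ^ (-(1 + η)))) := by
        have hd : (0 : ℝ) ≤ (D : ℝ) ^ (-(1 + η)) := Real.rpow_nonneg hDr.le _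
        have hθn : (0 : ℝ) ≤ (θ * n) ^ (η - 1) := Real.rpow_nonneg (by positivity) _
        have a1 : (2 : ℝ) ^ (⌊(1 + t) * l⌋₊ + 1) * ((W : ℝ) + L + 1) ^ 2 ≤
            (2 * Real.exp (Real.log 2 * ((1 + t) * l))) * (((B : ℝ) + 2 * x + 3) * D) ^ 2 :=
          mul_le_mul h2 h3' (by positivity) (by positivity)
        have a2 : 4 * (θ * n : ℝ) ^ (η - 1) * (D : ℝ) ^ (-(1 + η)) ≤
            4 * (θ⁻¹ * (n : ℝ) ^ (η - 1)) * (D : ℝ) ^ (-(1 + η)) :=
          mul_le_mul_of_nonneg_right (mul_le_mul_of_nonneg_left h4 (by norm_num)) hd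
        have a3 := mul_le_mul a1 a2 (by positivity) (by positivity)
        exact mul_le_mul h1 a3 (by positivity) hNn
    _ = ((D0 : ℝ) ^ c * 8 * ((B : ℝ) + 2 * x + 3) ^ 2 * θ⁻¹) *
        (Real.exp (l * c) * Real.exp (Real.log 2 * ((1 + t) * l)) *
          ((n : ℝ) ^ (η - 1) * (D : ℝ) ^ (-(1 + η)) * (D : ℝ) ^ 2)) := by ring
    _ = ((D0 : ℝ) ^ c * 8 * ((B : ℝ) + 2 * x + 3) ^ 2 * θ⁻¹) *
        Real.exp (-((1 - (c + (1 + t) * Real.log 2 + η)) * l)) := by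
        rw [h5, ← Real.exp_add, ← Real.exp_add]
        congr 2
        ring
    _ ≤ _ := by
        apply mul_le_mul_of_nonneg_left _ (by positivity)
        apply Real.exp_le_exp.2
        nlinarith

theorem ud_int (c ε : ℝ) (hc : c < 1 - Real.log 2) (hε : 0 < ε) : ∃ δ : ℝ, 0 < δ ∧ ∃ n0 : ℕ, ∀ n : ℕ, n0 ≤ n →
    ∀ L : ℕ, 1 ≤ L → (L : ℝ) ≤ δ * n → ∀ S : Finset ℕ, (S.card : ℝ) ≤ ((n : ℝ) / L) ^ c →
    pr (fun b : Edge n → Bool => ∃ f : ℚ[X], f ∣ (adj ℚ b).charpoly ∧ 1 ≤ f.natDegree ∧ f.natDegree < n ∧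
      ∃ a ∈ S, a ≤ f.natDegree ∧ f.natDegree ≤ a + L) ≤ ε := by
  classical
  have hl2 : 0 < Real.log 2 := Real.log_pos (by norm_num)
  have hl21 : Real.log 2 < 1 := by
    have := Real.log_two_lt_d9
    linarith
  -- parameters
  obtain ⟨c0, hc0⟩ : ∃ c0, c0 = max c 0 := ⟨_, rfl⟩
  have hc00 : 0 ≤ c0 := by rw [hc0]; exact le_max_right _ _
  have hcc0 : c ≤ c0 := by rw [hc0]; exact le_max_left _ _
  have hc01 : c0 < 1 - Real.log 2 := by rw [hc0]; exact max_lt hc (by linarith)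
  obtain ⟨s0, hs0⟩ : ∃ s0, s0 = 1 - Real.log 2 - c0 := ⟨_, rfl⟩
  have hs0p : 0 < s0 := by linarith
  obtain ⟨t, ht⟩ : ∃ t, t = min 1 (s0 / 4) := ⟨_, rfl⟩
  have ht0 : 0 < t := by rw [ht]; exact lt_min (by norm_num) (by linarith)
  have ht1 : t ≤ 1 := by rw [ht]; exact min_le_left _ _
  have hts : t ≤ s0 / 4 := by rw [ht]; exact min_le_right _ _
  have hkap : t < (1 + t) * Real.log (1 + t) := by
    have h1 : 1 - (1 + t)⁻¹ < Real.log (1 + t) := by
      have h2 := Real.add_one_lt_exp (x := -Real.log (1 + t)) (by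
        have : 0 < Real.log (1 + t) := Real.log_pos (by linarith)
        linarith)
      rw [Real.exp_neg, Real.exp_log (by linarith)] at h2
      linarith
    have h3 : (1 + t) * (1 - (1 + t)⁻¹) < (1 + t) * Real.log (1 + t) :=
      mul_lt_mul_of_pos_left h1 (by linarith)
    have h4 : (1 + t) * (1 - (1 + t)⁻¹) = t := by
      have : (1 + t) ≠ 0 := by linarith
      field_simp
      ring
    linarith
  obtain ⟨κ, hκ⟩ : ∃ κ, κ = (1 + t) * Real.log (1 + t) - t := ⟨_, rfl⟩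
  have hκ0 : 0 < κ := by linarith
  -- D0
  obtain ⟨D0, hD1, hDs, hDk, hDe⟩ : ∃ D : ℕ, 1 ≤ D ∧ (1 : ℝ) / 2 ^ D < s0 / 4 ∧ (1 : ℝ) / 2 ^ D < κ ∧
      20 / (2 : ℝ) ^ D ≤ ε / 10 := by
    have hlim : Filter.Tendsto (fun D : ℕ => (1 : ℝ) / 2 ^ D) Filter.atTop (nhds 0) := by
      have := tendsto_pow_atTop_nhds_zero_of_lt_one (r := (1 / 2 : ℝ)) (by norm_num) (by norm_num)
      refine this.congr fun D => ?_
      rw [one_div_pow]
    have hev := (hlim.eventually_lt_const (by linarith : (0 : ℝ) < s0 / 4)).and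
      ((hlim.eventually_lt_const hκ0).and ((hlim.eventually_lt_const (by positivity : (0 : ℝ) < ε / 200)).and
        (Filter.eventually_ge_atTop 1)))
    obtain ⟨D, h1, h2, h3, h4⟩ := hev.exists
    refine ⟨D, h4, h1, h2, ?_⟩
    have : 20 / (2 : ℝ) ^ D = 20 * (1 / 2 ^ D) := by ring
    rw [this]
    linarith
  obtain ⟨η0, hη0⟩ : ∃ η0 : ℝ, η0 = 1 / 2 ^ D0 := ⟨_, rfl⟩
  rw [← hη0] at hDs hDk
  have hη0p : 0 < η0 := by rw [hη0]; positivity
  obtain ⟨d, hd⟩ : ∃ d, d = min (1 / 2) (ε / 160) := ⟨_, rfl⟩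
  have hd0 : 0 < d := by rw [hd]; exact lt_min (by norm_num) (by positivity)
  have hd1 : d ≤ 1 / 2 := by rw [hd]; exact min_le_left _ _
  have hde : 16 * d ≤ ε / 10 := by
    have : d ≤ ε / 160 := by rw [hd]; exact min_le_right _ _
    linarith
  obtain ⟨m, n1, hn1⟩ := smooth D0 (ε / 10) (by positivity)
  obtain ⟨θ0, hθ0, hta⟩ := ta_bits
  obtain ⟨θ, hθ⟩ : ∃ θ, θ = min θ0 1 := ⟨_, rfl⟩
  have hθp : 0 < θ := by rw [hθ]; exact lt_min hθ0 (by norm_num)
  have hθ1 : θ ≤ 1 := by rw [hθ]; exact min_le_right _ _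
  have hθθ : θ ≤ θ0 := by rw [hθ]; exact min_le_left _ _
  obtain ⟨n2, hn2⟩ := hta (ε / 10) (by positivity)
  obtain ⟨n3, hn3⟩ := bad_sum D0 hD1 d (ε / 10) hd0 hd1 (by positivity)
  obtain ⟨x, hx⟩ : ∃ x, x = 40 / ε := ⟨_, rfl⟩
  have hx0 : 0 < x := by rw [hx]; positivity
  obtain ⟨B, hB⟩ : ∃ B, B = smB D0 m := ⟨_, rfl⟩
  obtain ⟨l1, hl10, hl1⟩ := al_term2 t η0 ht0 (by
    have : t * η0 ≤ 1 * η0 := mul_le_mul_of_nonneg_right ht1 hη0p.le
    linarith) (ε / 10) (by positivity)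
  obtain ⟨l2, hl20, hl2'⟩ := al_dec ((D0 : ℝ) ^ c0 * 8 * ((B : ℝ) + 2 * x + 3) ^ 2 * θ⁻¹)
    (1 - (c0 + (1 + t) * Real.log 2 + η0)) (ε / 10) (by
      have : t * Real.log 2 ≤ t * 1 := mul_le_mul_of_nonneg_left hl21.le ht0.le
      linarith) (by positivity)
  obtain ⟨l0, hl0⟩ : ∃ l0, l0 = max l1 l2 := ⟨_, rfl⟩
  have hl01 : l1 ≤ l0 := by rw [hl0]; exact le_max_left _ _
  have hl02 : l2 ≤ l0 := by rw [hl0]; exact le_max_right _ _
  have hl00 : 0 ≤ l0 := le_trans hl10 hl01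
  obtain ⟨δ, hδ⟩ : ∃ δ, δ = min (Real.exp (-l0)) (θ / (8 * x)) := ⟨_, rfl⟩
  have hδ0 : 0 < δ := by rw [hδ]; exact lt_min (Real.exp_pos _) (by positivity)
  have hδ1 : δ ≤ Real.exp (-l0) := by rw [hδ]; exact min_le_left _ _
  have hδ2 : δ ≤ θ / (8 * x) := by rw [hδ]; exact min_le_right _ _
  obtain ⟨n4, hn4⟩ := exists_nat_ge ((D0 : ℝ) / δ)
  obtain ⟨n5, hn5⟩ := exists_nat_ge ((4 * (B : ℝ) + 4) / θ)
  refine ⟨δ, hδ0, max n1 (max n2 (max n3 (max n4 (max n5 1)))), fun n hn L hL hLδ S hS => ?_⟩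
  simp only [max_le_iff] at hn
  obtain ⟨m1, m2, m3, m4, m5, m7⟩ := hn
  have hnr : (0 : ℝ) < n := by exact_mod_cast m7
  obtain ⟨D, hD⟩ : ∃ D, D = max D0 L := ⟨_, rfl⟩
  have hD0D : D0 ≤ D := by rw [hD]; exact le_max_left _ _
  have hLD : L ≤ D := by rw [hD]; exact le_max_right _ _
  have hDD1 : 1 ≤ D := le_trans hD1 hD0D
  have hDr : (0 : ℝ) < D := by exact_mod_cast hDD1
  have hDδ : (D : ℝ) ≤ δ * n := by
    have h1 : (D0 : ℝ) ≤ δ * n := by
      have h2 : (D0 : ℝ) / δ ≤ n := hn4.trans (by exact_mod_cast m4)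
      rw [div_le_iff₀ hδ0] at h2
      linarith
    rw [hD, Nat.cast_max]
    exact max_le h1 hLδ
  have hexp1 : Real.exp (-l0) ≤ 1 := by
    rw [Real.exp_le_one_iff]
    linarith
  have hDn : D ≤ n := by
    have h1 : (D : ℝ) ≤ n := by
      have : δ * n ≤ 1 * n := mul_le_mul_of_nonneg_right (hδ1.trans hexp1) hnr.le
      linarith
    exact_mod_cast h1
  have hlog : l0 ≤ Real.log ((n : ℝ) / D) := by
    rw [Real.le_log_iff_exp_le (by positivity), le_div_iff₀ hDr]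
    have h1 : (D : ℝ) ≤ Real.exp (-l0) * n := hDδ.trans (mul_le_mul_of_nonneg_right hδ1 hnr.le)
    have h2 : Real.exp l0 * D ≤ Real.exp l0 * (Real.exp (-l0) * n) :=
      mul_le_mul_of_nonneg_left h1 (Real.exp_pos _).le
    rw [← mul_assoc, ← Real.exp_add, add_neg_cancel, Real.exp_zero, one_mul] at h2
    exact h2
  obtain ⟨W, hW⟩ : ∃ W : ℕ, W = B + ⌈2 * x * D⌉₊ := ⟨_, rfl⟩
  have hWr : (W : ℝ) ≤ B + 2 * x * D + 1 := by
    have h1 := (Nat.ceil_lt_add_one (by positivity : 0 ≤ 2 * x * (D : ℝ))).le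
    rw [hW]
    push_cast
    linarith
  have hWl : (B : ℝ) + 2 * x * D ≤ W := by
    have h1 := Nat.le_ceil (2 * x * (D : ℝ))
    rw [hW]
    push_cast
    linarith
  have hWn : (2 * W : ℝ) ≤ θ * n := by
    have h1 : 4 * x * D ≤ θ * n / 2 := by
      have h2 : (D : ℝ) ≤ θ / (8 * x) * n := hDδ.trans (mul_le_mul_of_nonneg_right hδ2 hnr.le)
      have h3 : 4 * x * D ≤ 4 * x * (θ / (8 * x) * n) := mul_le_mul_of_nonneg_left h2 (by positivity)
      have h4 : 4 * x * (θ / (8 * x) * n) = θ * n / 2 := by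
        field_simp
        ring
      linarith
    have h2 : 2 * (B : ℝ) + 2 ≤ θ * n / 2 := by
      have h3 : (4 * (B : ℝ) + 4) / θ ≤ n := hn5.trans (by exact_mod_cast m5)
      rw [div_le_iff₀ hθp] at h3
      linarith
    linarith
  obtain ⟨M, hM⟩ : ∃ M, M = ⌊(1 + t) * Real.log ((n : ℝ) / D)⌋₊ := ⟨_, rfl⟩
  obtain ⟨η, hη⟩ : ∃ η : ℝ, η = 1 / 2 ^ D := ⟨_, rfl⟩
  have hηp : 0 ≤ η := by rw [hη]; positivity
  have hη00 : η ≤ η0 := by
    rw [hη, hη0]
    exact one_div_le_one_div_of_le (by positivity) (pow_le_pow_right₀ (by norm_num) hD0D)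
  have hη1 : η ≤ 1 := by
    rw [hη, div_le_one (by positivity)]
    exact one_le_pow₀ (by norm_num)
  have e1 := hn1 n m1
  have e2 := hn2 n m2
  have e3 := hn3 n m3
  have e4 : pr (fun b : Edge n → Bool => M < (RF D n b).card) ≤ ε / 10 := by
    refine (rf_card2 D n M hDD1 hDn t ht0.le).trans ?_
    refine le_trans ?_ (hl1 _ (hl01.trans hlog))
    rw [hM, ← hη]
    have hlog0 : 0 ≤ Real.log ((n : ℝ) / D) := hl00.trans hlog
    apply div_le_div_of_nonneg_right _ (by positivity)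
    apply mul_le_mul_of_nonneg_left _ (by norm_num)
    apply Real.exp_le_exp.2
    apply mul_le_mul_of_nonneg_right _ hlog0
    apply mul_le_mul_of_nonneg_left _ ht0.le
    linarith
  have e5 : pr (fun b : Edge n → Bool => x * D < (dg ((RF D0 n b).filter fun g => g.natDegree ≤ D) : ℝ)) ≤
      ε / 10 := by
    refine (wid D0 D n hD1 hD0D x hx0).trans (le_of_eq ?_)
    rw [hx]
    field_simp
    norm_num
  -- the union over the intervals
  let Q : ℕ → (Edge n → Bool) → Prop := fun a b => ∃ k : ℕ, a ≤ k ∧ k ≤ a + L ∧ θ * n ≤ k ∧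
      (k : ℝ) ≤ (1 - θ) * n ∧ ∃ s t : Finset (ZMod 2)[X], s ⊆ RR 2 D n ∧ t ⊆ RR 2 D n ∧
      Disjoint s t ∧ (∀ g, g ∈ RF D n b ↔ g ∈ s ∨ g ∈ t) ∧ s.card + t.card ≤ M ∧
      2 * dg s ≤ k ∧ k ≤ 2 * dg s + W ∧ 2 * (dg s + dg t) ≤ n ∧ n ≤ 2 * (dg s + dg t) + W
  have e6 : pr (fun b : Edge n → Bool => ∃ a ∈ S, Q a b) ≤ ε / 10 := by
    refine (pr_exists_le S Q).trans ?_
    have h1 : ∀ a ∈ S, pr (Q a) ≤ (2 : ℝ) ^ (M + 1) * ((W : ℝ) + L + 1) ^ 2 *
        (4 * (θ * n) ^ (η - 1) * (D : ℝ) ^ (-(1 + η))) := by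
      intro a _
      rw [hη]
      exact uni_l D W L n a M θ hDD1 m7 hθp hWn
    refine (Finset.sum_le_sum h1).trans ?_
    rw [Finset.sum_const, nsmul_eq_mul]
    refine le_trans ?_ (hl2' _ (hl02.trans hlog))
    rw [hM]
    refine al_term1 c0 t θ η x η0 D0 B hc00 ht0 hθp hθ1 hx0 hηp hη00 hη1 n D L W hD1 hL hD hDn hWr _ ?_
    refine hS.trans ?_
    apply Real.rpow_le_rpow_of_exponent_le _ hcc0
    rw [le_div_iff₀ (by exact_mod_cast hL), one_mul]
    exact_mod_cast le_trans hLD hDn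
  -- the inclusion
  have hmain : pr (fun b : Edge n → Bool => ∃ f : ℚ[X], f ∣ (adj ℚ b).charpoly ∧ 1 ≤ f.natDegree ∧
      f.natDegree < n ∧ ∃ a ∈ S, a ≤ f.natDegree ∧ f.natDegree ≤ a + L) ≤
      pr (fun b : Edge n → Bool => ∃ g : (ZMod 2)[X], g.Monic ∧ Irreducible g ∧ g.natDegree ≤ D0 ∧
        g ^ m ∣ (adj (ZMod 2) b).charpoly) +
      pr (fun b : Edge n → Bool => ∃ g : ℚ[X], g ∣ (adj ℚ b).charpoly ∧ 1 ≤ g.natDegree ∧
        (g.natDegree : ℝ) ≤ θ0 * n) +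
      pr (fun b : Edge n → Bool => ∃ g ∈ RF D0 n b, (g ^ 4 ∣ (adj (ZMod 2) b).charpoly ∨ Bad4 g b)) +
      pr (fun b : Edge n → Bool => M < (RF D n b).card) +
      pr (fun b : Edge n → Bool => x * D < (dg ((RF D0 n b).filter fun g => g.natDegree ≤ D) : ℝ)) +
      pr (fun b : Edge n → Bool => ∃ a ∈ S, Q a b) := by
    unfold pr
    rw [← avg_add, ← avg_add, ← avg_add, ← avg_add, ← avg_add]
    refine avg_mono fun b => ?_
    have i1 := ind_nonneg (∃ g : (ZMod 2)[X], g.Monic ∧ Irreducible g ∧ g.natDegree ≤ D0 ∧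
        g ^ m ∣ (adj (ZMod 2) b).charpoly)
    have i2 := ind_nonneg (∃ g : ℚ[X], g ∣ (adj ℚ b).charpoly ∧ 1 ≤ g.natDegree ∧ (g.natDegree : ℝ) ≤ θ0 * n)
    have i3 := ind_nonneg (∃ g ∈ RF D0 n b, (g ^ 4 ∣ (adj (ZMod 2) b).charpoly ∨ Bad4 g b))
    have i4 := ind_nonneg (M < (RF D n b).card)
    have i5 := ind_nonneg (x * D < (dg ((RF D0 n b).filter fun g => g.natDegree ≤ D) : ℝ))
    have i6 := ind_nonneg (∃ a ∈ S, Q a b)
    by_cases hex : ∃ f : ℚ[X], f ∣ (adj ℚ b).charpoly ∧ 1 ≤ f.natDegree ∧ f.natDegree < n ∧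
      ∃ a ∈ S, a ≤ f.natDegree ∧ f.natDegree ≤ a + L
    swap
    · rw [ind_false hex]; linarith
    rw [ind_true hex]
    obtain ⟨f, hf, hk1, hk2, a, haS, ha1, ha2⟩ := hex
    by_cases c1 : ∃ g : (ZMod 2)[X], g.Monic ∧ Irreducible g ∧ g.natDegree ≤ D0 ∧
        g ^ m ∣ (adj (ZMod 2) b).charpoly
    · rw [ind_true c1]; linarith
    by_cases c2 : ∃ g : ℚ[X], g ∣ (adj ℚ b).charpoly ∧ 1 ≤ g.natDegree ∧ (g.natDegree : ℝ) ≤ θ0 * n
    · rw [ind_true c2]; linarith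
    by_cases c3 : ∃ g ∈ RF D0 n b, (g ^ 4 ∣ (adj (ZMod 2) b).charpoly ∨ Bad4 g b)
    · rw [ind_true c3]; linarith
    by_cases c4 : M < (RF D n b).card
    · rw [ind_true c4]; linarith
    by_cases c5 : x * D < (dg ((RF D0 n b).filter fun g => g.natDegree ≤ D) : ℝ)
    · rw [ind_true c5]; linarith
    have c6 : ∃ a ∈ S, Q a b := by
      have hθn : θ * n ≤ θ0 * n := mul_le_mul_of_nonneg_right hθθ hnr.le
      have hkθ : θ * n < f.natDegree := by
        by_contra hcon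
        exact c2 ⟨f, hf, hk1, (not_lt.1 hcon).trans hθn⟩
      have hkθ2 : (f.natDegree : ℝ) < (1 - θ) * n := by
        by_contra hcon
        push Not at hcon
        obtain ⟨f', hf'⟩ := hf
        have hne : (adj ℚ b).charpoly ≠ 0 := (Matrix.charpoly_monic _).ne_zero
        rw [hf'] at hne
        have hdeg : f.natDegree + f'.natDegree = n := by
          rw [← Polynomial.natDegree_mul (left_ne_zero_of_mul hne) (right_ne_zero_of_mul hne), ← hf',
            Matrix.charpoly_natDegree_eq_dim, Fintype.card_fin]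
        refine c2 ⟨f', ⟨f, by rw [hf']; ring⟩, by omega, ?_⟩
        have h7 : (f.natDegree : ℝ) + f'.natDegree = n := by exact_mod_cast hdeg
        linarith
      obtain ⟨s, t', a1, a2, a3, a4, a5, a6, a7, a8, a9⟩ := det_side D0 m n b hD1
        (fun g hg hi hgD hdvd => c1 ⟨g, hg, hi, hgD, hdvd⟩)
        (fun g hg hg4 => c3 ⟨g, hg, Or.inl hg4⟩) (fun g hg hB => c3 ⟨g, hg, Or.inr hB⟩) f hf
      -- restrict to degrees greater than D
      have hsplit : ∀ u : Finset (ZMod 2)[X], dg u = dg (u.filter fun g => D < g.natDegree) +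
          dg (u.filter fun g => g.natDegree ≤ D) := by
        intro u
        unfold dg
        rw [← Finset.sum_filter_add_sum_filter_not u (fun g => D < g.natDegree)]
        congr 1
        refine Finset.sum_congr ?_ fun _ _ => rfl
        refine Finset.filter_congr fun g _ => ?_
        exact not_lt
      have hsub : ∀ u : Finset (ZMod 2)[X], (∀ g ∈ u, g ∈ RF D0 n b) →
          dg (u.filter fun g => g.natDegree ≤ D) ≤ dg ((RF D0 n b).filter fun g => g.natDegree ≤ D) := by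
        intro u hu
        unfold dg
        refine Finset.sum_le_sum_of_subset (fun g hg => ?_)
        obtain ⟨h1, h2⟩ := Finset.mem_filter.1 hg
        exact Finset.mem_filter.2 ⟨hu g h1, h2⟩
      have hdj : Disjoint (s.filter fun g => g.natDegree ≤ D) (t'.filter fun g => g.natDegree ≤ D) :=
        Finset.disjoint_filter_filter a3
      have hboth : dg (s.filter fun g => g.natDegree ≤ D) + dg (t'.filter fun g => g.natDegree ≤ D) ≤
          dg ((RF D0 n b).filter fun g => g.natDegree ≤ D) := by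
        unfold dg
        rw [← Finset.sum_union hdj]
        refine Finset.sum_le_sum_of_subset (fun g hg => ?_)
        rcases Finset.mem_union.1 hg with h | h
        · obtain ⟨h1, h2⟩ := Finset.mem_filter.1 h
          exact Finset.mem_filter.2 ⟨(a4 g).2 (Or.inl h1), h2⟩
        · obtain ⟨h1, h2⟩ := Finset.mem_filter.1 h
          exact Finset.mem_filter.2 ⟨(a4 g).2 (Or.inr h1), h2⟩
      have hWd : B + 2 * dg ((RF D0 n b).filter fun g => g.natDegree ≤ D) ≤ W := by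
        have h1 := not_lt.1 c5
        have h2 : (B : ℝ) + 2 * (dg ((RF D0 n b).filter fun g => g.natDegree ≤ D) : ℝ) ≤ W := by
          linarith
        exact_mod_cast h2
      have hs1 := hsplit s
      have ht1' := hsplit t'
      have hsb := hsub s (fun g hg => (a4 g).2 (Or.inl hg))
      rw [← hB] at a7 a9
      refine ⟨a, haS, f.natDegree, ha1, ha2, hkθ.le, hkθ2.le, s.filter fun g => D < g.natDegree,
        t'.filter fun g => D < g.natDegree, ?_, ?_, Finset.disjoint_filter_filter a3, ?_, ?_, ?_, ?_, ?_, ?_⟩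
      · intro g hg
        obtain ⟨h1, h2⟩ := Finset.mem_filter.1 hg
        have h3 := (mem_rr g).1 (a1 h1)
        exact (mem_rr g).2 ⟨h3.1, h3.2.1, h2, h3.2.2.2⟩
      · intro g hg
        obtain ⟨h1, h2⟩ := Finset.mem_filter.1 hg
        have h3 := (mem_rr g).1 (a2 h1)
        exact (mem_rr g).2 ⟨h3.1, h3.2.1, h2, h3.2.2.2⟩
      · intro g
        constructor
        · intro hg
          obtain ⟨⟨h1, h2, h3, h4⟩, h5⟩ := mem_rf.1 hg
          have h6 : g ∈ RF D0 n b := mem_rf.2 ⟨⟨h1, h2, lt_of_le_of_lt hD0D h3, h4⟩, h5⟩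
          rcases (a4 g).1 h6 with h | h
          · exact Or.inl (Finset.mem_filter.2 ⟨h, h3⟩)
          · exact Or.inr (Finset.mem_filter.2 ⟨h, h3⟩)
        · intro hg
          have h7 : g ∈ RF D0 n b ∧ D < g.natDegree := by
            rcases hg with h | h
            · obtain ⟨h1, h2⟩ := Finset.mem_filter.1 h
              exact ⟨(a4 g).2 (Or.inl h1), h2⟩
            · obtain ⟨h1, h2⟩ := Finset.mem_filter.1 h
              exact ⟨(a4 g).2 (Or.inr h1), h2⟩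
          obtain ⟨⟨h1, h2, h3, h4⟩, h5⟩ := mem_rf.1 h7.1
          exact mem_rf.2 ⟨⟨h1, h2, h7.2, h4⟩, h5⟩
      · rw [← Finset.card_union_of_disjoint (Finset.disjoint_filter_filter a3)]
        refine le_trans (Finset.card_le_card fun g hg => ?_) (not_lt.1 c4)
        have h7 : g ∈ RF D0 n b ∧ D < g.natDegree := by
          rcases Finset.mem_union.1 hg with h | h
          · obtain ⟨h1, h2⟩ := Finset.mem_filter.1 h
            exact ⟨(a4 g).2 (Or.inl h1), h2⟩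
          · obtain ⟨h1, h2⟩ := Finset.mem_filter.1 h
            exact ⟨(a4 g).2 (Or.inr h1), h2⟩
        obtain ⟨⟨h1, h2, h3, h4⟩, h5⟩ := mem_rf.1 h7.1
        exact mem_rf.2 ⟨⟨h1, h2, h7.2, h4⟩, h5⟩
      · omega
      · omega
      · omega
      · omega
    rw [ind_true c6]; linarith
  linarith

end Pool.H86.UD
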